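import Mathlib
import Pool.Agent.K4H21.DB.Defs
import Pool.Agent.W547.KB.Final
import Pool.Agent.K4H29.HC.Typ3
import Pool.Agent.H204R3.CM.Expand

/-!
# Coefficients of forms and of homomorphisms with respect to the weights
-/

set_option linter.unusedSectionVars false
set_option linter.unusedVariables false
set_option autoImplicit false

namespace Pool.Agent.K4H21.LC

open Module NumberField Pool.Agent.H204R3.CM
open Pool.Agent.W547.KB (CMPair CMAV Wt ev)
open Pool.Agent.K4H29.HC (perC)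
open Pool.Agent.K4H21.DB (signs)

noncomputable section

/-- The coefficients of a form with respect to the weights are unique. -/
theorem coeff_unique (X0 : CMAV) {κ : Type} [Fintype κ] [DecidableEq κ]
    (c c' : (κ → Wt X0 ℂ) → ℂ)
    (h : ∀ v : κ → X0.H1, ∑ I, c I * ∏ k, ev (v k) (I k) = ∑ I, c' I * ∏ k, ev (v k) (I k)) :
    c = c' := by
  classical
  have h1 : formOf (E := fun i : X0.I => (X0.factor i).E) (fun i : X0.I => i) c =
      formOf (E := fun i : X0.I => (X0.factor i).E) (fun i : X0.I => i) c' := by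
    refine multilinear_ext_span _ _ _
      (span_chi (E := fun i : X0.I => (X0.factor i).E) (fun i : X0.I => i)) ?_
    intro v hv
    choose w hw using hv
    have hv' : v = fun l => chi (fun i : X0.I => (X0.factor i).E) (fun i : X0.I => i) ℂ (w l) :=
      funext fun l => (hw l).symm
    rw [hv', formOf_apply, formOf_apply]
    exact h w
  funext I
  have h2 := DFunLike.congr_fun h1 (fun l => Pi.single (I l) (1 : ℂ))
  rw [formOf_single, formOf_single, Finset.prod_const_one, mul_one, mul_one] at h2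
  exact h2

/-- The coefficients of a linear form with respect to the weights are unique. -/
theorem coeff_unique_one (X0 : CMAV) (b b' : Wt X0 ℂ → ℂ)
    (h : ∀ v : X0.H1, ∑ x, b x * ev v x = ∑ x, b' x * ev v x) : b = b' := by
  have h1 := coeff_unique X0 (κ := Unit) (fun I => b (I ())) (fun I => b' (I ())) (fun v => by
    have h2 := h (v ())
    simp only [Finset.univ_unique, Finset.prod_singleton]
    rw [← (Equiv.funUnique Unit (Wt X0 ℂ)).sum_comp, ← (Equiv.funUnique Unit (Wt X0 ℂ)).sum_comp]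
      at h2
    exact h2)
  funext x
  exact congrFun h1 (fun _ => x)

/-- The first half of the expansion, for an embedding in the CM type. -/
theorem expand_pos (X0 : CMAV) (A : CMPair) (u : X0.H1 →ₗ[ℚ] A.E)
    (Ψ : X0.Tan →ₗ[ℂ] (A.Φ → ℂ)) (hΨ : ∀ v, Ψ (X0.per v) = perC A (u v)) (φ : A.E →+* ℂ)
    (hφ : φ ∈ A.Φ) : ∃ b : Wt X0 ℂ → ℂ, (∀ v, φ (u v) = ∑ x, b x * ev v x) ∧
      ∀ x, b x ≠ 0 → x.2 ∈ (X0.factor x.1).Φ := by
  classical
  let L : ∀ i, ((X0.factor i).Φ → ℂ) →ₗ[ℂ] ℂ := fun i =>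
    { toFun := fun t => Ψ (Pi.single i t) ⟨φ, hφ⟩
      map_add' := fun s t => by
        rw [Pi.single_add, map_add]
        rfl
      map_smul' := fun a t => by
        rw [Pi.single_smul, map_smul]
        rfl }
  have hL : ∀ t : X0.Tan, Ψ t ⟨φ, hφ⟩ = ∑ i, L i (t i) := by
    intro t
    have h1 : t = ∑ i, Pi.single i (t i) := (Finset.univ_sum_single t).symm
    have h2 : Ψ t = ∑ i, Ψ (Pi.single i (t i)) := by
      conv_lhs => rw [h1]
      exact map_sum Ψ _ _
    rw [h2, Finset.sum_apply]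
    rfl
  have hL2 : ∀ i (s : (X0.factor i).Φ → ℂ), L i s = ∑ ψ, s ψ * L i (Pi.single ψ 1) := by
    intro i s
    have h1 : s = ∑ ψ, s ψ • (Pi.single ψ 1 : (X0.factor i).Φ → ℂ) := by
      funext ψ
      rw [Finset.sum_apply, Finset.sum_eq_single ψ]
      · simp
      · intro ψ' _ hne
        simp [Pi.single_eq_of_ne (Ne.symm hne)]
      · exact fun h => absurd (Finset.mem_univ _) h
    conv_lhs => rw [h1]
    rw [map_sum]
    exact Finset.sum_congr rfl fun ψ _ => by rw [map_smul, smul_eq_mul]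
  refine ⟨fun x => if h : x.2 ∈ (X0.factor x.1).Φ then L x.1 (Pi.single ⟨x.2, h⟩ 1) else 0,
    fun v => ?_, fun x hx => ?_⟩
  · have h1 : φ (u v) = Ψ (X0.per v) ⟨φ, hφ⟩ := by
      rw [hΨ]
      rfl
    rw [h1, hL, Fintype.sum_sigma]
    refine Finset.sum_congr rfl fun i _ => ?_
    rw [hL2]
    have h2 : ∀ ψ : (X0.factor i).Φ, X0.per v i ψ * L i (Pi.single ψ 1) =
        (if h : ψ.1 ∈ (X0.factor i).Φ then L i (Pi.single ⟨ψ.1, h⟩ 1) else 0) * ψ.1 (v i) := by
      intro ψ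
      rw [dif_pos ψ.2, mul_comm]
      rfl
    rw [Finset.sum_congr rfl fun ψ _ => h2 ψ]
    have h3 := Finset.sum_subtype_eq_sum_filter (s := Finset.univ)
      (p := fun ψ : (X0.factor i).E →+* ℂ => ψ ∈ (X0.factor i).Φ)
      (fun ψ : (X0.factor i).E →+* ℂ =>
        (if h : ψ ∈ (X0.factor i).Φ then L i (Pi.single ⟨ψ, h⟩ 1) else 0) * ψ (v i))
    rw [Finset.sum_filter] at h3
    have h4 : ∀ ψ : (X0.factor i).E →+* ℂ,
        (if ψ ∈ (X0.factor i).Φ then
          (if h : ψ ∈ (X0.factor i).Φ then L i (Pi.single ⟨ψ, h⟩ 1) else 0) * ψ (v i) else 0) =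
        (if h : ψ ∈ (X0.factor i).Φ then L i (Pi.single ⟨ψ, h⟩ 1) else 0) * ψ (v i) := by
      intro ψ
      by_cases h : ψ ∈ (X0.factor i).Φ
      · rw [if_pos h]
      · rw [if_neg h, dif_neg h, zero_mul]
    rw [Finset.sum_congr rfl fun ψ _ => h4 ψ] at h3
    change _ = ∑ ψ : (X0.factor i).E →+* ℂ,
      (if h : ψ ∈ (X0.factor i).Φ then L i (Pi.single ⟨ψ, h⟩ 1) else 0) * ψ (v i)
    rw [← h3, Finset.subtype_univ]
  · by_contra h
    exact hx (dif_neg h)

/-- The first half of the expansion. -/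
theorem expand_any (X0 : CMAV) (A : CMPair) (u : X0.H1 →ₗ[ℚ] A.E)
    (Ψ : X0.Tan →ₗ[ℂ] (A.Φ → ℂ)) (hΨ : ∀ v, Ψ (X0.per v) = perC A (u v)) (φ : A.E →+* ℂ) :
    ∃ b : Wt X0 ℂ → ℂ, (∀ v, φ (u v) = ∑ x, b x * ev v x) ∧
      ∀ x, b x ≠ 0 → (φ ∈ A.Φ ↔ x.2 ∈ (X0.factor x.1).Φ) := by
  classical
  by_cases hφ : φ ∈ A.Φ
  · obtain ⟨b, h1, h2⟩ := expand_pos X0 A u Ψ hΨ φ hφ
    exact ⟨b, h1, fun x hx => iff_of_true hφ (h2 x hx)⟩
  · have hφ' : ComplexEmbedding.conjugate φ ∈ A.Φ := by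
      by_contra h
      exact hφ ((A.isCMType φ).2 h)
    obtain ⟨b, h1, h2⟩ := expand_pos X0 A u Ψ hΨ _ hφ'
    let e : Wt X0 ℂ ≃ Wt X0 ℂ := Equiv.sigmaCongrRight fun i =>
      { toFun := fun ψ => ComplexEmbedding.conjugate ψ
        invFun := fun ψ => ComplexEmbedding.conjugate ψ
        left_inv := fun ψ => star_involutive ψ
        right_inv := fun ψ => star_involutive ψ }
    refine ⟨fun x => starRingEnd ℂ (b (e x)), fun v => ?_, fun x hx => iff_of_false hφ ?_⟩
    · have h3 := congrArg (starRingEnd ℂ) (h1 v)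
      rw [ComplexEmbedding.conjugate_coe_eq, Complex.conj_conj, map_sum, ← e.sum_comp] at h3
      rw [h3]
      refine Finset.sum_congr rfl fun x _ => ?_
      rw [map_mul]
      congr 1
      change starRingEnd ℂ ((ComplexEmbedding.conjugate x.2) (v x.1)) = x.2 (v x.1)
      rw [ComplexEmbedding.conjugate_coe_eq, Complex.conj_conj]
    · have h3 : b (e x) ≠ 0 := fun h => hx (by
        change starRingEnd ℂ (b (e x)) = 0
        rw [h, map_zero])
      exact fun h => ((X0.factor x.1).isCMType x.2).1 h (h2 _ h3)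

/-- **The expansion of a homomorphism with respect to the weights**: only weights with the same sign
vector occur. -/
theorem hom_expand (X0 : CMAV) (A : CMPair) (u : X0.H1 →ₗ[ℚ] A.E)
    (Ψ : X0.Tan →ₗ[ℂ] (A.Φ → ℂ)) (hΨ : ∀ v, Ψ (X0.per v) = perC A (u v)) (φ : A.E →+* ℂ) :
    ∃ b : Wt X0 ℂ → ℂ, (∀ v, φ (u v) = ∑ x, b x * ev v x) ∧
      ∀ x, b x ≠ 0 → signs (X0.factor x.1) x.2 = signs A φ := by
  classical
  obtain ⟨b, hb, -⟩ := expand_any X0 A u Ψ hΨ φ
  refine ⟨b, hb, fun x hx => ?_⟩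
  funext τ
  obtain ⟨b', hb', hs⟩ := expand_any X0 A u Ψ hΨ ((τ : ℂ →+* ℂ).comp φ)
  let e : Wt X0 ℂ ≃ Wt X0 ℂ := Equiv.sigmaCongrRight fun i =>
    { toFun := fun ψ => (τ : ℂ →+* ℂ).comp ψ
      invFun := fun ψ => (τ.symm : ℂ →+* ℂ).comp ψ
      left_inv := fun ψ => by
        ext a
        exact τ.symm_apply_apply _
      right_inv := fun ψ => by
        ext a
        exact τ.apply_symm_apply _ }
  have h1 : (fun y => τ (b (e.symm y))) = b' := by
    apply coeff_unique_one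
    intro v
    rw [← hb', ← e.sum_comp]
    change _ = τ (φ (u v))
    rw [hb, map_sum]
    refine Finset.sum_congr rfl fun y _ => ?_
    rw [e.symm_apply_apply, map_mul]
    rfl
  have h2 : b' (e x) ≠ 0 := by
    rw [← h1]
    change τ (b (e.symm (e x))) ≠ 0
    rw [e.symm_apply_apply]
    exact fun h => hx ((map_eq_zero τ).1 h)
  have h3 : (τ : ℂ →+* ℂ).comp φ ∈ A.Φ ↔ (τ : ℂ →+* ℂ).comp x.2 ∈ (X0.factor x.1).Φ := hs _ h2
  change (if (τ : ℂ →+* ℂ).comp x.2 ∈ (X0.factor x.1).Φ then (1 : ℚ) else -1) =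
    if (τ : ℂ →+* ℂ).comp φ ∈ A.Φ then 1 else -1
  by_cases h : (τ : ℂ →+* ℂ).comp φ ∈ A.Φ
  · rw [if_pos h, if_pos (h3.1 h)]
  · rw [if_neg h, if_neg fun h' => h (h3.2 h')]

end

end Pool.Agent.K4H21.LC
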