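import Pool.Agent.K4H21.LC.Rk
import Pool.Agent.K4H21.LC.Hm
import Pool.Agent.K4H94.DB.Def

/-!
# The eigenvalues of the multiplicative operators
-/

set_option linter.unusedSectionVars false
set_option linter.unusedVariables false
set_option autoImplicit false

namespace Pool.Agent.K4H21.LC

open Module NumberField Pool.Agent.R915 Pool.Agent.K4H29.HC Pool.Agent.K4H21.DB
open Pool.Agent.Y90 (AV IsHom IsPolarization)
open Pool.Agent.W547.KB (CMPair CMAV Wt)
open Pool.Agent.W547.LN (SameType)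

noncomputable section

/-- The homomorphism to a simple factor of a type which is isomorphic to the type of a factor. -/
def toP (X0 : CMAV) (i : X0.I) {Q : CMPair} (e : (X0.factor i).E ≃+* Q.E) :
    X0.H1 →ₗ[ℚ] Q.E where
  toFun w := e (w i)
  map_add' v w := map_add e _ _
  map_smul' q w := by
    change e (q • w i) = q • e (w i)
    exact map_rat_smul (e : (X0.factor i).E →+* Q.E) q (w i)

theorem isHom_toP (X0 : CMAV) (i : X0.I) {Q : CMPair} (hQ : ∃ E, IsPolarization (perC Q) E)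
    (e : (X0.factor i).E ≃+* Q.E)
    (he : ∀ ψ : Q.E →+* ℂ, ψ ∈ Q.Φ ↔ ψ.comp (e : (X0.factor i).E →+* Q.E) ∈ (X0.factor i).Φ) :
    IsHom (toAV X0) (avP Q hQ) (toP X0 i e) := by
  let Ψ : X0.Tan →ₗ[ℂ] (Q.Φ → ℂ) :=
    { toFun := fun t ψ => t i ⟨ψ.1.comp (e : (X0.factor i).E →+* Q.E), (he ψ.1).1 ψ.2⟩
      map_add' := fun s t => rfl
      map_smul' := fun c t => rfl }
  exact ⟨Ψ, fun v => rfl⟩

/-- The multiplicative operator acts on each weight as the number which belongs to its sign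
vector. -/
theorem op_ev {ι : Type} [Fintype ι] [DecidableEq ι] {P : ι → CMPair}
    (hpol : ∀ i, ∃ E, IsPolarization (perC (P i)) E) (hprim : ∀ i, Primitive (P i))
    (hne : ∀ i k, i ≠ k → ¬ SameType (P i) (P k)) (X0 : CMAV)
    (hall : ∀ i, ∃ q, SameType (X0.factor i) (P q))
    (T : ((ℂ ≃+* ℂ) → ℚ) → ℂ) (cf : ∀ i, Fin (finrank ℚ (P i).E) → ℂ)
    (hcf : ∀ i ψ, ∑ l, cf i l * ψ (finBasis ℚ (P i).E l) = T (signs (P i) ψ) - 1)
    (w : X0.H1) (x : Wt X0 ℂ) :
    ∑ r, cc cf r * Pool.Agent.W547.KB.ev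
      ((Op hpol hprim (fun i => finBasis ℚ (P i).E) (toAV X0) r w : (toAV X0).H) : X0.H1) x =
      T (signs (X0.factor x.1) x.2) * Pool.Agent.W547.KB.ev w x := by
  classical
  obtain ⟨i, φ⟩ := x
  obtain ⟨q, e, he⟩ := hall i
  have hh := isHom_toP X0 i (hpol q) e he
  -- the value of the operators
  have key : ∀ (p : ι) (l : Fin (finrank ℚ (P p).E)),
      e ((Op hpol hprim (fun i => finBasis ℚ (P i).E) (toAV X0) (some ⟨p, l⟩) w : X0.H1) i) =
        (opA (hpol p) (hprim p) (finBasis ℚ (P p).E l) (avP (P q) (hpol q)) (e (w i)) :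
          (P q).E) := by
    intro p l
    exact opA_nat (hP := hpol p) (hprim p) (finBasis ℚ (P p).E l) hh w
  have h1 : ∀ l, e ((Op hpol hprim (fun i => finBasis ℚ (P i).E) (toAV X0) (some ⟨q, l⟩) w :
      X0.H1) i) = finBasis ℚ (P q).E l * e (w i) := by
    intro l
    rw [key]
    exact opA_self (hprim q) (finBasis ℚ (P q).E l) (e (w i))
  have h2 : ∀ p, p ≠ q → ∀ l, e ((Op hpol hprim (fun i => finBasis ℚ (P i).E) (toAV X0)
      (some ⟨p, l⟩) w : X0.H1) i) = 0 := by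
    intro p hp l
    rw [key]
    exact opA_other (hprim p) (finBasis ℚ (P p).E l)
      (fun g hg => hom_zero (hprim p) (hprim q) (hne p q hp) hg) (e (w i))
  have hφ : ∀ a : (X0.factor i).E, φ a = (φ.comp (e.symm : (P q).E →+* (X0.factor i).E)) (e a) := by
    intro a
    change φ a = φ (e.symm (e a))
    rw [e.symm_apply_apply]
  rw [Fintype.sum_option, Fintype.sum_sigma, Finset.sum_eq_single q]
  · have h3 : ∀ l, cc cf (some ⟨q, l⟩) * Pool.Agent.W547.KB.ev
        ((Op hpol hprim (fun i => finBasis ℚ (P i).E) (toAV X0) (some ⟨q, l⟩) w :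
          (toAV X0).H) : X0.H1) ⟨i, φ⟩ =
        (cf q l * (φ.comp (e.symm : (P q).E →+* (X0.factor i).E)) (finBasis ℚ (P q).E l)) *
          φ (w i) := by
      intro l
      change cf q l * φ ((Op hpol hprim (fun i => finBasis ℚ (P i).E) (toAV X0) (some ⟨q, l⟩) w :
          X0.H1) i) = _
      rw [hφ, h1, map_mul, ← hφ (w i), mul_assoc]
    rw [Finset.sum_congr rfl fun l _ => h3 l, ← Finset.sum_mul, hcf,
      Pool.Agent.K4H94.DB.signs_sameType e he φ]
    change 1 * φ (w i) + _ = _ * φ (w i)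
    ring
  · intro p _ hp
    refine Finset.sum_eq_zero fun l _ => ?_
    change cf p l * φ ((Op hpol hprim (fun i => finBasis ℚ (P i).E) (toAV X0) (some ⟨p, l⟩) w :
          X0.H1) i) = 0
    rw [hφ, h2 p hp, map_zero, mul_zero]
  · intro h
    exact absurd (Finset.mem_univ _) h

/-- The weights which occur in a fixed form have the eigenvalue one. -/
theorem coeff_fix_of {ι : Type} [Fintype ι] [DecidableEq ι] {P : ι → CMPair}
    (hpol : ∀ i, ∃ E, IsPolarization (perC (P i)) E) (hprim : ∀ i, Primitive (P i))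
    (hne : ∀ i k, i ≠ k → ¬ SameType (P i) (P k)) (X0 : CMAV)
    (hall : ∀ i, ∃ q, SameType (X0.factor i) (P q))
    (T : ((ℂ ≃+* ℂ) → ℚ) → ℂ) (cf : ∀ i, Fin (finrank ℚ (P i).E) → ℂ)
    (hcf : ∀ i ψ, ∑ l, cf i l * ψ (finBasis ℚ (P i).E l) = T (signs (P i) ψ) - 1)
    {κ : Type} [Fintype κ] [DecidableEq κ] [Fintype (Wt X0 ℂ)]
    (huniq : ∀ c c' : (κ → Wt X0 ℂ) → ℂ,
      (∀ v : κ → X0.H1, ∑ I, c I * ∏ k, Pool.Agent.W547.KB.ev (v k) (I k) =
        ∑ I, c' I * ∏ k, Pool.Agent.W547.KB.ev (v k) (I k)) → c = c')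
    (f : (toAV X0).H [⋀^κ]→ₗ[ℚ] ℚ) (c : (κ → Wt X0 ℂ) → ℂ)
    (hc : ∀ v : κ → X0.H1,
      ((f v : ℚ) : ℂ) = ∑ I, c I * ∏ k, Pool.Agent.W547.KB.ev (v k) (I k))
    (hfix : Fix (cc cf) (Op hpol hprim (fun i => finBasis ℚ (P i).E) (toAV X0)) f)
    (I : κ → Wt X0 ℂ) (hI : c I ≠ 0) :
    ∏ k, T (signs (X0.factor (I k).1) (I k).2) = 1 := by
  classical
  have h1 := huniq (fun I => c I * ∏ k, T (signs (X0.factor (I k).1) (I k).2)) c (by
    intro v
    rw [← hc]
    refine Eq.trans ?_ (hfix v)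
    unfold av
    have e1 : ∀ r : κ → Option (Σ i, Fin (finrank ℚ (P i).E)), (∏ k, cc cf (r k)) *
        ((f fun k => (Op hpol hprim (fun i => finBasis ℚ (P i).E) (toAV X0) (r k) (v k) :
          (toAV X0).H) : ℚ) : ℂ) = ∑ I : κ → Wt X0 ℂ, c I * ∏ k, (cc cf (r k) *
          Pool.Agent.W547.KB.ev ((Op hpol hprim (fun i => finBasis ℚ (P i).E) (toAV X0) (r k) (v k) :
          (toAV X0).H) : X0.H1) (I k)) := by
      intro r
      refine (congrArg (fun z => (∏ k, cc cf (r k)) * z) (hc _)).trans ?_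
      rw [Finset.mul_sum]
      refine Finset.sum_congr rfl fun I _ => ?_
      rw [Finset.prod_mul_distrib]
      ring
    rw [Finset.sum_congr rfl fun r _ => e1 r, Finset.sum_comm]
    refine Finset.sum_congr rfl fun I _ => ?_
    rw [← Finset.mul_sum, mul_assoc, ← Finset.prod_mul_distrib]
    congr 1
    have e2 := Finset.prod_univ_sum
      (fun _ : κ => (Finset.univ : Finset (Option (Σ i, Fin (finrank ℚ (P i).E)))))
      (fun k r => cc cf r * Pool.Agent.W547.KB.ev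
        ((Op hpol hprim (fun i => finBasis ℚ (P i).E) (toAV X0) r (v k) :
          (toAV X0).H) : X0.H1) (I k))
    rw [Fintype.piFinset_univ] at e2
    refine Eq.trans ?_ e2
    refine Finset.prod_congr rfl fun k _ => ?_
    exact (op_ev hpol hprim hne X0 hall T cf hcf (v k) (I k)).symm)
  have h2 := congrFun h1 I
  exact mul_left_cancel₀ hI (h2.trans (mul_one _).symm)

/-- **The weights which occur in a fixed form have the eigenvalue one.** -/
theorem coeff_fix {ι : Type} [Fintype ι] [DecidableEq ι] {P : ι → CMPair}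
    (hpol : ∀ i, ∃ E, IsPolarization (perC (P i)) E) (hprim : ∀ i, Primitive (P i))
    (hne : ∀ i k, i ≠ k → ¬ SameType (P i) (P k)) (X0 : CMAV)
    (hX0 : ∀ i, Primitive (X0.factor i))
    (hall : ∀ i, ∃ q, SameType (X0.factor i) (P q))
    (T : ((ℂ ≃+* ℂ) → ℚ) → ℂ) (cf : ∀ i, Fin (finrank ℚ (P i).E) → ℂ)
    (hcf : ∀ i ψ, ∑ l, cf i l * ψ (finBasis ℚ (P i).E l) = T (signs (P i) ψ) - 1)
    {κ : Type} [Fintype κ] [DecidableEq κ]
    (f : X0.H1 [⋀^κ]→ₗ[ℚ] ℚ) (c : (κ → Wt X0 ℂ) → ℂ)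
    (hc : ∀ v, ((f v : ℚ) : ℂ) = ∑ I, c I * ∏ k, Pool.Agent.W547.KB.ev (v k) (I k))
    (hfix : Fix (cc cf) (Op hpol hprim (fun i => finBasis ℚ (P i).E) (toAV X0)) f)
    (I : κ → Wt X0 ℂ) (hI : c I ≠ 0) :
    ∏ k, T (signs (X0.factor (I k).1) (I k).2) = 1 :=
  coeff_fix_of hpol hprim hne X0 hall T cf hcf (fun c c' h => coeff_unique X0 c c' h) f c hc hfix
    I hI

end

end Pool.Agent.K4H21.LC
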