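import Mathlib

/-!
# A rank argument
-/

set_option autoImplicit false

namespace Pool.Agent.K4H21.LC

open Module

theorem mem_of_rank {T ι : Type} [Finite T] [Fintype ι] (Λ : Submodule ℤ (T → ℤ)) (u : ι → T → ℤ)
    (t : ι → T) (h1 : ∀ i, u i (t i) = 1) (h0 : ∀ i k, i ≠ k → u i (t k) = 0) (e : ι → ℤ)
    (d : ι → ℚ) (hΛ : ∀ c : ι → ℤ,
      (∀ D : ℚ, ∑ i ∈ Finset.univ.filter (fun i => d i = D), c i * e i = 0) →
        ∑ i, c i • u i ∈ Λ)
    (hr : finrank ℤ Λ + (d '' {i | e i ≠ 0}).ncard ≤ Fintype.card ι) :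
    ∀ a ∈ Λ, ∃ c : ι → ℤ, a = ∑ i, c i • u i := by
  classical
  have hev : ∀ (c : ι → ℤ) k, (∑ i, c i • u i) (t k) = c k := by
    intro c k
    rw [Finset.sum_apply, Finset.sum_eq_single k]
    · rw [Pi.smul_apply, h1, smul_eq_mul, mul_one]
    · intro i _ hi
      rw [Pi.smul_apply, h0 i k hi, smul_zero]
    · exact fun h => absurd (Finset.mem_univ k) h
  let β : (ι → ℤ) →ₗ[ℤ] (T → ℤ) :=
    { toFun := fun c => ∑ i, c i • u i
      map_add' := fun c c' => by
        rw [← Finset.sum_add_distrib]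
        exact Finset.sum_congr rfl fun i _ => add_smul _ _ _
      map_smul' := fun r c => by
        rw [RingHom.id_apply, Finset.smul_sum]
        exact Finset.sum_congr rfl fun i _ => by rw [Pi.smul_apply, smul_assoc] }
  have hβ : ∀ c k, β c (t k) = c k := hev
  have hinj : Function.Injective β := by
    intro c c' h
    funext k
    rw [← hβ c k, h, hβ]
  let S : Set ℚ := d '' {i | e i ≠ 0}
  have hSf : S.Finite := (Set.toFinite _).image _
  have _ : Fintype S := hSf.fintype
  let γ : (ι → ℤ) →ₗ[ℤ] (S → ℤ) :=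
    { toFun := fun c D => ∑ i ∈ Finset.univ.filter (fun i => d i = D), c i * e i
      map_add' := fun c c' => by
        funext D
        rw [Pi.add_apply, ← Finset.sum_add_distrib]
        exact Finset.sum_congr rfl fun i _ => by rw [Pi.add_apply, add_mul]
      map_smul' := fun r c => by
        funext D
        rw [RingHom.id_apply, Pi.smul_apply, Finset.smul_sum]
        exact Finset.sum_congr rfl fun i _ => by
          rw [Pi.smul_apply, smul_eq_mul, smul_eq_mul, mul_assoc] }
  have hker : ∀ c ∈ LinearMap.ker γ, β c ∈ Λ := by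
    intro c hc
    refine hΛ c fun D => ?_
    by_cases hD : D ∈ S
    · exact congrFun (LinearMap.mem_ker.1 hc) ⟨D, hD⟩
    · refine Finset.sum_eq_zero fun i hi => ?_
      have h2 : e i = 0 := by
        by_contra h3
        exact hD ⟨i, h3, (Finset.mem_filter.1 hi).2⟩
      rw [h2, mul_zero]
  let β' : LinearMap.ker γ →ₗ[ℤ] Λ := (β.domRestrict _).codRestrict Λ fun c => hker c.1 c.2
  have hβ' : Function.Injective β' := by
    intro c c' h
    have h2 : β c.1 = β c'.1 := congrArg Subtype.val h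
    exact Subtype.ext (hinj h2)
  have e1 : finrank ℤ (LinearMap.range γ) + finrank ℤ (LinearMap.ker γ) = Fintype.card ι := by
    rw [← γ.quotKerEquivRange.finrank_eq, Submodule.finrank_quotient_add_finrank,
      finrank_fintype_fun_eq_card]
  have e2 : finrank ℤ (LinearMap.range γ) ≤ S.ncard := by
    have h2 := Submodule.finrank_le (LinearMap.range γ)
    rwa [finrank_fintype_fun_eq_card, ← Nat.card_eq_fintype_card, Nat.card_coe_set_eq] at h2
  have e3 : finrank ℤ (LinearMap.range β') = finrank ℤ (LinearMap.ker γ) :=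
    LinearMap.finrank_range_of_inj hβ'
  have e4 := (LinearMap.range β').finrank_quotient_add_finrank
  have e5 : finrank ℤ (Λ ⧸ LinearMap.range β') = 0 := by
    have h2 : finrank ℤ Λ + S.ncard ≤ Fintype.card ι := hr
    omega
  intro a ha
  obtain ⟨k, hk, hka⟩ : ∃ k : ℤ, k ≠ 0 ∧ k • (Submodule.Quotient.mk ⟨a, ha⟩ :
      Λ ⧸ LinearMap.range β') = 0 := by
    have h2 := (Module.finrank_eq_zero_iff_isTorsion).1 e5
    obtain ⟨r, hr⟩ := @h2 (Submodule.Quotient.mk ⟨a, ha⟩)
    exact ⟨r.1, nonZeroDivisors.ne_zero r.2, hr⟩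
  rw [← Submodule.Quotient.mk_smul, Submodule.Quotient.mk_eq_zero] at hka
  obtain ⟨c, hc⟩ := hka
  have h2 : β c.1 = k • a := congrArg Subtype.val hc
  refine ⟨fun i => a (t i), ?_⟩
  have h3 : k • (fun i => a (t i)) = c.1 := by
    funext i
    rw [← hβ c.1 i, h2]
    rfl
  have h4 : k • a = k • β (fun i => a (t i)) := by
    rw [← h2, ← h3, map_smul]
  exact smul_right_injective _ hk h4

end Pool.Agent.K4H21.LC
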