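import Pool.Agent.K4H29.HC.Field

/-!
# Equal half systems come from isomorphic CM types
-/

set_option linter.unusedSectionVars false
set_option linter.unusedVariables false
set_option autoImplicit false

namespace Pool.Agent.K4H21.LC

open Module NumberField Equiv Pool.Agent.H204R3.CM
open Pool.Agent.W547.KB (CMPair)
open Pool.Agent.W547.LD (hs tr_hs)
open Pool.Agent.W547.LN (SameType exists_smul)
open Pool.Agent.K4H29.HC

noncomputable section

/-- The stabilizer of an injective half system is the fixing subgroup of the image. -/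
theorem stb_eq_fixing {L : Type} [Field L] [NumberField L] [IsCMField L] [IsGalois ℚ L]
    (A : CMPair) (j : L →+* ℂ) (hA : Function.Injective (hs A j)) (φ : A.E →+* L) :
    Pool.Agent.W547.LD.Comb.stb (hs A j φ) =
      (RingHom.equivRatAlgHom A.E L φ).fieldRange.fixingSubgroup := by
  ext τ
  rw [IntermediateField.mem_fixingSubgroup_iff, Pool.Agent.W547.LD.Comb.mem_stb, tr_hs]
  constructor
  · rintro h _ ⟨a, rfl⟩
    exact RingHom.congr_fun (hA h) a
  · intro h
    congr 1
    ext a
    exact h _ ⟨a, rfl⟩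

/-- Equal half systems come from isomorphic CM types. -/
theorem same_of_hs {L : Type} [Field L] [NumberField L] [IsCMField L] [IsGalois ℚ L]
    (A B : CMPair) (j : L →+* ℂ) (hjA : ∀ ψ : A.E →+* ℂ, ∃ φ : A.E →+* L, j.comp φ = ψ)
    (hA : Function.Injective (hs A j)) (hB : Function.Injective (hs B j))
    (φ : A.E →+* L) (ψ : B.E →+* L) (h : hs A j φ = hs B j ψ) : SameType A B := by
  have h0 : (RingHom.equivRatAlgHom A.E L φ).fieldRange =
      (RingHom.equivRatAlgHom B.E L ψ).fieldRange := by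
    rw [← IsGalois.fixedField_fixingSubgroup (RingHom.equivRatAlgHom A.E L φ).fieldRange,
      ← stb_eq_fixing A j hA φ, h, stb_eq_fixing B j hB ψ, IsGalois.fixedField_fixingSubgroup]
  let e1 : A.E ≃ₐ[ℚ] (RingHom.equivRatAlgHom A.E L φ).fieldRange :=
    AlgEquiv.ofInjectiveField _
  let e2 : B.E ≃ₐ[ℚ] (RingHom.equivRatAlgHom B.E L ψ).fieldRange :=
    AlgEquiv.ofInjectiveField _
  let e : A.E ≃+* B.E :=
    ((e1.trans (IntermediateField.equivOfEq h0)).trans e2.symm).toRingEquiv
  have he : ∀ a, ψ (e a) = φ a := by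
    intro a
    have h2 : e2 (e a) = IntermediateField.equivOfEq h0 (e1 a) := by
      change e2 (e2.symm (IntermediateField.equivOfEq h0 (e1 a))) = _
      rw [AlgEquiv.apply_symm_apply]
    have h3 := congrArg (Subtype.val) h2
    exact h3
  have hes : ∀ b, φ (e.symm b) = ψ b := by
    intro b
    rw [← he, RingEquiv.apply_symm_apply]
  refine ⟨e, fun ψ' => ?_⟩
  obtain ⟨χ, hχ⟩ := hjA (ψ'.comp (e : A.E →+* B.E))
  obtain ⟨g, hg⟩ := exists_smul A φ χ
  have h4 : j.comp (g • ψ) = ψ' := by
    ext b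
    have h5 : (g • ψ) b = χ (e.symm b) := by
      rw [← hg]
      change g (ψ b) = g (φ (e.symm b))
      rw [hes]
    change j ((g • ψ) b) = ψ' b
    rw [h5]
    have h6 := RingHom.congr_fun hχ (e.symm b)
    change j (χ (e.symm b)) = ψ' (e (e.symm b)) at h6
    rw [h6, RingEquiv.apply_symm_apply]
  have h7 : g ∈ hs A j φ ↔ g ∈ hs B j ψ := by rw [h]
  change j.comp (g • φ) ∈ A.Φ ↔ j.comp (g • ψ) ∈ B.Φ at h7
  rw [hg, h4, hχ] at h7
  exact h7.symm

end

end Pool.Agent.K4H21.LC
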