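import Pool.Agent.K4H21.LC.Fin
import Pool.Agent.K4H29.HC.Obt2
import Pool.Agent.K4H21.LC.Same
import Pool.Agent.K4H21.LC.Lin

/-!
# Abelian varieties whose Hodge group is as large as the imaginary quadratic fields permit
-/

set_option linter.unusedSectionVars false
set_option linter.unusedVariables false
set_option autoImplicit false

namespace Pool.Agent.K4H21.LC

open Module NumberField Pool.Agent.R915 Pool.Agent.K4H29.HC Pool.Agent.K4H21.DB
open Pool.Agent.Y90 (AV IsHom IsPolarization)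
open Pool.Agent.H204R3.CM (IsHodge IsCMType)
open Pool.Agent.W547.KB (CMPair CMAV Wt St cc IsHalf isHalf_St cc_comm emb_cc)
open Pool.Agent.W547.LD (tr mem_tr hs isHalf_hs IsImag)
open Pool.Agent.W547.LN (SameType)
open Pool.Agent.K4H34.DB (dec)
open Pool.Agent.K4H94.DB (defect_eq_gen)

noncomputable section

/-- The square root of `-D`. -/
def zz (D : ℚ) : ℂ := ((Real.sqrt (D : ℝ) : ℝ) : ℂ) * Complex.I

theorem zz_sq {D : ℚ} (hD : 0 < D) : zz D * zz D = -(D : ℂ) := by
  have ht : Real.sqrt (D : ℝ) * Real.sqrt (D : ℝ) = D := Real.mul_self_sqrt (by exact_mod_cast hD.le)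
  have h1 : ((Real.sqrt (D : ℝ) * Real.sqrt (D : ℝ) : ℝ) : ℂ) = ((D : ℝ) : ℂ) := by rw [ht]
  rw [Complex.ofReal_mul, Complex.ofReal_ratCast] at h1
  unfold zz
  linear_combination (Real.sqrt (D : ℝ) : ℂ) * (Real.sqrt (D : ℝ) : ℂ) * Complex.I_mul_I - h1

theorem zz_conj (D : ℚ) : starRingEnd ℂ (zz D) = -zz D := by
  unfold zz
  rw [map_mul, Complex.conj_ofReal, Complex.conj_I, mul_neg]

theorem zz_ne {D : ℚ} (hD : 0 < D) : zz D ≠ -zz D := by
  intro h
  have h1 : zz D = 0 := self_eq_neg.1 h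
  have h2 := zz_sq hD
  rw [h1, mul_zero] at h2
  have h3 : (D : ℂ) = 0 := neg_eq_zero.1 h2.symm
  exact hD.ne' (Rat.cast_eq_zero.1 h3)

theorem QQ.zsmul {L : Type} [Field L] [NumberField L] [IsCMField L] [IsGalois ℚ L] {𝒜 : Sys}
    {j : L →+* ℂ} {a : Set (L ≃ₐ[ℚ] L) → ℤ} (ha : QQ 𝒜 j a) (n : ℤ) : QQ 𝒜 j (n • a) := by
  have h1 : ∀ k : ℕ, QQ 𝒜 j (k • a) := by
    intro k
    induction k with
    | zero =>
      rw [zero_smul]
      exact QQ.zero 𝒜 j
    | succ k ih =>
      rw [succ_nsmul]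
      exact ih.add ha
  obtain ⟨k, rfl | rfl⟩ := n.eq_nat_or_neg
  · rw [natCast_zsmul]
    exact h1 k
  · rw [neg_smul, natCast_zsmul]
    exact (h1 k).neg

/-- The sum of the signs vanishes if the two multiplicities agree. -/
theorem FF_zero {L : Type} [Field L] [NumberField L] [IsCMField L] [IsGalois ℚ L] (A : CMPair)
    (j : L →+* ℂ) (hjA : ∀ ψ : A.E →+* ℂ, ∃ φ : A.E →+* L, j.comp φ = ψ)
    (hinj : Function.Injective (hs A j)) (δ : A.E) {z : ℂ} (hz : starRingEnd ℂ z = -z)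
    (h : ∀ w, {φ ∈ A.Φ | φ δ = w}.encard = {φ ∈ A.Φ | φ δ = -w}.encard) :
    FF (OO A j δ z) 1 = 0 := by
  classical
  let p : Finset (A.E →+* L) := Finset.univ.filter fun φ => j (φ δ) = z ∧ j.comp φ ∈ A.Φ
  let q : Finset (A.E →+* L) := Finset.univ.filter fun φ => j (φ δ) = z ∧ ¬ j.comp φ ∈ A.Φ
  have hF : FF (OO A j δ z) 1 = (p.card : ℤ) - q.card := by
    unfold FF OO
    rw [Finset.sum_image (fun x _ y _ h => hinj h)]
    have h1 : ∀ φ : A.E →+* L, sg (hs A j φ) 1 = if j.comp φ ∈ A.Φ then 1 else -1 := by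
      intro φ
      unfold sg
      have h2 : (1 : L ≃ₐ[ℚ] L) ∈ hs A j φ ↔ j.comp φ ∈ A.Φ := by
        change j.comp ((1 : L ≃ₐ[ℚ] L) • φ) ∈ A.Φ ↔ _
        rw [one_smul]
      simp only [h2]
    rw [Finset.sum_congr rfl fun φ _ => h1 φ, Finset.sum_ite, Finset.sum_const, Finset.sum_const,
      Finset.filter_filter, Finset.filter_filter]
    simp only [nsmul_eq_mul, mul_one, mul_neg]
    ring
  have hjinj : Function.Injective fun φ : A.E →+* L => j.comp φ := fun φ φ' h =>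
    RingHom.ext fun x => j.injective (congrArg (fun f : A.E →+* ℂ => f x) h)
  have hp : {φ ∈ A.Φ | φ δ = z}.encard = p.card := by
    have h3 : {φ ∈ A.Φ | φ δ = z} = ((p.image fun φ => j.comp φ : Finset (A.E →+* ℂ)) :
        Set (A.E →+* ℂ)) := by
      ext ψ
      rw [Finset.mem_coe, Finset.mem_image]
      constructor
      · rintro ⟨h4, h5⟩
        obtain ⟨φ, rfl⟩ := hjA ψ
        exact ⟨φ, Finset.mem_filter.2 ⟨Finset.mem_univ _, h5, h4⟩, rfl⟩
      · rintro ⟨φ, h4, rfl⟩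
        have h5 := (Finset.mem_filter.1 h4).2
        exact ⟨h5.2, h5.1⟩
    rw [h3, Set.encard_coe_eq_coe_finsetCard, Finset.card_image_of_injective _ hjinj]
  have hq : {φ ∈ A.Φ | φ δ = -z}.encard = q.card := by
    have h3 : {φ ∈ A.Φ | φ δ = -z} =
        ((q.image fun φ => ComplexEmbedding.conjugate (j.comp φ) : Finset (A.E →+* ℂ)) :
        Set (A.E →+* ℂ)) := by
      ext ψ
      rw [Finset.mem_coe, Finset.mem_image]
      constructor
      · rintro ⟨h4, h5⟩
        obtain ⟨φ, hφ⟩ := hjA (ComplexEmbedding.conjugate ψ)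
        refine ⟨φ, Finset.mem_filter.2 ⟨Finset.mem_univ _, ?_, ?_⟩, ?_⟩
        · have h6 : j (φ δ) = ComplexEmbedding.conjugate ψ δ := congrArg (fun f => f δ) hφ
          rw [h6]
          change starRingEnd ℂ (ψ δ) = z
          rw [h5, map_neg, hz, neg_neg]
        · rw [hφ]
          exact (A.isCMType ψ).1 h4
        · rw [hφ]
          exact star_star ψ
      · rintro ⟨φ, h4, rfl⟩
        have h5 := (Finset.mem_filter.1 h4).2
        refine ⟨?_, ?_⟩
        · by_contra h6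
          exact h5.2 ((A.isCMType (j.comp φ)).2 h6)
        · change starRingEnd ℂ (j (φ δ)) = -z
          rw [h5.1, hz]
    rw [h3, Set.encard_coe_eq_coe_finsetCard,
      Finset.card_image_of_injective _ (fun φ φ' h => hjinj (star_injective h))]
  have h3 := h z
  rw [hp, hq] at h3
  have h4 : p.card = q.card := by exact_mod_cast h3
  rw [hF, h4, sub_self]

section num

variable {L : Type} [Field L] [NumberField L] [IsCMField L] [IsGalois ℚ L] {X : AV} {X0 : CMAV}
  (j : L →+* ℂ) (h1 : ∀ i, IsCMFactor (X0.factor i) X)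
  (h2 : ∀ A : CMPair, IsCMFactor A X → ∃ i, SameType A (X0.factor i))
  (hj : ∀ i, ∀ ψ : (X0.factor i).E →+* ℂ, ∃ φ : (X0.factor i).E →+* L, j.comp φ = ψ)
  {ι : Type} [Fintype ι] (P : ι → CMPair) (hP : ∀ i, IsCMFactor (P i) X)
  (hne : ∀ i k, i ≠ k → ¬ SameType (P i) (P k)) (d : ι → ℚ) (hd : ∀ i, 0 < d i)
  (δ : ∀ i, (P i).E) (hδ : ∀ i, δ i * δ i = -(d i : (P i).E))
  (hm : ∀ i w, {φ ∈ (P i).Φ | φ (δ i) = w}.encard ≤ 3)

include h2 hj hP in
theorem emb_P (i : ι) (ψ : (P i).E →+* ℂ) : ∃ φ : (P i).E →+* L, j.comp φ = ψ := by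
  obtain ⟨k, hk⟩ := h2 (P i) (hP i)
  exact emb_of_same' j (hj k) hk ψ

include h2 hj hP hd hδ in
theorem exists_root (i : ι) : ∃ φ : (P i).E →+* L, j (φ (δ i)) = zz (d i) := by
  obtain ⟨ψ⟩ : Nonempty ((P i).E →+* ℂ) := inferInstance
  have h3 : ψ (δ i) * ψ (δ i) = zz (d i) * zz (d i) := by
    rw [← map_mul, hδ, map_neg, map_ratCast, zz_sq (hd i)]
  rcases mul_self_eq_mul_self_iff.1 h3 with h4 | h4
  · obtain ⟨φ, hφ⟩ := emb_P j h2 hj P hP i ψ
    refine ⟨φ, ?_⟩
    rw [← h4, ← hφ]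
    rfl
  · obtain ⟨φ, hφ⟩ := emb_P j h2 hj P hP i (ComplexEmbedding.conjugate ψ)
    refine ⟨φ, ?_⟩
    have h5 : j (φ (δ i)) = ComplexEmbedding.conjugate ψ (δ i) := congrArg (fun f => f (δ i)) hφ
    rw [h5]
    change starRingEnd ℂ (ψ (δ i)) = _
    rw [h4, map_neg, zz_conj, neg_neg]

include h1 h2 hj hP hne hd hδ hm in
/-- **The numerical criterion.** -/
theorem ok_of_num (𝒜 : Sys)
    (hdef : defect X + (d '' {i | ∃ w, {φ ∈ (P i).Φ | φ (δ i) = w}.encard ≠
      {φ ∈ (P i).Φ | φ (δ i) = -w}.encard}).ncard ≤ Fintype.card ι) :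
    ∀ a ∈ Lam (PX j X0), Ok (csys 𝒜) j a := by
  classical
  choose φ hφ using fun i => exists_root j h2 hj P hP d hd δ hδ i
  have hinj : ∀ i, Function.Injective (hs (P i) j) := fun i => inj_of_primitive (P i) j (hP i).1
  have hjP := fun i => emb_P j h2 hj P hP i
  let u : ι → Set (L ≃ₐ[ℚ] L) → ℤ := fun i => uF (OO (P i) j (δ i) (zz (d i)))
  let t : ι → Set (L ≃ₐ[ℚ] L) := fun i => hs (P i) j (φ i)
  have hmem : ∀ i k (S : Set (L ≃ₐ[ℚ] L)), S ∈ OO (P i) j (δ i) (zz (d i)) →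
      (∃ ψ : (P k).E →+* L, hs (P k) j ψ = S) → i = k := by
    rintro i k S hS ⟨ψ, hψ⟩
    by_contra hik
    obtain ⟨χ, -, hχ⟩ := (mem_OO (P i) j (δ i) (zz (d i))).1 hS
    exact hne i k hik (same_of_hs (P i) (P k) j (hjP i) (hinj i) (hinj k) χ ψ (hχ.trans hψ.symm))
  have hx : ∀ i, φ i (δ i) * φ i (δ i) = -(d i : L) := fun i => by
    rw [← map_mul, hδ, map_neg, map_ratCast]
  have hN : ∀ i, IsImag (stb' (φ i (δ i))) := fun i => isImag_stb' (hd i) (hx i)
  have hst := fun i => stable_OO (P i) j (δ i) (zz (d i)) (hφ i)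
  have hO := fun i => isHalf_OO (P i) j (δ i) (zz (d i))
  have hu1 : ∀ i, u i (t i) = 1 := by
    intro i
    change uF (OO (P i) j (δ i) (zz (d i))) (hs (P i) j (φ i)) = 1
    unfold uF
    rw [if_pos ((mem_OO (P i) j (δ i) (zz (d i))).2 ⟨φ i, hφ i, rfl⟩), if_neg, sub_zero]
    intro h
    obtain ⟨ψ, h3, h4⟩ := (mem_OO (P i) j (δ i) (zz (d i))).1 h
    rw [← hs_cj] at h4
    have h5 := hinj i h4
    rw [h5, cj_apply] at h3
    have h6 : j (IsCMField.complexConj L (φ i (δ i))) = starRingEnd ℂ (j (φ i (δ i))) :=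
      IsCMField.complexEmbedding_complexConj L j (φ i (δ i))
    rw [h6, hφ, zz_conj] at h3
    exact zz_ne (hd i) h3.symm
  have hu0 : ∀ i k, i ≠ k → u i (t k) = 0 := by
    intro i k hik
    change uF (OO (P i) j (δ i) (zz (d i))) (hs (P k) j (φ k)) = 0
    unfold uF
    rw [if_neg (fun h => hik (hmem i k _ h ⟨φ k, rfl⟩)),
      if_neg (fun h => hik (hmem i k _ h ⟨cj (φ k), hs_cj (P k) j (φ k)⟩)), sub_zero]
  have hsub : ∀ i, ∀ S ∈ OO (P i) j (δ i) (zz (d i)), S ∈ PX j X0 := by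
    intro i S hS
    obtain ⟨ψ, -, rfl⟩ := (mem_OO (P i) j (δ i) (zz (d i))).1 hS
    have h3 : signs (P i) (j.comp ψ) ∈ SV X := ⟨P i, hP i, _, rfl⟩
    rw [SV_eq_image j h1 h2 hj, signs_eq] at h3
    obtain ⟨T, hT, hT'⟩ := h3
    rw [← Th_inj j hT']
    exact hT
  have hΛ : ∀ c : ι → ℤ, (∀ D : ℚ, ∑ i ∈ Finset.univ.filter (fun i => d i = D),
      c i * FF (OO (P i) j (δ i) (zz (d i))) 1 = 0) → ∑ i, c i • u i ∈ Lam (PX j X0) := by
    intro c hc
    refine ⟨fun S hS => ?_, fun S => ?_, fun σ => ?_⟩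
    · rw [Finset.sum_apply]
      refine Finset.sum_eq_zero fun i _ => ?_
      rw [Pi.smul_apply]
      have h3 : u i S = 0 := by
        change uF (OO (P i) j (δ i) (zz (d i))) S = 0
        unfold uF
        rw [if_neg (fun h => hS (hsub i S h)), if_neg, sub_zero]
        intro h
        apply hS
        have h4 := compl_PX j X0 _ (hsub i _ h)
        rwa [compl_compl] at h4
      rw [h3, smul_zero]
    · rw [Finset.sum_apply, Finset.sum_apply, ← Finset.sum_neg_distrib]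
      refine Finset.sum_congr rfl fun i _ => ?_
      rw [Pi.smul_apply, Pi.smul_apply, ← smul_neg]
      exact congrArg (fun x => c i • x) (uF_compl S)
    · have h3 : ∑ S, (∑ i, c i • u i) S * sg S σ = ∑ i, c i * (2 * FF (OO (P i) j (δ i) (zz (d i))) σ) := by
        have h4 : ∀ S : Set (L ≃ₐ[ℚ] L), (∑ i, c i • u i) S * sg S σ =
            ∑ i, c i * (u i S * sg S σ) := by
          intro S
          rw [Finset.sum_apply, Finset.sum_mul]
          refine Finset.sum_congr rfl fun i _ => ?_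
          rw [Pi.smul_apply, smul_eq_mul, mul_assoc]
        rw [Finset.sum_congr rfl fun S _ => h4 S, Finset.sum_comm]
        refine Finset.sum_congr rfl fun i _ => ?_
        rw [← Finset.mul_sum]
        exact congrArg (fun x => c i * x) (sum_uF σ)
      rw [h3]
      have h5 : ∀ i, FF (OO (P i) j (δ i) (zz (d i))) σ =
          FF (OO (P i) j (δ i) (zz (d i))) 1 * sg (sN (stb' (φ i (δ i)))) σ := fun i =>
        FF_eq (hO i) (hN i) (hst i) σ
      let g : ℚ → ℤ := fun D => if h : ∃ i, d i = D then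
        sg (sN (stb' (φ h.choose (δ h.choose)))) σ else 0
      have hg : ∀ i, g (d i) = sg (sN (stb' (φ i (δ i)))) σ := by
        intro i
        have h : ∃ k, d k = d i := ⟨i, rfl⟩
        have h6 : g (d i) = sg (sN (stb' (φ h.choose (δ h.choose)))) σ := dif_pos h
        rw [h6]
        have h7 : φ h.choose (δ h.choose) = φ i (δ i) := by
          apply j.injective
          rw [hφ, hφ, h.choose_spec]
        rw [h7]
      have h6 : ∑ i, c i * (2 * FF (OO (P i) j (δ i) (zz (d i))) σ) =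
          2 * ∑ D ∈ Finset.univ.image d, ∑ i ∈ Finset.univ.filter (fun i => d i = D),
            (c i * FF (OO (P i) j (δ i) (zz (d i))) 1) * g D := by
        have h8 : ∀ D ∈ Finset.univ.image d, ∑ i ∈ Finset.univ.filter (fun i => d i = D),
            (c i * FF (OO (P i) j (δ i) (zz (d i))) 1) * g D =
            ∑ i ∈ Finset.univ.filter (fun i => d i = D),
              c i * FF (OO (P i) j (δ i) (zz (d i))) σ := by
          intro D _
          refine Finset.sum_congr rfl fun i hi => ?_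
          rw [h5 i, ← hg i, (Finset.mem_filter.1 hi).2, mul_assoc]
        rw [Finset.sum_congr rfl h8, Finset.sum_fiberwise_of_maps_to
          (fun i _ => Finset.mem_image_of_mem d (Finset.mem_univ i)), Finset.mul_sum]
        refine Finset.sum_congr rfl fun i _ => ?_
        ring
      rw [h6]
      have h7 : ∀ D ∈ Finset.univ.image d, ∑ i ∈ Finset.univ.filter (fun i => d i = D),
          (c i * FF (OO (P i) j (δ i) (zz (d i))) 1) * g D = 0 := by
        intro D _
        rw [← Finset.sum_mul, hc D, zero_mul]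
      rw [Finset.sum_eq_zero h7, mul_zero]
  rw [defect_eq_gen j h1 h2 hj] at hdef
  have hdef' : finrank ℤ (Lam (PX j X0)) +
      (d '' {i | FF (OO (P i) j (δ i) (zz (d i))) 1 ≠ 0}).ncard ≤ Fintype.card ι := by
    refine le_trans (Nat.add_le_add_left (Set.ncard_le_ncard (Set.image_mono ?_)
      (Set.toFinite _)) _) hdef
    intro i hi
    by_contra hcon
    exact hi (FF_zero (P i) j (hjP i) (hinj i) (δ i) (zz_conj (d i)) fun w => by
      by_contra h
      exact hcon ⟨w, h⟩)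
  intro a ha
  obtain ⟨c, rfl⟩ := mem_of_rank (Lam (PX j X0)) u t hu1 hu0
    (fun i => FF (OO (P i) j (δ i) (zz (d i))) 1) d hΛ hdef' a ha
  have hq : ∀ s : Finset ι, QQ 𝒜 j (∑ i ∈ s, c i • u i) := by
    intro s
    induction s using Finset.induction_on with
    | empty =>
      rw [Finset.sum_empty]
      exact QQ.zero 𝒜 j
    | insert i s his ih =>
      rw [Finset.sum_insert his]
      exact ((QQ.orbit (hinj i) (hd i) (hδ i) (zz (d i)) (Or.inr (hm i))).zsmul (c i)).add ih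
  exact (hq Finset.univ).ok ha.2.2

end num

/-- **The Hodge conjecture for abelian varieties whose Hodge group is as large as the imaginary
quadratic fields permit.** -/
theorem num_main (X : AV) (hX : ∀ Y, IsFactor Y X → HasCMult Y ∨ Nice X Y)
    {ι : Type} [Fintype ι] (P : ι → CMPair) (hP : ∀ i, IsCMFactor (P i) X)
    (hne : ∀ i k, i ≠ k → ¬ SameType (P i) (P k)) (d : ι → ℚ) (hd : ∀ i, 0 < d i)
    (δ : ∀ i, (P i).E) (hδ : ∀ i, δ i * δ i = -(d i : (P i).E))
    (hm : ∀ i w, {φ ∈ (P i).Φ | φ (δ i) = w}.encard ≤ 3)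
    (hdef : defect X + (d '' {i | ∃ w, {φ ∈ (P i).Φ | φ (δ i) = w}.encard ≠
      {φ ∈ (P i).Φ | φ (δ i) = -w}.encard}).ncard ≤ Fintype.card ι) (𝒜 : Sys) (k : ℕ) :
    𝒜.AllHodge (pow X k) := by
  obtain ⟨X0, h1, h2, h3, -⟩ := dec X
  obtain ⟨L, _, _, _, _, j, hj⟩ := exists_cmL X0
  exact mix_of_ok j hj 𝒜 hX h3 (ok_of_num j h1 h2 hj P hP hne d hd δ hδ hm 𝒜 hdef) k

end

end Pool.Agent.K4H21.LC
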