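import Mathlib
import Pool.Agent.K4H29.HC.Obt

/-!
# The multiplicative obstruction

`Op` are the rational operators, `av` the average of a form over all the choices of the operators with
complex coefficients, `obstruct_mul` the obstruction.
-/

set_option linter.unusedSectionVars false
set_option linter.unusedVariables false

namespace Pool.Agent.K4H21.LC

open Module NumberField Pool.Agent.Y90 Pool.Agent.R915 Equiv Pool.Agent.K4H29.HC
open Pool.Agent.TH504.CB (isHodge_comp)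
open Pool.Agent.H204R3.CM (IsHodge IsCMType)
open Pool.Agent.W547.KB (CMPair CMAV Wt mono monoAlt mono_apply trForm trForm_apply St Balanced
  isHodge_trForm)
open Pool.Agent.W547.LN (SameType)
open Pool.Agent.W547.LD (hs)

noncomputable section

section avg

variable {V : Type*} [AddCommGroup V] [Module ℚ V] {J : Type} [Fintype J]
  {κ : Type} [Fintype κ] [DecidableEq κ]

/-- The average of the form `f`: the pull-back by the operator `∑ x, c x • A x` with complex
coefficients. -/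
def av (c : J → ℂ) (A : J → V →ₗ[ℚ] V) (f : V [⋀^κ]→ₗ[ℚ] ℚ) (v : κ → V) : ℂ :=
  ∑ r : κ → J, (∏ k, c (r k)) * ((f fun k => A (r k) (v k) : ℚ) : ℂ)

/-- The form `f` is fixed. -/
def Fix (c : J → ℂ) (A : J → V →ₗ[ℚ] V) (f : V [⋀^κ]→ₗ[ℚ] ℚ) : Prop :=
  ∀ v, av c A f v = ((f v : ℚ) : ℂ)

end avg

section mono

variable {X : CMAV} {L : Type} [Field L] [NumberField L] {κ : Type} [Fintype κ] [DecidableEq κ]
  {J : Type} [Fintype J]

/-- The average of a monomial. -/
theorem mono_av (I : κ → Wt X L) (A : J → X.H1 →ₗ[ℚ] X.H1) (μ : κ → J → L)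
    (hA : ∀ w k x, (I k).2 (A x w (I k).1) = μ k x * (I k).2 (w (I k).1)) (c : J → ℂ)
    (ψ : L →+* ℂ) (v : κ → X.H1) :
    ∑ r : κ → J, (∏ k, c (r k)) * ψ (mono I fun k => A (r k) (v k)) =
      (∏ k, ∑ x, c x * ψ (μ k x)) * ψ (mono I v) := by
  classical
  have h1 : ∀ r : κ → J, (∏ k, c (r k)) * ψ (mono I fun k => A (r k) (v k)) =
      ∑ τ : Perm κ, (((Perm.sign τ : ℤ) : ℂ) * ∏ k, ψ (Pool.Agent.W547.KB.ev (v (τ k)) (I k))) *
        ∏ k, (c (r (τ k)) * ψ (μ k (r (τ k)))) := by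
    intro r
    rw [mono_apply, map_sum, Finset.mul_sum]
    refine Finset.sum_congr rfl fun τ _ => ?_
    have e1 : ∀ k, Pool.Agent.W547.KB.ev (A (r (τ k)) (v (τ k))) (I k) =
        μ k (r (τ k)) * Pool.Agent.W547.KB.ev (v (τ k)) (I k) := fun k => hA (v (τ k)) k (r (τ k))
    rw [Finset.prod_congr rfl fun k _ => e1 k, map_mul, map_intCast, map_prod,
      Finset.prod_mul_distrib, ← Equiv.prod_comp τ (fun k => c (r k))]
    simp only [map_mul, Finset.prod_mul_distrib]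
    ring
  rw [Finset.sum_congr rfl fun r _ => h1 r, Finset.sum_comm]
  have h2 : ∀ τ : Perm κ, ∑ r : κ → J, (((Perm.sign τ : ℤ) : ℂ) *
      ∏ k, ψ (Pool.Agent.W547.KB.ev (v (τ k)) (I k))) * ∏ k, (c (r (τ k)) * ψ (μ k (r (τ k)))) =
      (∏ k, ∑ x, c x * ψ (μ k x)) * (((Perm.sign τ : ℤ) : ℂ) *
        ∏ k, ψ (Pool.Agent.W547.KB.ev (v (τ k)) (I k))) := by
    intro τ
    rw [← Finset.mul_sum, mul_comm]
    congr 1
    rw [Finset.prod_univ_sum, Fintype.piFinset_univ]
    exact Fintype.sum_equiv (Equiv.arrowCongr τ.symm (Equiv.refl J)) _ _ fun r => rfl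
  rw [Finset.sum_congr rfl fun τ _ => h2 τ, ← Finset.mul_sum, mono_apply, map_sum]
  congr 1
  refine Finset.sum_congr rfl fun τ _ => ?_
  rw [map_mul, map_intCast, map_prod]

theorem trForm_av (I : κ → Wt X L) (A : J → X.H1 →ₗ[ℚ] X.H1) (μ : κ → J → L)
    (hA : ∀ w k x, (I k).2 (A x w (I k).1) = μ k x * (I k).2 (w (I k).1)) (c : J → ℂ)
    (α : L) (v : κ → X.H1) :
    av c A (trForm α I) v = ∑ ψ : L →ₐ[ℚ] ℂ,
      (∏ k, ∑ x, c x * ψ (μ k x)) * (ψ α * ψ (mono I v)) := by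
  have h1 : ∀ w : κ → X.H1, ((trForm α I w : ℚ) : ℂ) = ∑ ψ : L →ₐ[ℚ] ℂ, ψ α * ψ (mono I w) := by
    intro w
    have h2 := trace_eq_sum_embeddings ℂ (K := ℚ) (L := L) (x := α * mono I w)
    rw [eq_ratCast] at h2
    rw [trForm_apply, h2]
    exact Finset.sum_congr rfl fun ψ _ => map_mul ψ _ _
  unfold av
  have h3 : ∀ r : κ → J, (∏ k, c (r k)) * ((trForm α I (fun k => A (r k) (v k)) : ℚ) : ℂ) =
      ∑ ψ : L →ₐ[ℚ] ℂ, ψ α * ((∏ k, c (r k)) * ψ (mono I fun k => A (r k) (v k))) := by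
    intro r
    rw [h1, Finset.mul_sum]
    exact Finset.sum_congr rfl fun ψ _ => by ring
  rw [Finset.sum_congr rfl fun r _ => h3 r, Finset.sum_comm]
  refine Finset.sum_congr rfl fun ψ _ => ?_
  rw [← Finset.mul_sum]
  have h4 := mono_av I A μ hA c (ψ : L →+* ℂ) v
  have h5 : ∑ r : κ → J, (∏ k, c (r k)) * ψ (mono I fun k => A (r k) (v k)) =
      (∏ k, ∑ x, c x * ψ (μ k x)) * ψ (mono I v) := h4
  rw [h5]
  ring

theorem fix_trForm (I : κ → Wt X L) (hI : Function.Injective fun k => (I k).1)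
    (A : J → X.H1 →ₗ[ℚ] X.H1) (μ : κ → J → L)
    (hA : ∀ w k x, (I k).2 (A x w (I k).1) = μ k x * (I k).2 (w (I k).1)) (c : J → ℂ)
    (hfix : ∀ α : L, Fix c A (trForm α I)) (ψ : L →ₐ[ℚ] ℂ) :
    ∏ k, ∑ x, c x * ψ (μ k x) = 1 := by
  obtain ⟨v, hv⟩ := mono_ne I hI
  have h1 : ∀ α : L, ∑ ψ : L →ₐ[ℚ] ℂ, ((∏ k, ∑ x, c x * ψ (μ k x)) - 1) * ψ α = 0 := by
    intro α
    have h2 := hfix α v
    rw [trForm_av I A μ hA c α v, hv] at h2
    have h3 := trace_eq_sum_embeddings ℂ (K := ℚ) (L := L) (x := α * mono I v)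
    rw [eq_ratCast] at h3
    rw [trForm_apply, h3, hv, mul_one] at h2
    have h4 : ∀ ψ : L →ₐ[ℚ] ℂ, ((∏ k, ∑ x, c x * ψ (μ k x)) - 1) * ψ α =
        (∏ k, ∑ x, c x * ψ (μ k x)) * (ψ α * ψ 1) - ψ α := fun ψ => by
      rw [map_one]
      ring
    rw [Finset.sum_congr rfl fun ψ _ => h4 ψ, Finset.sum_sub_distrib, h2, sub_self]
  have h5 := Fintype.linearIndependent_iff.1 (linearIndependent_toLinearMap ℚ L ℂ)
    (fun ψ => (∏ k, ∑ x, c x * ψ (μ k x)) - 1) (by
      refine LinearMap.ext fun α => ?_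
      rw [LinearMap.sum_apply, LinearMap.zero_apply]
      exact h1 α) ψ
  exact sub_eq_zero.1 h5

end mono

section main

variable {ι : Type} {P : ι → CMPair} {m : ι → Type}

/-- The rational operators: the identity, and the actions of the elements of bases of the CM fields on
the isotypic parts. -/
def Op (hpol : ∀ i, ∃ E, IsPolarization (perC (P i)) E) (hprim : ∀ i, Primitive (P i))
    (b : ∀ i, Basis (m i) ℚ (P i).E) (Y : AV) : Option (Σ i, m i) → (Y.H →ₗ[ℚ] Y.H)
  | none => LinearMap.id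
  | some x => opA (hpol x.1) (hprim x.1) (b x.1 x.2) Y

/-- The coefficients: one for the identity. -/
def cc (cf : ∀ i, m i → ℂ) : Option (Σ i, m i) → ℂ
  | none => 1
  | some x => cf x.1 x.2

variable {L : Type} [Field L] [NumberField L] [IsCMField L] [IsGalois ℚ L]

/-- **The multiplicative obstruction.** Let `𝒜` be a system of classes which is stable under
pull-backs, and such that the operators `1 + ∑ i l, cf i l • Op (b i l)`, which act with the eigenvalue
`t i ψ` on the weight `ψ` of the isotypic part `i`, fix the classes of the system. Then for each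
balanced family of weights with `∏ t ≠ 1` there is a Hodge class outside of the system. -/
theorem obstruct_mul (j : L →+* ℂ) (X : AV) [Fintype ι] [DecidableEq ι]
    (hpol : ∀ i, ∃ E, IsPolarization (perC (P i)) E) (hprim : ∀ i, Primitive (P i))
    (hfac : ∀ i, IsCMFactor (P i) X) (hne : ∀ i k, i ≠ k → ¬ SameType (P i) (P k))
    [∀ i, Fintype (m i)] (b : ∀ i, Basis (m i) ℚ (P i).E) (cf : ∀ i, m i → ℂ)
    (t : ∀ i, ((P i).E →+* ℂ) → ℂ) (hcf : ∀ i ψ, ∑ l, cf i l * ψ (b i l) = t i ψ - 1)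
    {κ : Type} [Fintype κ] [DecidableEq κ] (I : κ → ι) (φ : ∀ x, (P (I x)).E →+* L)
    (hbal : ∀ σ : L ≃ₐ[ℚ] L, ∑ x, Pool.Agent.W547.LD.Comb.eps (hs (P (I x)) j (φ x)) σ = 0)
    (ht : ∏ x, t (I x) (j.comp (φ x)) ≠ 1)
    (𝒜 : ∀ Y : AV, (Y.H [⋀^κ]→ₗ[ℚ] ℚ) → Prop)
    (hpull : ∀ {Y Z : AV} (h : Y.H →ₗ[ℚ] Z.H), IsHom Y Z h → ∀ f, 𝒜 Z f →
      𝒜 Y (f.compLinearMap h))
    (hFix : ∀ (Y : AV) (f : Y.H [⋀^κ]→ₗ[ℚ] ℚ), 𝒜 Y f → Fix (cc cf) (Op hpol hprim b Y) f) :
    ∃ f : (prodAV fun _ : κ => X).H [⋀^κ]→ₗ[ℚ] ℚ,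
      IsHodge (prodAV fun _ : κ => X).per f ∧ ¬ 𝒜 (prodAV fun _ : κ => X) f := by
  classical
  choose hprim' emb Ψ hinj hΨ using hfac
  have hemb : ∀ i, IsHom (avP (P i) (hpol i)) X (emb i) := fun i => ⟨Ψ i, hΨ i⟩
  choose r hr hri using fun i => exists_retract (hpol i) (hprim i) (hemb i) (hinj i)
  let XC : CMAV := ⟨κ, fun k => P (I k)⟩
  let W : κ → Wt XC L := fun k => ⟨k, φ k⟩
  have hI1 : Function.Injective fun k => (W k).1 := fun k l h => h
  have hbal' : Balanced fun k => St j (W k) := by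
    intro σ
    have h1 : ((∑ k : κ, (if σ ∈ St j (W k) then (1 : ℤ) else -1) : ℤ) : ℚ) =
        ∑ k : κ, Pool.Agent.W547.LD.Comb.eps (hs (P (I k)) j (φ k)) σ := by
      rw [Int.cast_sum]
      refine Finset.sum_congr rfl fun k _ => ?_
      unfold Pool.Agent.W547.LD.Comb.eps
      change ((if σ ∈ hs (P (I k)) j (φ k) then (1 : ℤ) else -1 : ℤ) : ℚ) = _
      split_ifs <;> simp
    have h3 := h1.trans (hbal σ)
    exact_mod_cast h3
  by_contra hcon
  push Not at hcon
  let Y : AV := prodAV fun k : κ => avP (P (I k)) (hpol (I k))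
  let F : L → (Y.H [⋀^κ]→ₗ[ℚ] ℚ) := fun α => (trForm α W : XC.H1 [⋀^κ]→ₗ[ℚ] ℚ)
  have hF : ∀ α, IsHodge Y.per (F α) := fun α => isHodge_trForm j W hbal' α
  let R : (prodAV fun _ : κ => X).H →ₗ[ℚ] Y.H :=
    LinearMap.pi fun k => (r (I k)).comp (LinearMap.proj k)
  have hR : IsHom (prodAV fun _ : κ => X) Y R :=
    isHom_map (X := fun _ : κ => X) (Y := fun k : κ => avP (P (I k)) (hpol (I k)))
      (fun k => r (I k)) fun k => hr (I k)
  let S : Y.H →ₗ[ℚ] (prodAV fun _ : κ => X).H :=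
    LinearMap.pi fun k => (emb (I k)).comp (LinearMap.proj k)
  have hS : IsHom Y (prodAV fun _ : κ => X) S :=
    isHom_map (X := fun k : κ => avP (P (I k)) (hpol (I k))) (Y := fun _ : κ => X)
      (fun k => emb (I k)) fun k => hemb (I k)
  have hRS : ∀ v, R (S v) = v := fun v => funext fun k => hri (I k) (v k)
  have hAlg : ∀ α, 𝒜 Y (F α) := by
    intro α
    obtain ⟨Ψ', hΨ'⟩ := hR
    have h1 := hcon ((F α).compLinearMap R) (isHodge_comp R Ψ' hΨ' (hF α))
    have h2 := hpull S hS _ h1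
    have h3 : ((F α).compLinearMap R).compLinearMap S = F α := by
      ext v
      rw [AlternatingMap.compLinearMap_apply, AlternatingMap.compLinearMap_apply]
      congr 1
      funext k
      exact hRS (v k)
    rwa [h3] at h2
  -- the eigenvalues of the operators
  let A : Option (Σ i, m i) → Y.H →ₗ[ℚ] Y.H := Op hpol hprim b Y
  let μ : κ → Option (Σ i, m i) → L := fun k x => match x with
    | none => 1
    | some y => if h : y.1 = I k then φ k (h ▸ b y.1 y.2) else 0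
  have hA : ∀ (w : XC.H1) (k : κ) (x : Option (Σ i, m i)),
      (W k).2 ((A x w : XC.H1) (W k).1) = μ k x * (W k).2 (w (W k).1) := by
    intro w k x
    rcases x with _ | ⟨i, l⟩
    · change φ k ((w : XC.H1) k) = 1 * φ k ((w : XC.H1) k)
      rw [one_mul]
    · have h1 := opA_nat (hP := hpol i) (hprim i) (b i l)
        (isHom_proj (X := fun k : κ => avP (P (I k)) (hpol (I k))) k) w
      have h2 : (A (some ⟨i, l⟩) w : XC.H1) k =
          (opA (hpol i) (hprim i) (b i l) (avP (P (I k)) (hpol (I k))) (w k) : (P (I k)).E) := h1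
      change φ k ((A (some ⟨i, l⟩) w : XC.H1) k) = μ k (some ⟨i, l⟩) * φ k (w k)
      rw [h2]
      by_cases hik : i = I k
      · have h3 : μ k (some ⟨i, l⟩) = φ k (hik ▸ b i l) := dif_pos hik
        rw [h3]
        subst hik
        have h4 : (opA (hpol (I k)) (hprim (I k)) (b (I k) l) (avP (P (I k)) (hpol (I k)))
            (w k) : (P (I k)).E) = b (I k) l * w k := opA_self (hprim (I k)) (b (I k) l) (w k)
        rw [h4, map_mul]
      · have h3 : μ k (some ⟨i, l⟩) = 0 := dif_neg hik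
        rw [h3, zero_mul]
        have h4 : (opA (hpol i) (hprim i) (b i l) (avP (P (I k)) (hpol (I k)))
            (w k) : (P (I k)).E) = 0 :=
          opA_other (hprim i) (b i l) (fun g hg => hom_zero (hprim i) (hprim (I k))
            (hne i (I k) hik) hg) (w k)
        rw [h4]
        exact map_zero (φ k)
  have hsum : ∀ (ψ : L →+* ℂ) (k : κ), ∑ x, cc cf x * ψ (μ k x) = t (I k) (ψ.comp (φ k)) := by
    intro ψ k
    rw [Fintype.sum_option, Fintype.sum_sigma]
    have h1 : cc cf none * ψ (μ k none) = 1 := by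
      change 1 * ψ 1 = 1
      rw [map_one, one_mul]
    rw [h1, Finset.sum_eq_single (I k)]
    · have h2 : ∀ l, cc cf (some ⟨I k, l⟩) * ψ (μ k (some ⟨I k, l⟩)) =
          cf (I k) l * (ψ.comp (φ k)) (b (I k) l) := by
        intro l
        have h3 : μ k (some ⟨I k, l⟩) = φ k (b (I k) l) := dif_pos rfl
        rw [h3]
        rfl
      rw [Finset.sum_congr rfl fun l _ => h2 l, hcf]
      ring
    · intro i _ hi
      refine Finset.sum_eq_zero fun l _ => ?_
      have h3 : μ k (some ⟨i, l⟩) = 0 := dif_neg hi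
      rw [h3, map_zero, mul_zero]
    · intro h
      exact absurd (Finset.mem_univ _) h
  have hfix : ∀ α : L, Fix (cc cf) (A : Option (Σ i, m i) → XC.H1 →ₗ[ℚ] XC.H1) (trForm α W) :=
    fun α => hFix Y (F α) (hAlg α)
  have h1 := fix_trForm W hI1 (A : Option (Σ i, m i) → XC.H1 →ₗ[ℚ] XC.H1) μ hA (cc cf) hfix
    j.toRatAlgHom
  apply ht
  rw [← h1]
  exact Finset.prod_congr rfl fun k _ => (hsum j k).symm

end main

end

end Pool.Agent.K4H21.LC
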