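import Pool.Agent.K4H21.LC.Pos
import Pool.Agent.K4H21.LC.Obs
import Pool.Agent.K4H29.HC.NegG
import Pool.Agent.K4H34.DB.Dec2

/-!
# Relations which do not come from determinants are obstructions
-/

set_option linter.unusedSectionVars false
set_option linter.unusedVariables false
set_option autoImplicit false

namespace Pool.Agent.K4H21.LC

open Module NumberField Pool.Agent.R915 Pool.Agent.K4H29.HC Pool.Agent.K4H21.DB
open Pool.Agent.Y90 (AV IsHom IsPolarization)
open Pool.Agent.H204R3.CM (IsHodge IsCMType)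
open Pool.Agent.W547.KB (CMPair CMAV Wt St cc_comm emb_cc)
open Pool.Agent.W547.LD (hs isHalf_hs)
open Pool.Agent.W547.LN (SameType)
open Pool.Agent.K4H34.DB (dec)

noncomputable section

/-! ### Characters -/

/-- The exponential function on the rational numbers. -/
def ex (q : ℚ) : ℂ := Complex.exp (2 * Real.pi * Complex.I * (q : ℂ))

theorem ex_add (p q : ℚ) : ex (p + q) = ex p * ex q := by
  unfold ex
  rw [← Complex.exp_add]
  congr 1
  push_cast
  ring

theorem ex_zero : ex 0 = 1 := by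
  unfold ex
  simp

theorem ex_sum {κ : Type} (s : Finset κ) (x : κ → ℚ) : ex (∑ k ∈ s, x k) = ∏ k ∈ s, ex (x k) := by
  classical
  induction s using Finset.induction_on with
  | empty => simp [ex_zero]
  | insert a s ha ih => rw [Finset.sum_insert ha, Finset.prod_insert ha, ex_add, ih]

theorem ex_eq_one {q : ℚ} : ex q = 1 ↔ ((q : ℚ) : AddCircle (1 : ℚ)) = 0 := by
  unfold ex
  rw [Complex.exp_eq_one_iff, AddCircle.coe_eq_zero_iff]
  have hpi : (2 * Real.pi * Complex.I : ℂ) ≠ 0 := Complex.two_pi_I_ne_zero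
  constructor
  · rintro ⟨n, hn⟩
    refine ⟨n, ?_⟩
    have h1 : (2 * Real.pi * Complex.I : ℂ) * (q : ℂ) = (2 * Real.pi * Complex.I : ℂ) * (n : ℂ) := by
      rw [hn]
      ring
    have h2 := mul_left_cancel₀ hpi h1
    rw [zsmul_eq_mul, mul_one]
    have h3 : (q : ℂ) = ((n : ℚ) : ℂ) := by
      rw [h2]
      push_cast
      rfl
    exact (Rat.cast_injective h3).symm
  · rintro ⟨n, hn⟩
    refine ⟨n, ?_⟩
    rw [← hn, zsmul_eq_mul, mul_one]
    push_cast
    ring

/-- An element outside of a subgroup of a free abelian group is detected by a family of roots of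
unity. -/
theorem exists_roots {W : Type} (H : AddSubgroup (W →₀ ℤ)) {m₀ : W →₀ ℤ} (h0 : m₀ ∉ H) :
    ∃ x : W → ℚ, (∀ m ∈ H, ex (m.sum fun s n => (n : ℚ) * x s) = 1) ∧
      ex (m₀.sum fun s n => (n : ℚ) * x s) ≠ 1 := by
  classical
  have h1 : (QuotientAddGroup.mk m₀ : (W →₀ ℤ) ⧸ H) ≠ 0 := by
    intro h
    exact h0 ((QuotientAddGroup.eq_zero_iff m₀).1 h)
  obtain ⟨χ, hχ⟩ := CharacterModule.exists_character_apply_ne_zero_of_ne_zero h1
  have hx : ∀ s : W, ∃ x : ℚ, ((x : ℚ) : AddCircle (1 : ℚ)) =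
      χ (QuotientAddGroup.mk (Finsupp.single s 1) : (W →₀ ℤ) ⧸ H) := fun s =>
    QuotientAddGroup.mk_surjective _
  choose x hx using hx
  have key : ∀ m : W →₀ ℤ, ((m.sum fun s n => (n : ℚ) * x s : ℚ) : AddCircle (1 : ℚ)) =
      χ (QuotientAddGroup.mk m : (W →₀ ℤ) ⧸ H) := by
    intro m
    induction m using Finsupp.induction_linear with
    | zero =>
      rw [Finsupp.sum_zero_index]
      have h2 : (QuotientAddGroup.mk (0 : W →₀ ℤ) : (W →₀ ℤ) ⧸ H) = 0 := rfl
      rw [h2, map_zero]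
      rfl
    | add m m' hm hm' =>
      rw [Finsupp.sum_add_index' (fun s => by simp) (fun s n n' => by push_cast; ring)]
      have h2 : (QuotientAddGroup.mk (m + m') : (W →₀ ℤ) ⧸ H) =
          QuotientAddGroup.mk m + QuotientAddGroup.mk m' := rfl
      rw [h2, map_add, ← hm, ← hm']
      rfl
    | single s n =>
      rw [Finsupp.sum_single_index (by simp)]
      have h2 : (QuotientAddGroup.mk (Finsupp.single s n) : (W →₀ ℤ) ⧸ H) =
          n • QuotientAddGroup.mk (Finsupp.single s 1) := by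
        have h3 : Finsupp.single s n = n • Finsupp.single s (1 : ℤ) := by
          rw [Finsupp.smul_single, smul_eq_mul, mul_one]
        rw [h3]
        rfl
      rw [h2, map_zsmul, ← hx]
      have h3 : ((n : ℚ) * x s) = n • x s := by rw [zsmul_eq_mul]
      rw [h3]
      rfl
  refine ⟨x, fun m hm => ?_, fun h => ?_⟩
  · rw [ex_eq_one, key]
    have h2 : (QuotientAddGroup.mk m : (W →₀ ℤ) ⧸ H) = 0 := (QuotientAddGroup.eq_zero_iff m).2 hm
    rw [h2, map_zero]
  · rw [ex_eq_one, key] at h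
    exact hχ h

/-! ### Representatives of the types of the simple factors -/

theorem sameType_refl (A : CMPair) : SameType A A := ⟨RingEquiv.refl A.E, fun ψ => Iff.rfl⟩

theorem exists_types (X : AV) : ∃ (ι : Type) (_ : Fintype ι) (P : ι → CMPair),
    (∀ i, IsCMFactor (P i) X) ∧ (∀ i k, i ≠ k → ¬ SameType (P i) (P k)) ∧
      ∀ A, IsCMFactor A X → ∃ i, SameType A (P i) := by
  classical
  obtain ⟨X0, h1, h2, -⟩ := dec X
  let st : Setoid X0.I :=
    { r := fun i k => SameType (X0.factor i) (X0.factor k)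
      iseqv := ⟨fun i => sameType_refl _, fun h => sameType_symm h, fun h h' => sameType_trans h h'⟩ }
  refine ⟨Quotient st, inferInstance, fun q => X0.factor q.out, fun q => h1 _, fun q q' hne h => ?_,
    fun A hA => ?_⟩
  · apply hne
    rw [← Quotient.out_eq q, ← Quotient.out_eq q']
    exact Quotient.sound h
  · obtain ⟨i, hi⟩ := h2 A hA
    refine ⟨Quotient.mk st i, sameType_trans hi (sameType_symm ?_)⟩
    exact Quotient.mk_out (s := st) i

/-- A Galois CM field containing all conjugates of the fields of the factors. -/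
theorem exists_cmL (X : CMAV) :
    ∃ (L : Type) (_ : Field L) (_ : NumberField L) (_ : IsCMField L) (_ : IsGalois ℚ L)
      (j : L →+* ℂ), ∀ i, ∀ ψ : (X.factor i).E →+* ℂ,
        ∃ φ : (X.factor i).E →+* L, j.comp φ = ψ := by
  rcases isEmpty_or_nonempty X.I with h | h
  · have _ : NeZero ((3 : ℕ) : ℚ) := ⟨by norm_num⟩
    have _ : IsCyclotomicExtension {3} ℚ (CyclotomicField 3 ℚ) :=
      CyclotomicField.isCyclotomicExtension 3 ℚ
    have _ : IsCMField (CyclotomicField 3 ℚ) :=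
      IsCyclotomicExtension.Rat.isCMField (CyclotomicField 3 ℚ) (S := {3}) ⟨3, rfl, by norm_num⟩
    have _ : IsGalois ℚ (CyclotomicField 3 ℚ) := IsCyclotomicExtension.isGalois {3} ℚ _
    exact ⟨CyclotomicField 3 ℚ, inferInstance, inferInstance, inferInstance, inferInstance,
      Classical.choice inferInstance, fun i => (h.false i).elim⟩
  · exact Pool.Agent.W547.KB.exists_cm X

theorem signs_conj {L : Type} [Field L] [NumberField L] [IsCMField L] [IsGalois ℚ L] (j : L →+* ℂ)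
    (A : CMPair) (φ : A.E →+* L) :
    signs A (ComplexEmbedding.conjugate (j.comp φ)) = -signs A (j.comp φ) := by
  rw [← comp_cj, signs_eq, signs_eq, hs_cj, Th_compl]

theorem cast_pos {z : ℤ} (h : 0 < z) : ((z.natAbs : ℕ) : ℚ) = (z : ℚ) := by
  rw [Nat.cast_natAbs, abs_of_pos h]

theorem cast_nonpos {z : ℤ} (h : ¬ 0 < z) : ((z.natAbs : ℕ) : ℚ) = -(z : ℚ) := by
  rw [Nat.cast_natAbs, abs_of_nonpos (not_lt.1 h), Int.cast_neg]

/-- The families of numbers which are used: at the embeddings of the fields of the types `P i`. -/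
structure Tor (n : ℕ∞) {ι : Type} (P : ι → CMPair) (t : ∀ i, ((P i).E →+* ℂ) → ℂ) : Prop where
  conj : ∀ i φ, t i φ * t i (ComplexEmbedding.conjugate φ) = 1
  det : ∀ i (δ : (P i).E) (d : ℚ) (z : ℂ), 0 < d → δ * δ = -(d : (P i).E) →
    (∀ w, {φ ∈ (P i).Φ | φ δ = w}.encard ≤ n) →
    ∏ φ ∈ Finset.univ.filter (fun φ : (P i).E →+* ℂ => φ δ = z), t i φ = 1

/-- **Relations outside of the subgroup give obstructions.** -/
theorem neg_main (X : AV) (n : ℕ∞) (hnot : ¬ ∀ m, IsRelation X m → m ∈ Gen X n)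
    (𝒜 : ∀ (Y : AV) (κ : Type), (Y.H [⋀^κ]→ₗ[ℚ] ℚ) → Prop)
    (hpull : ∀ {Y Z : AV} {κ : Type} (h : Y.H →ₗ[ℚ] Z.H), IsHom Y Z h →
      ∀ f : Z.H [⋀^κ]→ₗ[ℚ] ℚ, 𝒜 Z κ f → 𝒜 Y κ (f.compLinearMap h))
    (hFix : ∀ {ι : Type} [Fintype ι] [DecidableEq ι] (P : ι → CMPair)
      (hpol : ∀ i, ∃ E, IsPolarization (perC (P i)) E) (hprim : ∀ i, Primitive (P i))
      (_ : ∀ i k, i ≠ k → ¬ SameType (P i) (P k)) (t : ∀ i, ((P i).E →+* ℂ) → ℂ) (_ : Tor n P t)
      (cf : ∀ i, Fin (finrank ℚ (P i).E) → ℂ)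
      (_ : ∀ i ψ, ∑ l, cf i l * ψ (finBasis ℚ (P i).E l) = t i ψ - 1)
      (Y : AV) {κ : Type} [Fintype κ] [DecidableEq κ] (f : Y.H [⋀^κ]→ₗ[ℚ] ℚ), 𝒜 Y κ f →
      Fix (cc cf) (Op hpol hprim (fun i => finBasis ℚ (P i).E) Y) f)
    (hcf : ∀ (E : Type) [Field E] [NumberField E] (t : (E →+* ℂ) → ℂ),
      ∃ cf : Fin (finrank ℚ E) → ℂ, ∀ ψ : E →+* ℂ, ∑ l, cf l * ψ (finBasis ℚ E l) = t ψ - 1) :
    ∃ (κ : Type) (_ : Fintype κ) (f : (prodAV fun _ : κ => X).H [⋀^κ]→ₗ[ℚ] ℚ),
      IsHodge (prodAV fun _ : κ => X).per f ∧ ¬ 𝒜 (prodAV fun _ : κ => X) κ f := by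
  classical
  push Not at hnot
  obtain ⟨m₀, ⟨hsupp, hrel⟩, hm₀⟩ := hnot
  obtain ⟨x, hx1, hx2⟩ := exists_roots (Gen X n) hm₀
  obtain ⟨ι, _, P, hfac, hne, hall⟩ := exists_types X
  obtain ⟨L, _, _, _, _, j, hj⟩ := exists_cmL ⟨ι, P⟩
  have hj' : ∀ i, ∀ ψ : (P i).E →+* ℂ, ∃ φ : (P i).E →+* L, j.comp φ = ψ := hj
  have hprim : ∀ i, Primitive (P i) := fun i => (hfac i).1
  have hpol : ∀ i, ∃ E, IsPolarization (perC (P i)) E := fun i => by
    obtain ⟨-, emb, Ψ, hinj, hΨ⟩ := hfac i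
    exact pol_of_factor emb Ψ hinj hΨ
  -- the weights of the sign vectors
  have hw : ∀ s ∈ SV X, ∃ (i : ι) (φ : (P i).E →+* L), signs (P i) (j.comp φ) = s := by
    rintro s ⟨A, hA, φ, rfl⟩
    obtain ⟨i, e, he⟩ := hall A hA
    obtain ⟨φ', hφ'⟩ := hj' i (φ.comp (e.symm : (P i).E →+* A.E))
    exact ⟨i, φ', by rw [hφ']; exact (Pool.Agent.K4H94.DB.signs_sameType e he φ).symm⟩
  have hneg : ∀ s ∈ SV X, -s ∈ SV X := by
    intro s hs
    obtain ⟨i, φ, rfl⟩ := hw s hs
    rw [← signs_conj]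
    exact ⟨P i, hfac i, _, rfl⟩
  let t : ∀ i, ((P i).E →+* ℂ) → ℂ := fun i φ => ex (x (signs (P i) φ))
  have hpair : ∀ s ∈ SV X, ex (x s) * ex (x (-s)) = 1 := by
    intro s hs
    have h1 := hx1 _ (AddSubgroup.subset_closure (Or.inl ⟨s, hs, rfl⟩))
    rw [Finsupp.sum_add_index' (fun s => by simp) (fun s n n' => by push_cast; ring),
      Finsupp.sum_single_index (by simp), Finsupp.sum_single_index (by simp)] at h1
    rw [← ex_add, ← h1]
    congr 1
    push_cast
    ring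
  have hT : Tor n P t :=
    { conj := fun i φ => by
        obtain ⟨φ', rfl⟩ := hj' i φ
        change ex (x _) * ex (x _) = 1
        rw [signs_conj]
        exact hpair _ ⟨P i, hfac i, _, rfl⟩
      det := fun i δ d z hd hδ hb => by
        have h1 := hx1 _ (AddSubgroup.subset_closure
          (Or.inr ⟨P i, hfac i, δ, d, z, hd, hδ, hb, rfl⟩))
        have h2 : ((orbit (P i) δ z).sum fun s n => (n : ℚ) * x s) =
            ∑ φ ∈ Finset.univ.filter (fun φ : (P i).E →+* ℂ => φ δ = z),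
              x (signs (P i) φ) := by
          unfold orbit
          rw [← Finsupp.sum_finsetSum_index (fun s => by simp)
            (fun s n n' => by push_cast; ring), Finset.sum_filter]
          refine Finset.sum_congr rfl fun φ _ => ?_
          by_cases h : φ δ = z
          · rw [if_pos h, if_pos h, Finsupp.sum_single_index (by simp)]
            push_cast
            ring
          · rw [if_neg h, if_neg h, Finsupp.sum_zero_index]
        rw [h2, ex_sum] at h1
        exact h1 }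
  choose cf hcf' using fun i => hcf (P i).E (t i)
  -- the family of weights
  let κ : Type := Σ s : {s // s ∈ m₀.support}, Fin (m₀ s.1).natAbs
  let sg' : {s // s ∈ m₀.support} → ((ℂ ≃+* ℂ) → ℚ) := fun s => if 0 < m₀ s.1 then s.1 else -s.1
  have hsg : ∀ s, sg' s ∈ SV X := by
    intro s
    have h1 : s.1 ∈ SV X := hsupp _ (Finsupp.mem_support_iff.1 s.2)
    by_cases h : 0 < m₀ s.1
    · change (if 0 < m₀ s.1 then s.1 else -s.1) ∈ SV X
      rw [if_pos h]
      exact h1
    · change (if 0 < m₀ s.1 then s.1 else -s.1) ∈ SV X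
      rw [if_neg h]
      exact hneg _ h1
  choose I0 φ0 hφ0 using fun s : {s // s ∈ m₀.support} => hw _ (hsg s)
  let I : κ → ι := fun k => I0 k.1
  let φ : ∀ k : κ, (P (I k)).E →+* L := fun k => φ0 k.1
  have hsign : ∀ k : κ, signs (P (I k)) (j.comp (φ k)) = sg' k.1 := fun k => hφ0 k.1
  have hsumκ : ∀ {M : Type} [AddCommMonoid M] (g : {s // s ∈ m₀.support} → M),
      ∑ k : κ, g k.1 = ∑ s : {s // s ∈ m₀.support}, (m₀ s.1).natAbs • g s := by
    intro M _ g
    rw [Fintype.sum_sigma]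
    refine Finset.sum_congr rfl fun s _ => ?_
    change ∑ _y : Fin (m₀ s.1).natAbs, g s = _
    rw [Finset.sum_const, Finset.card_univ, Fintype.card_fin]
  have hbal : ∀ σ : L ≃ₐ[ℚ] L,
      ∑ k : κ, Pool.Agent.W547.LD.Comb.eps (hs (P (I k)) j (φ k)) σ = 0 := by
    intro σ
    obtain ⟨τ, rfl⟩ := rr_surj j σ
    have h1 : ∀ k : κ, Pool.Agent.W547.LD.Comb.eps (hs (P (I k)) j (φ k)) (rr j τ) = sg' k.1 τ := by
      intro k
      rw [← hsign k, signs_eq]
      unfold Th sg Pool.Agent.W547.LD.Comb.eps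
      split_ifs <;> simp
    rw [Finset.sum_congr rfl fun k _ => h1 k, hsumκ fun s => sg' s τ]
    have h2 := congrFun hrel τ
    rw [Finsupp.sum, Finset.sum_apply, ← Finset.sum_coe_sort, Pi.zero_apply] at h2
    rw [← h2]
    refine Finset.sum_congr rfl fun s _ => ?_
    change (m₀ s.1).natAbs • (if 0 < m₀ s.1 then s.1 else -s.1) τ = ((m₀ s.1 : ℤ) : ℚ) * s.1 τ
    rw [nsmul_eq_mul]
    by_cases h : 0 < m₀ s.1
    · rw [if_pos h, cast_pos h]
    · rw [if_neg h, cast_nonpos h, Pi.neg_apply]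
      ring
  have hprod : ∏ k : κ, t (I k) (j.comp (φ k)) ≠ 1 := by
    have h1 : ∀ k : κ, t (I k) (j.comp (φ k)) = ex (x (sg' k.1)) := by
      intro k
      change ex (x (signs (P (I k)) (j.comp (φ k)))) = _
      rw [hsign k]
    rw [Finset.prod_congr rfl fun k _ => h1 k]
    have h2 : ∏ k : κ, ex (x (sg' k.1)) =
        ∏ s : {s // s ∈ m₀.support}, ex (x (sg' s)) ^ (m₀ s.1).natAbs := by
      rw [Fintype.prod_sigma]
      refine Finset.prod_congr rfl fun s _ => ?_
      change ∏ _y : Fin (m₀ s.1).natAbs, ex (x (sg' s)) = _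
      rw [Finset.prod_const, Finset.card_univ, Fintype.card_fin]
    have hpow : ∀ (q : ℚ) (N : ℕ), ex q ^ N = ex (N * q) := by
      intro q N
      induction N with
      | zero => simp [ex_zero]
      | succ N ih =>
        rw [pow_succ, ih, ← ex_add]
        congr 1
        push_cast
        ring
    have h3 : ∀ s : {s // s ∈ m₀.support}, ex (x (sg' s)) ^ (m₀ s.1).natAbs =
        ex ((m₀ s.1 : ℚ) * x s.1) := by
      intro s
      change ex (x (if 0 < m₀ s.1 then s.1 else -s.1)) ^ (m₀ s.1).natAbs = _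
      by_cases h : 0 < m₀ s.1
      · rw [if_pos h, hpow, cast_pos h]
      · have h6 := hpair s.1 (hsupp _ (Finsupp.mem_support_iff.1 s.2))
        have h7 : ex (x s.1) * ex (-x s.1) = 1 := by
          rw [← ex_add, add_neg_cancel, ex_zero]
        have h8 : ex (x (-s.1)) = ex (-x s.1) := by
          have h9 : ex (x s.1) ≠ 0 := left_ne_zero_of_mul_eq_one h6
          exact mul_left_cancel₀ h9 (h6.trans h7.symm)
        rw [if_neg h, h8, hpow, cast_nonpos h]
        congr 1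
        ring
    rw [h2, Finset.prod_congr rfl fun s _ => h3 s, ← ex_sum]
    intro h4
    apply hx2
    rw [Finsupp.sum, ← Finset.sum_coe_sort]
    exact h4
  obtain ⟨f, hf, hnf⟩ := obstruct_mul j X hpol hprim hfac hne (fun i => finBasis ℚ (P i).E) cf t
    (fun i ψ => hcf' i ψ) I φ hbal hprod (fun Y f => 𝒜 Y κ f) (fun h hh f hf => hpull h hh f hf)
    (fun Y f hf => hFix P hpol hprim hne t hT cf (fun i ψ => hcf' i ψ) Y f hf)
  exact ⟨κ, inferInstance, f, hf, hnf⟩

/-- Transport to the powers. -/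
theorem transport' (X : AV) {κ : Type} [Fintype κ]
    (𝒜 : ∀ (Y : AV) (κ : Type), (Y.H [⋀^κ]→ₗ[ℚ] ℚ) → Prop)
    (hpull : ∀ {Y Z : AV} {κ : Type} (h : Y.H →ₗ[ℚ] Z.H), IsHom Y Z h →
      ∀ f : Z.H [⋀^κ]→ₗ[ℚ] ℚ, 𝒜 Z κ f → 𝒜 Y κ (f.compLinearMap h))
    (f : (prodAV fun _ : κ => X).H [⋀^κ]→ₗ[ℚ] ℚ) (hf : IsHodge (prodAV fun _ : κ => X).per f)
    (hn : ¬ 𝒜 (prodAV fun _ : κ => X) κ f) :
    ∃ (n : ℕ) (g : (pow X n).H [⋀^κ]→ₗ[ℚ] ℚ), IsHodge (pow X n).per g ∧ ¬ 𝒜 (pow X n) κ g := by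
  classical
  let e := Fintype.equivFin κ
  obtain ⟨Ψ, hΨ⟩ := isHom_reindex X e
  have h2 : IsHom (prodAV fun _ : κ => X) (pow X (Fintype.card κ))
      (LinearMap.pi fun k => LinearMap.proj (e.symm k)) := isHom_reindex X e.symm
  refine ⟨Fintype.card κ, f.compLinearMap (LinearMap.pi fun k => LinearMap.proj (e k)), ?_, ?_⟩
  · exact Pool.Agent.TH504.CB.isHodge_comp (per := (pow X (Fintype.card κ)).per) _ Ψ hΨ hf
  · intro h
    apply hn
    have h3 := hpull _ h2 _ h
    have h4 : (f.compLinearMap (LinearMap.pi fun k => LinearMap.proj (e k))).compLinearMap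
        (LinearMap.pi fun k => LinearMap.proj (e.symm k) :
          (κ → X.H) →ₗ[ℚ] (Fin (Fintype.card κ) → X.H)) = f := by
      ext v
      rw [AlternatingMap.compLinearMap_apply, AlternatingMap.compLinearMap_apply]
      congr 1
      funext k
      funext l
      change v k (e.symm (e l)) = v k l
      rw [Equiv.symm_apply_apply]
    rwa [← h4]

end

end Pool.Agent.K4H21.LC
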