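import Pool.Agent.K4H21.LC.Pos
import Pool.Agent.K4H21.LC.Neg
import Pool.Agent.K4H21.LC.Num

/-!
# Simple abelian varieties with complex multiplication
-/

set_option linter.unusedSectionVars false
set_option linter.unusedVariables false
set_option autoImplicit false

namespace Pool.Agent.K4H21.LC

open Module NumberField Pool.Agent.R915 Pool.Agent.K4H29.HC Pool.Agent.K4H21.DB
open Pool.Agent.Y90 (AV IsHom)
open Pool.Agent.W547.KB (CMPair CMAV Wt St cc IsHalf isHalf_St cc_comm emb_cc)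
open Pool.Agent.W547.LD (tr mem_tr tr_one tr_tr tr_compl tr_inv_tr tr_tr_inv tr_injective tr_cc
  ne_compl Orb IsImag hs isHalf_hs)
open Pool.Agent.W547.LN (SameType exists_smul)
open Pool.Agent.H977R3.CM (exists_gal exists_aut)
open Pool.Agent.K4H94.DB (sv_eq defect_eq_gen isCMFactor_factor exists_sameType)
open Pool.Agent.K4H34.DB (primitive_of_simple)

noncomputable section

variable {L : Type} [Field L] [NumberField L] [IsCMField L] [IsGalois ℚ L]

/-! ### Relations which are invariant under subgroups of index two on one orbit -/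

section comb

variable (j : L →+* ℂ) {R : Set (Set (L ≃ₐ[ℚ] L))} (hH : ∀ S ∈ R, IsHalf S)
  (hst : ∀ (τ : L ≃ₐ[ℚ] L), ∀ S ∈ R, tr τ S ∈ R) {S0 : Set (L ≃ₐ[ℚ] L)} (hS0 : S0 ∈ R)
  (htr : ∀ S ∈ R, ∃ τ : L ≃ₐ[ℚ] L, tr τ S0 = S)

open Classical in
/-- The orbit of `S0` under the subgroup `N`. -/
def ON (S0 : Set (L ≃ₐ[ℚ] L)) (N : Subgroup (L ≃ₐ[ℚ] L)) : Finset (Set (L ≃ₐ[ℚ] L)) :=
  (Finset.univ.filter fun τ : L ≃ₐ[ℚ] L => τ ∈ N).image fun τ => tr τ S0

theorem mem_ON {N : Subgroup (L ≃ₐ[ℚ] L)} {S : Set (L ≃ₐ[ℚ] L)} :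
    S ∈ ON S0 N ↔ ∃ τ ∈ N, tr τ S0 = S := by
  classical
  unfold ON
  rw [Finset.mem_image]
  constructor
  · rintro ⟨τ, h1, h2⟩
    exact ⟨τ, (Finset.mem_filter.1 h1).2, h2⟩
  · rintro ⟨τ, h1, h2⟩
    exact ⟨τ, Finset.mem_filter.2 ⟨Finset.mem_univ _, h1⟩, h2⟩

theorem ON_stable {N : Subgroup (L ≃ₐ[ℚ] L)} : ∀ τ ∈ N, ∀ S ∈ ON S0 N, tr τ S ∈ ON S0 N := by
  intro τ hτ S hS
  obtain ⟨ν, h1, rfl⟩ := mem_ON.1 hS
  exact mem_ON.2 ⟨τ * ν, N.mul_mem hτ h1, (tr_tr τ ν S0).symm⟩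

include hst hS0 in
theorem ON_sub {N : Subgroup (L ≃ₐ[ℚ] L)} : ∀ S ∈ ON S0 N, S ∈ R := by
  intro S hS
  obtain ⟨ν, h1, rfl⟩ := mem_ON.1 hS
  exact hst ν S0 hS0

theorem mem_ON_tr {N : Subgroup (L ≃ₐ[ℚ] L)} (hstab : ∀ τ, tr τ S0 = S0 → τ ∈ N)
    (τ : L ≃ₐ[ℚ] L) : tr τ S0 ∈ ON S0 N ↔ τ ∈ N := by
  constructor
  · intro h
    obtain ⟨ν, h1, h2⟩ := mem_ON.1 h
    have h3 : tr (ν⁻¹ * τ) S0 = S0 := by
      rw [← tr_tr, ← h2, tr_inv_tr]
    exact (N.mul_mem_cancel_left (N.inv_mem h1)).1 (hstab _ h3)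
  · intro h
    exact mem_ON.2 ⟨τ, h, rfl⟩

include j hH hS0 in
theorem uF_ON {N : Subgroup (L ≃ₐ[ℚ] L)} (hN : IsImag N) (hstab : ∀ τ, tr τ S0 = S0 → τ ∈ N)
    (τ : L ≃ₐ[ℚ] L) : uF (ON S0 N) (tr τ S0) = sg (sN N) τ := by
  have h1 : (tr τ S0)ᶜ = tr (τ * Pool.Agent.W547.KB.cc L) S0 := by
    rw [← tr_tr, tr_cc j (hH S0 hS0), tr_compl]
  have h2 : (tr τ S0)ᶜ ∈ ON S0 N ↔ ¬ τ ∈ N := by
    rw [h1, mem_ON_tr hstab, hN.mul_mem_iff j]
    have := hN.1
    tauto
  have h3 := mem_ON_tr hstab τ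
  unfold uF sg
  by_cases h : τ ∈ N
  · rw [if_pos (h3.2 h), if_neg (fun h4 => (h2.1 h4) h), if_pos (show τ ∈ sN N from h), sub_zero]
  · rw [if_neg (fun h4 => h (h3.1 h4)), if_pos (h2.2 h), if_neg (show τ ∉ sN N from h)]
    norm_num

/-- The function is a combination of the characters on the orbit. -/
def CC (S0 : Set (L ≃ₐ[ℚ] L)) (D : Prop) (a : Set (L ≃ₐ[ℚ] L) → ℤ) : Prop :=
  ∃ c : {N : Subgroup (L ≃ₐ[ℚ] L) // IsImag N} → ℤ,
    (∀ τ, a (tr τ S0) = ∑ N, c N * sg (sN N.1) τ) ∧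
    ∀ N, c N ≠ 0 → (∀ τ, tr τ S0 = S0 → τ ∈ N.1) ∧ D

theorem CC.zero {D : Prop} : CC S0 D 0 :=
  ⟨0, fun τ => by simp, fun N h => absurd rfl h⟩

theorem CC.add {D : Prop} {a b : Set (L ≃ₐ[ℚ] L) → ℤ} (ha : CC S0 D a) (hb : CC S0 D b) :
    CC S0 D (a + b) := by
  obtain ⟨c, h1, h2⟩ := ha
  obtain ⟨c', h1', h2'⟩ := hb
  refine ⟨c + c', fun τ => ?_, fun N hN => ?_⟩
  · rw [Pi.add_apply, h1, h1', ← Finset.sum_add_distrib]
    refine Finset.sum_congr rfl fun N _ => ?_
    rw [Pi.add_apply, add_mul]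
  · by_cases h : c N = 0
    · refine h2' N fun h' => hN ?_
      rw [Pi.add_apply, h, h', add_zero]
    · exact h2 N h

theorem CC.neg {D : Prop} {a : Set (L ≃ₐ[ℚ] L) → ℤ} (ha : CC S0 D a) : CC S0 D (-a) := by
  obtain ⟨c, h1, h2⟩ := ha
  refine ⟨-c, fun τ => ?_, fun N hN => ?_⟩
  · rw [Pi.neg_apply, h1, ← Finset.sum_neg_distrib]
    refine Finset.sum_congr rfl fun N _ => ?_
    rw [Pi.neg_apply, neg_mul]
  · refine h2 N fun h' => hN ?_
    rw [Pi.neg_apply, h', neg_zero]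

include hH hst hS0 in
/-- The function of the orbit is odd, with values in the orbit. -/
theorem uF_off {N : Subgroup (L ≃ₐ[ℚ] L)} (hc : ∀ S ∈ R, Sᶜ ∈ R) {S : Set (L ≃ₐ[ℚ] L)}
    (hS : S ∉ R) : uF (ON S0 N) S = 0 := by
  unfold uF
  rw [if_neg (fun h => hS (ON_sub hst hS0 S h)), if_neg (fun h => hS (by
    have h1 := hc _ (ON_sub hst hS0 _ h)
    rwa [compl_compl] at h1)), sub_zero]

include hH hst hS0 in
theorem uF_mem {N : Subgroup (L ≃ₐ[ℚ] L)} (hN : IsImag N) (hc : ∀ S ∈ R, Sᶜ ∈ R)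
    (h0 : FF (ON S0 N) 1 = 0) : uF (ON S0 N) ∈ Lam R := by
  refine ⟨fun S hS => uF_off hH hst hS0 hc hS, fun S => uF_compl S, fun σ => ?_⟩
  rw [sum_uF, FF_eq (fun S hS => hH S (ON_sub hst hS0 S hS)) hN ON_stable, h0, zero_mul, mul_zero]

include j hH hst hS0 htr in
/-- The relations are multiples of the function of one subgroup. -/
theorem exists_one {D : Prop} (hc : ∀ S ∈ R, Sᶜ ∈ R) (h : ∀ a ∈ Lam R, CC S0 D a)
    (hne : ∃ a ∈ Lam R, a ≠ 0) : finrank ℤ (Lam R) = 1 ∧ D := by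
  classical
  -- the coefficients of a relation
  have key : ∀ a ∈ Lam R, ∀ c : {N : Subgroup (L ≃ₐ[ℚ] L) // IsImag N} → ℤ,
      (∀ τ, a (tr τ S0) = ∑ N, c N * sg (sN N.1) τ) →
      (∀ N, c N ≠ 0 → (∀ τ, tr τ S0 = S0 → τ ∈ N.1) ∧ D) →
      a = ∑ N, c N • uF (ON S0 N.1) ∧ ∀ N, c N ≠ 0 → FF (ON S0 N.1) 1 = 0 := by
    intro a ha c h1 h2
    have h3 : a = ∑ N, c N • uF (ON S0 N.1) := by
      funext S
      rw [Finset.sum_apply]
      by_cases hS : S ∈ R
      · obtain ⟨τ, rfl⟩ := htr S hS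
        rw [h1]
        refine Finset.sum_congr rfl fun N _ => ?_
        rw [Pi.smul_apply, smul_eq_mul]
        by_cases hN : c N = 0
        · rw [hN, zero_mul, zero_mul]
        · rw [uF_ON j hH hS0 N.2 (h2 N hN).1]
      · rw [ha.1 S hS]
        symm
        refine Finset.sum_eq_zero fun N _ => ?_
        rw [Pi.smul_apply, uF_off hH hst hS0 hc hS, smul_zero]
    refine ⟨h3, fun N hN => ?_⟩
    have h4 : ∀ σ, ∑ N : {N : Subgroup (L ≃ₐ[ℚ] L) // IsImag N},
        (c N * FF (ON S0 N.1) 1) * sg (sN N.1) σ = 0 := by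
      intro σ
      have h5 := ha.2.2 σ
      rw [h3] at h5
      have h6 : ∀ S : Set (L ≃ₐ[ℚ] L), (∑ N : {N : Subgroup (L ≃ₐ[ℚ] L) // IsImag N},
          c N • uF (ON S0 N.1)) S * sg S σ =
          ∑ N : {N : Subgroup (L ≃ₐ[ℚ] L) // IsImag N}, c N * (uF (ON S0 N.1) S * sg S σ) := by
        intro S
        rw [Finset.sum_apply, Finset.sum_mul]
        refine Finset.sum_congr rfl fun N _ => ?_
        rw [Pi.smul_apply, smul_eq_mul, mul_assoc]
      rw [Finset.sum_congr rfl fun S _ => h6 S, Finset.sum_comm] at h5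
      have h7 : ∀ N : {N : Subgroup (L ≃ₐ[ℚ] L) // IsImag N},
          ∑ S, c N * (uF (ON S0 N.1) S * sg S σ) =
            2 * ((c N * FF (ON S0 N.1) 1) * sg (sN N.1) σ) := by
        intro N
        rw [← Finset.mul_sum, sum_uF, FF_eq (fun S hS => hH S (ON_sub hst hS0 S hS)) N.2 ON_stable]
        ring
      rw [Finset.sum_congr rfl fun N _ => h7 N, ← Finset.mul_sum] at h5
      omega
    have h5 := congrFun (chi_indep j h4) N
    change c N * FF (ON S0 N.1) 1 = 0 at h5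
    exact (mul_eq_zero.1 h5).resolve_left hN
  obtain ⟨a, ha, ha0⟩ := hne
  obtain ⟨c, h1, h2⟩ := h a ha
  obtain ⟨h3, h4⟩ := key a ha c h1 h2
  obtain ⟨N1, hN1⟩ : ∃ N, c N ≠ 0 := by
    by_contra hcon
    push Not at hcon
    apply ha0
    rw [h3]
    refine Finset.sum_eq_zero fun N _ => ?_
    rw [hcon, zero_smul]
  have hb1 := h4 N1 hN1
  have hs1 := (h2 N1 hN1).1
  have hD := (h2 N1 hN1).2
  have hu1 : uF (ON S0 N1.1) ∈ Lam R := uF_mem hH hst hS0 N1.2 hc hb1
  -- uniqueness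
  have huniq : ∀ N2 : {N : Subgroup (L ≃ₐ[ℚ] L) // IsImag N}, (∀ τ, tr τ S0 = S0 → τ ∈ N2.1) →
      FF (ON S0 N2.1) 1 = 0 → N2 = N1 := by
    intro N2 hs2 hb2
    by_contra hne
    have hu2 : uF (ON S0 N2.1) ∈ Lam R := uF_mem hH hst hS0 N2.2 hc hb2
    have hpm : ∀ (N : {N : Subgroup (L ≃ₐ[ℚ] L) // IsImag N}) (τ : L ≃ₐ[ℚ] L),
        sg (sN N.1) τ = 1 ∨ sg (sN N.1) τ = -1 := by
      intro N τ
      unfold sg
      by_cases h : τ ∈ sN N.1
      · rw [if_pos h]
        exact Or.inl rfl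
      · rw [if_neg h]
        exact Or.inr rfl
    have hev : ∀ S, 2 * ((uF (ON S0 N1.1) S + uF (ON S0 N2.1) S) / 2) =
        uF (ON S0 N1.1) S + uF (ON S0 N2.1) S := by
      intro S
      by_cases hS : S ∈ R
      · obtain ⟨τ, rfl⟩ := htr S hS
        rw [uF_ON j hH hS0 N1.2 hs1, uF_ON j hH hS0 N2.2 hs2]
        rcases hpm N1 τ with h | h <;> rcases hpm N2 τ with h' | h' <;> rw [h, h'] <;> norm_num
      · rw [uF_off hH hst hS0 hc hS, uF_off hH hst hS0 hc hS]
        norm_num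
    let b : Set (L ≃ₐ[ℚ] L) → ℤ := fun S => (uF (ON S0 N1.1) S + uF (ON S0 N2.1) S) / 2
    have hb : ∀ S, 2 * b S = uF (ON S0 N1.1) S + uF (ON S0 N2.1) S := hev
    have hbmem : b ∈ Lam R := by
      refine ⟨fun S hS => ?_, fun S => ?_, fun σ => ?_⟩
      · have h5 := hb S
        rw [hu1.1 S hS, hu2.1 S hS] at h5
        omega
      · have h5 := hb S
        have h6 := hb Sᶜ
        rw [hu1.2.1 S, hu2.2.1 S] at h6
        omega
      · have h5 : 2 * ∑ S, b S * sg S σ = 0 := by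
          rw [Finset.mul_sum]
          have h6 : ∀ S : Set (L ≃ₐ[ℚ] L), 2 * (b S * sg S σ) =
              uF (ON S0 N1.1) S * sg S σ + uF (ON S0 N2.1) S * sg S σ := by
            intro S
            rw [← mul_assoc, hb, add_mul]
          rw [Finset.sum_congr rfl fun S _ => h6 S, Finset.sum_add_distrib, hu1.2.2, hu2.2.2,
            add_zero]
        omega
    obtain ⟨c', h1', -⟩ := h b hbmem
    have h5 : ∀ τ, ∑ N : {N : Subgroup (L ≃ₐ[ℚ] L) // IsImag N},
        (2 * c' N - (Pi.single N1 1 : {N : Subgroup (L ≃ₐ[ℚ] L) // IsImag N} → ℤ) N -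
          (Pi.single N2 1 : {N : Subgroup (L ≃ₐ[ℚ] L) // IsImag N} → ℤ) N) * sg (sN N.1) τ = 0 := by
      intro τ
      have h6 := hb (tr τ S0)
      rw [h1' τ, uF_ON j hH hS0 N1.2 hs1, uF_ON j hH hS0 N2.2 hs2] at h6
      have h7 : ∀ M : {N : Subgroup (L ≃ₐ[ℚ] L) // IsImag N},
          ∑ N : {N : Subgroup (L ≃ₐ[ℚ] L) // IsImag N},
            (Pi.single M 1 : {N : Subgroup (L ≃ₐ[ℚ] L) // IsImag N} → ℤ) N * sg (sN N.1) τ =
            sg (sN M.1) τ := by
        intro M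
        rw [Finset.sum_eq_single M]
        · rw [Pi.single_eq_same, one_mul]
        · intro N _ hN
          rw [Pi.single_eq_of_ne hN, zero_mul]
        · intro h
          exact absurd (Finset.mem_univ _) h
      have h8 : ∀ N : {N : Subgroup (L ≃ₐ[ℚ] L) // IsImag N},
          (2 * c' N - (Pi.single N1 1 : {N : Subgroup (L ≃ₐ[ℚ] L) // IsImag N} → ℤ) N -
            (Pi.single N2 1 : {N : Subgroup (L ≃ₐ[ℚ] L) // IsImag N} → ℤ) N) * sg (sN N.1) τ =
          2 * (c' N * sg (sN N.1) τ) -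
            (Pi.single N1 1 : {N : Subgroup (L ≃ₐ[ℚ] L) // IsImag N} → ℤ) N * sg (sN N.1) τ -
            (Pi.single N2 1 : {N : Subgroup (L ≃ₐ[ℚ] L) // IsImag N} → ℤ) N * sg (sN N.1) τ := by
        intro N
        ring
      rw [Finset.sum_congr rfl fun N _ => h8 N, Finset.sum_sub_distrib, Finset.sum_sub_distrib,
        ← Finset.mul_sum, h7, h7, h6]
      ring
    have h6 := congrFun (chi_indep j h5) N1
    change 2 * c' N1 - (Pi.single N1 1 : {N : Subgroup (L ≃ₐ[ℚ] L) // IsImag N} → ℤ) N1 -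
      (Pi.single N2 1 : {N : Subgroup (L ≃ₐ[ℚ] L) // IsImag N} → ℤ) N1 = 0 at h6
    rw [Pi.single_eq_same, Pi.single_eq_of_ne (Ne.symm hne)] at h6
    omega
  refine ⟨?_, hD⟩
  refine finrank_eq_one (⟨uF (ON S0 N1.1), hu1⟩ : Lam R) ?_ fun w => ?_
  · intro h5
    have h6 := congrArg (fun f : Lam R => f.1 (tr 1 S0)) h5
    change uF (ON S0 N1.1) (tr 1 S0) = 0 at h6
    rw [uF_ON j hH hS0 N1.2 hs1] at h6
    unfold sg at h6
    rw [if_pos (show (1 : L ≃ₐ[ℚ] L) ∈ sN N1.1 from N1.1.one_mem)] at h6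
    exact one_ne_zero h6
  · obtain ⟨c', h1', h2'⟩ := h w.1 w.2
    obtain ⟨h3', h4'⟩ := key w.1 w.2 c' h1' h2'
    refine ⟨c' N1, Subtype.ext ?_⟩
    change c' N1 • uF (ON S0 N1.1) = w.1
    rw [h3', Finset.sum_eq_single N1]
    · intro N _ hN
      by_cases h5 : c' N = 0
      · rw [h5, zero_smul]
      · exact absurd (huniq N (h2' N h5).1 (h4' N h5)) hN
    · intro h
      exact absurd (Finset.mem_univ _) h

end comb

/-! ### Even elements of the free abelian group -/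

theorem mem_gen_even (X : AV) (n : ℕ∞) (hne : ∀ s ∈ SV X, s ≠ -s) (k : ℕ) :
    ∀ m : ((ℂ ≃+* ℂ) → ℚ) →₀ ℤ, m.support.card ≤ k → (∀ s, m s ≠ 0 → s ∈ SV X) →
      (∀ s, m s = m (-s)) → m ∈ Gen X n := by
  classical
  induction k with
  | zero =>
    intro m hm _ _
    have h0 : m = 0 := by
      rw [← Finsupp.support_eq_empty, ← Finset.card_eq_zero]
      omega
    rw [h0]
    exact (Gen X n).zero_mem
  | succ k ih =>
    intro m hm hs he
    by_cases h0 : m = 0
    · rw [h0]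
      exact (Gen X n).zero_mem
    · obtain ⟨s, hs0⟩ := Finsupp.support_nonempty_iff.2 h0
      have hs0' : m s ≠ 0 := Finsupp.mem_support_iff.1 hs0
      have hsX := hs s hs0'
      have hss := hne s hsX
      let q : ((ℂ ≃+* ℂ) → ℚ) →₀ ℤ := Finsupp.single s 1 + Finsupp.single (-s) 1
      have hq : q ∈ Gen X n := AddSubgroup.subset_closure (Or.inl ⟨s, hsX, rfl⟩)
      have hval : ∀ t, (m - m s • q) t = if t = s ∨ t = -s then 0 else m t := by
        intro t
        change m t - m s * ((Finsupp.single s (1 : ℤ)) t + (Finsupp.single (-s) (1 : ℤ)) t) = _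
        by_cases h1 : t = s
        · rw [h1, Finsupp.single_eq_same, Finsupp.single_eq_of_ne hss, if_pos (Or.inl rfl)]
          ring
        · by_cases h2 : t = -s
          · rw [h2, Finsupp.single_eq_same, Finsupp.single_eq_of_ne (fun h => hss h.symm),
              if_pos (Or.inr rfl), ← he]
            ring
          · rw [Finsupp.single_eq_of_ne h1, Finsupp.single_eq_of_ne h2,
              if_neg (by tauto)]
            ring
      have h3 : m - m s • q ∈ Gen X n := by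
        refine ih _ ?_ ?_ ?_
        · have h4 : (m - m s • q).support ⊆ m.support.erase s := by
            intro t ht
            have h5 := Finsupp.mem_support_iff.1 ht
            rw [hval] at h5
            rw [Finset.mem_erase]
            by_cases h6 : t = s ∨ t = -s
            · rw [if_pos h6] at h5
              exact absurd rfl h5
            · rw [if_neg h6] at h5
              exact ⟨fun h => h6 (Or.inl h), Finsupp.mem_support_iff.2 h5⟩
          have h5 := Finset.card_le_card h4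
          rw [Finset.card_erase_of_mem hs0] at h5
          omega
        · intro t ht
          rw [hval] at ht
          by_cases h6 : t = s ∨ t = -s
          · rw [if_pos h6] at ht
            exact absurd rfl ht
          · rw [if_neg h6] at ht
            exact hs t ht
        · intro t
          rw [hval, hval]
          have h6 : (t = s ∨ t = -s) ↔ (-t = s ∨ -t = -s) := by
            rw [neg_inj, neg_eq_iff_eq_neg]
            tauto
          by_cases h7 : t = s ∨ t = -s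
          · rw [if_pos h7, if_pos (h6.1 h7)]
          · rw [if_neg h7, if_neg (fun h => h7 (h6.2 h)), he]
      have h4 := (Gen X n).add_mem h3 ((Gen X n).zsmul_mem hq (m s))
      rwa [sub_add_cancel] at h4

theorem Th_ne_neg (j : L →+* ℂ) (S : Set (L ≃ₐ[ℚ] L)) : Th j S ≠ -Th j S := by
  intro h
  rw [← Th_compl] at h
  exact ne_compl _ (Th_inj j h)

section ker

variable {X : AV} {X0 : CMAV} (j : L →+* ℂ)
  (h1 : ∀ i, IsCMFactor (X0.factor i) X)
  (h2 : ∀ A : CMPair, IsCMFactor A X → ∃ i, SameType A (X0.factor i))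
  (hj : ∀ i, ∀ ψ : (X0.factor i).E →+* ℂ, ∃ φ : (X0.factor i).E →+* L, j.comp φ = ψ)

include h1 h2 hj in
theorem SV_neg {s : (ℂ ≃+* ℂ) → ℚ} (hs : s ∈ SV X) : -s ∈ SV X := by
  rw [SV_eq_image j h1 h2 hj] at hs ⊢
  obtain ⟨S, hS, rfl⟩ := hs
  exact ⟨Sᶜ, compl_PX j X0 S hS, Th_compl j S⟩

include h1 h2 hj in
theorem mem_gen_of_pb {n : ℕ∞} {m : ((ℂ ≃+* ℂ) → ℚ) →₀ ℤ} (hm : ∀ s, m s ≠ 0 → s ∈ SV X)
    (h0 : pb j m = 0) : m ∈ Gen X n := by
  refine mem_gen_even X n ?_ m.support.card m le_rfl hm fun s => ?_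
  · intro s hs
    rw [SV_eq_image j h1 h2 hj] at hs
    obtain ⟨S, -, rfl⟩ := hs
    exact Th_ne_neg j S
  · by_cases hs : s ∈ SV X
    · rw [SV_eq_image j h1 h2 hj] at hs
      obtain ⟨S, -, rfl⟩ := hs
      have h3 := congrFun h0 S
      change m (Th j S) - m (Th j Sᶜ) = 0 at h3
      rw [Th_compl] at h3
      linarith
    · have h3 : m s = 0 := by
        by_contra h
        exact hs (hm s h)
      have h4 : m (-s) = 0 := by
        by_contra h
        apply hs
        have h5 := SV_neg j h1 h2 hj (hm (-s) h)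
        rwa [neg_neg] at h5
      rw [h3, h4]

include h1 h2 hj in
theorem pb_mem {m : ((ℂ ≃+* ℂ) → ℚ) →₀ ℤ} (hm : IsRelation X m) : pb j m ∈ Lam (PX j X0) := by
  classical
  have hsub : ∀ S, m (Th j S) ≠ 0 → S ∈ PX j X0 := by
    intro S hS
    have h3 := hm.1 _ hS
    rw [SV_eq_image j h1 h2 hj] at h3
    obtain ⟨T, hT, hT'⟩ := h3
    rw [← Th_inj j hT']
    exact hT
  have hrel : ∀ σ, ∑ S, m (Th j S) * sg S σ = 0 := by
    rw [← Th_zero_iff]
    have h3 := hm.2
    rw [Finsupp.sum_of_support_subset m (s := Finset.univ.image (Th j)) ?_ _ ?_] at h3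
    · rwa [Finset.sum_image (fun x _ y _ h => Th_inj j h)] at h3
    · intro s hs
      have h4 := hm.1 s (Finsupp.mem_support_iff.1 hs)
      rw [SV_eq_image j h1 h2 hj] at h4
      obtain ⟨T, -, rfl⟩ := h4
      exact Finset.mem_image_of_mem _ (Finset.mem_univ _)
    · intro s _
      rw [Int.cast_zero, zero_smul]
  refine ⟨fun S hS => ?_, fun S => ?_, fun σ => ?_⟩
  · have h3 : m (Th j S) = 0 := by
      by_contra h
      exact hS (hsub S h)
    have h4 : m (Th j Sᶜ) = 0 := by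
      by_contra h
      apply hS
      have h5 := compl_PX j X0 _ (hsub Sᶜ h)
      rwa [compl_compl] at h5
    change m (Th j S) - m (Th j Sᶜ) = 0
    rw [h3, h4, sub_zero]
  · change m (Th j Sᶜ) - m (Th j Sᶜᶜ) = -(m (Th j S) - m (Th j Sᶜ))
    rw [compl_compl]
    ring
  · have h3 : ∑ S, m (Th j Sᶜ) * sg S σ = -∑ S, m (Th j S) * sg S σ := by
      rw [← Finset.sum_neg_distrib, ← Equiv.sum_comp (Equiv.mk compl compl (compl_compl ·)
        (compl_compl ·) : Set (L ≃ₐ[ℚ] L) ≃ Set (L ≃ₐ[ℚ] L))]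
      refine Finset.sum_congr rfl fun S _ => ?_
      change m (Th j Sᶜᶜ) * sg Sᶜ σ = _
      rw [compl_compl, sg_compl]
      ring
    have h4 : ∀ S, pb j m S * sg S σ = m (Th j S) * sg S σ - m (Th j Sᶜ) * sg S σ := by
      intro S
      change (m (Th j S) - m (Th j Sᶜ)) * sg S σ = _
      ring
    rw [Finset.sum_congr rfl fun S _ => h4 S, Finset.sum_sub_distrib, h3, hrel]
    ring

end ker

/-! ### The relations of the orbits for a transitive system -/

theorem card_le_twelve (A : CMPair) {δ : A.E} {d : ℚ} (hd : 0 < d) (hδ : δ * δ = -(d : A.E))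
    (hb : ∀ w, {φ ∈ A.Φ | φ δ = w}.encard ≤ 3) : finrank ℚ A.E ≤ 12 := by
  classical
  have h1 := card_type A.isCMType
  rw [finrank_fintype_fun_eq_card] at h1
  have h2 : A.Φ ⊆ {φ ∈ A.Φ | φ δ = zz d} ∪ {φ ∈ A.Φ | φ δ = -zz d} := by
    intro φ hφ
    have h3 : φ δ * φ δ = zz d * zz d := by
      rw [← map_mul, hδ, map_neg, map_ratCast, zz_sq hd]
    rcases mul_self_eq_mul_self_iff.1 h3 with h4 | h4
    · exact Or.inl ⟨hφ, h4⟩
    · exact Or.inr ⟨hφ, h4⟩
  have h3 : A.Φ.encard ≤ 6 := by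
    refine (Set.encard_le_encard h2).trans ((Set.encard_union_le _ _).trans ?_)
    refine (add_le_add (hb _) (hb _)).trans ?_
    norm_num
  have h4 : A.Φ.encard = Fintype.card A.Φ := by
    rw [Set.encard_eq_coe_toFinset_card, Set.toFinset_card]
  rw [h4] at h3
  have h5 : Fintype.card A.Φ ≤ 6 := by exact_mod_cast h3
  omega

theorem CC.orbit (A : CMPair) (j : L →+* ℂ) (hinj : Function.Injective (hs A j)) {δ : A.E} {d : ℚ}
    (hd : 0 < d) (hδ : δ * δ = -(d : A.E)) (z : ℂ)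
    (hb : ∀ w, {φ ∈ A.Φ | φ δ = w}.encard ≤ 3) (φ1 : A.E →+* L) {D : Prop}
    (hD : finrank ℚ A.E ≤ 12 → D) : CC (hs A j φ1) D (uF (OO A j δ z)) := by
  classical
  rcases (OO A j δ z).eq_empty_or_nonempty with h0 | ⟨S, hS⟩
  · have h1 : uF (OO A j δ z) = 0 := by
      rw [h0]
      funext S
      unfold uF
      simp
    rw [h1]
    exact CC.zero
  · obtain ⟨φ0, h1, -⟩ := (mem_OO A j δ z).1 hS
    have hx : φ0 δ * φ0 δ = -(d : L) := by
      rw [← map_mul, hδ, map_neg, map_ratCast]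
    have hx1 : φ1 δ * φ1 δ = -(d : L) := by
      rw [← map_mul, hδ, map_neg, map_ratCast]
    have hN := isImag_stb' hd hx
    have hx0 : φ0 δ ≠ 0 := by
      intro h
      rw [h, mul_zero] at hx
      have h2 : (d : L) = 0 := neg_eq_zero.1 hx.symm
      exact hd.ne' (Rat.cast_eq_zero.1 h2)
    have hxn : φ0 δ ≠ -φ0 δ := fun h => hx0 (self_eq_neg.1 h)
    have hor : φ1 δ = φ0 δ ∨ φ1 δ = -φ0 δ := mul_self_eq_mul_self_iff.1 (hx1.trans hx.symm)
    have m1 : ∀ τ : L ≃ₐ[ℚ] L, tr τ (hs A j φ1) ∈ OO A j δ z ↔ τ (φ1 δ) = φ0 δ := by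
      intro τ
      rw [tr_hs', mem_OO]
      constructor
      · rintro ⟨φ, h2, h3⟩
        have h4 := hinj h3
        rw [h4] at h2
        exact j.injective (h2.trans h1.symm)
      · intro h
        refine ⟨_, ?_, rfl⟩
        change j (τ (φ1 δ)) = z
        rw [h, h1]
    have hcc : Pool.Agent.W547.KB.cc L (φ0 δ) = -φ0 δ := by
      rcases sqrt_or hx (Pool.Agent.W547.KB.cc L) with h | h
      · exact absurd h hN.1
      · exact h
    have m2 : ∀ τ : L ≃ₐ[ℚ] L, (tr τ (hs A j φ1))ᶜ ∈ OO A j δ z ↔ τ (φ1 δ) = -φ0 δ := by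
      intro τ
      have h2 : (tr τ (hs A j φ1))ᶜ = tr (Pool.Agent.W547.KB.cc L * τ) (hs A j φ1) := by
        rw [← tr_tr, tr_hs', tr_cc j (isHalf_hs A j _)]
      rw [h2, m1]
      change Pool.Agent.W547.KB.cc L (τ (φ1 δ)) = φ0 δ ↔ _
      constructor
      · intro h
        rw [← hcc, ← h]
        rcases sqrt_or hx1 τ with h3 | h3 <;> rcases hor with h4 | h4 <;> rw [h3, h4] <;>
          simp [hcc]
      · intro h
        rw [h, map_neg, hcc, neg_neg]
    refine ⟨Pi.single ⟨stb' (φ0 δ), hN⟩ (if φ1 δ = φ0 δ then 1 else -1), fun τ => ?_,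
      fun N hN' => ?_⟩
    · rw [Finset.sum_eq_single ⟨stb' (φ0 δ), hN⟩]
      · rw [Pi.single_eq_same]
        unfold uF sg
        simp only [m1, m2]
        change (if τ (φ1 δ) = φ0 δ then (1 : ℤ) else 0) - (if τ (φ1 δ) = -φ0 δ then 1 else 0) =
          (if φ1 δ = φ0 δ then 1 else -1) * (if τ (φ0 δ) = φ0 δ then 1 else -1)
        rcases hor with h3 | h3
        · rw [h3]
          rcases sqrt_or hx τ with h4 | h4
          · rw [h4, if_pos rfl, if_neg hxn, if_pos rfl]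
            norm_num
          · rw [h4, if_neg (Ne.symm hxn), if_pos rfl, if_pos rfl]
            norm_num [Ne.symm hxn]
        · rw [h3, map_neg]
          rcases sqrt_or hx τ with h4 | h4
          · rw [h4, if_neg (Ne.symm hxn), if_pos rfl, if_pos rfl]
            norm_num [Ne.symm hxn]
          · rw [h4, neg_neg, if_pos rfl, if_neg hxn, if_neg (Ne.symm hxn)]
            norm_num
      · intro M _ hM
        rw [Pi.single_eq_of_ne hM, zero_mul]
      · intro h
        exact absurd (Finset.mem_univ _) h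
    · have h2 : N = ⟨stb' (φ0 δ), hN⟩ := by
        by_contra h
        exact hN' (Pi.single_eq_of_ne h _)
      refine ⟨fun τ hτ => ?_, hD (card_le_twelve A hd hδ hb)⟩
      rw [h2]
      rw [tr_hs'] at hτ
      have h3 := RingHom.congr_fun (hinj hτ) δ
      change τ (φ1 δ) = φ1 δ at h3
      change τ (φ0 δ) = φ0 δ
      rcases hor with h4 | h4
      · rwa [h4] at h3
      · rw [h4, map_neg, neg_inj] at h3
        exact h3

/-! ### Relations of rank one -/

section one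

variable (j : L →+* ℂ) {R : Set (Set (L ≃ₐ[ℚ] L))} (hH : ∀ S ∈ R, IsHalf S)
  (hst : ∀ (τ : L ≃ₐ[ℚ] L), ∀ S ∈ R, tr τ S ∈ R) {S0 : Set (L ≃ₐ[ℚ] L)} (hS0 : S0 ∈ R)
  (htr : ∀ S ∈ R, ∃ τ : L ≃ₐ[ℚ] L, tr τ S0 = S)

theorem zero_of_rank {R : Set (Set (L ≃ₐ[ℚ] L))} (h : finrank ℤ (Lam R) = 0) : ∀ a ∈ Lam R, a = 0 := by
  intro a ha
  have h1 : (Lam R) = ⊥ := Submodule.finrank_eq_zero.1 h
  rw [h1] at ha
  exact (Submodule.mem_bot ℤ).1 ha

theorem exists_gen {R : Set (Set (L ≃ₐ[ℚ] L))} (h : finrank ℤ (Lam R) = 1) :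
    ∃ u ∈ Lam R, u ≠ 0 ∧ ∀ a ∈ Lam R, ∃ c : ℤ, a = c • u := by
  let b : Basis Unit ℤ (Lam R) := (finrank_eq_one_iff Unit).1 h |>.some
  refine ⟨(b ()).1, (b ()).2, fun h1 => b.ne_zero () (Subtype.ext h1), fun a ha => ?_⟩
  have h1 := b.sum_repr ⟨a, ha⟩
  rw [Fintype.sum_unique] at h1
  exact ⟨_, (congrArg Subtype.val h1).symm⟩

include j hH hst hS0 htr in
theorem exists_N (h : finrank ℤ (Lam R) = 1) :
    ∃ N : Subgroup (L ≃ₐ[ℚ] L), IsImag N ∧ (∀ τ, tr τ S0 = S0 → τ ∈ N) ∧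
      uF (ON S0 N) ∈ Lam R ∧ ∀ a ∈ Lam R, ∃ c : ℤ, a = c • uF (ON S0 N) := by
  classical
  have hc : ∀ S ∈ R, Sᶜ ∈ R := by
    intro S hS
    rw [← tr_cc j (hH S hS)]
    exact hst _ S hS
  obtain ⟨u, hu, hu0, hgen⟩ := exists_gen h
  have hact : ∀ τ : L ≃ₐ[ℚ] L, ∃ c : ℤ, ∀ S, u (tr τ S) = c * u S := by
    intro τ
    obtain ⟨c, h1⟩ := hgen _ (tr_mem_Lam hst hu τ)
    exact ⟨c, fun S => congrFun h1 S⟩
  choose c hcτ using hact
  have huS : u S0 ≠ 0 := by
    intro h1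
    apply hu0
    funext S
    by_cases hS : S ∈ R
    · obtain ⟨τ, rfl⟩ := htr S hS
      rw [hcτ, h1, mul_zero]
      rfl
    · exact hu.1 S hS
  have hc1 : ∀ τ, c τ = 1 ∨ c τ = -1 := by
    intro τ
    have h1 := hcτ τ (tr τ⁻¹ S0)
    rw [tr_tr_inv, hcτ τ⁻¹ S0] at h1
    have h2 : c τ * c τ⁻¹ = 1 := by
      apply mul_right_cancel₀ huS
      rw [one_mul]
      linarith
    exact Int.isUnit_iff.1 (IsUnit.of_mul_eq_one _ h2)
  have hk : ∀ S, u S0 * (u S / u S0) = u S := by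
    intro S
    by_cases hS : S ∈ R
    · obtain ⟨τ, rfl⟩ := htr S hS
      rw [hcτ, Int.mul_ediv_cancel _ huS, mul_comm]
    · rw [hu.1 S hS, Int.zero_ediv, mul_zero]
  have hb : (fun S => u S / u S0) ∈ Lam R := by
    refine ⟨fun S hS => ?_, fun S => ?_, fun σ => ?_⟩
    · change u S / u S0 = 0
      rw [hu.1 S hS, Int.zero_ediv]
    · change u Sᶜ / u S0 = -(u S / u S0)
      apply mul_left_cancel₀ huS
      rw [hk, mul_neg, hk, hu.2.1]
    · apply mul_left_cancel₀ huS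
      rw [mul_zero, Finset.mul_sum, ← hu.2.2 σ]
      refine Finset.sum_congr rfl fun S _ => ?_
      rw [← mul_assoc, hk]
  obtain ⟨c0, h0⟩ := hgen _ hb
  have hpm : u S0 = 1 ∨ u S0 = -1 := by
    have h1 := congrFun h0 S0
    change u S0 / u S0 = c0 * u S0 at h1
    rw [Int.ediv_self huS] at h1
    exact Int.isUnit_iff.1 (IsUnit.of_mul_eq_one c0 (by rw [mul_comm]; exact h1.symm))
  have hmem : ∀ τ, τ ∈ stv u ↔ c τ = 1 := by
    intro τ
    constructor
    · intro h1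
      have h2 := h1 S0
      rw [hcτ] at h2
      apply mul_right_cancel₀ huS
      rw [h2, one_mul]
    · intro h1 S
      rw [hcτ, h1, one_mul]
  have hN : IsImag (stv u) := by
    refine ⟨cc_notMem_stv hH hst j hu hu0, fun τ hτ S => ?_⟩
    rw [← tr_tr, tr_cc_neg hH hst j hu, hcτ]
    rcases hc1 τ with h1 | h1
    · exact absurd ((hmem τ).2 h1) hτ
    · rw [h1]
      ring
  have hstab : ∀ τ, tr τ S0 = S0 → τ ∈ stv u := by
    intro τ hτ
    rw [hmem]
    have h1 := hcτ τ S0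
    rw [hτ] at h1
    apply mul_right_cancel₀ huS
    rw [← h1, one_mul]
  have hueq : u = u S0 • uF (ON S0 (stv u)) := by
    funext S
    rw [Pi.smul_apply, smul_eq_mul]
    by_cases hS : S ∈ R
    · obtain ⟨τ, rfl⟩ := htr S hS
      rw [uF_ON j hH hS0 hN hstab, hcτ, mul_comm]
      congr 1
      unfold sg
      by_cases h1 : τ ∈ stv u
      · rw [if_pos (show τ ∈ sN (stv u) from h1)]
        exact (hmem τ).1 h1
      · rw [if_neg (show τ ∉ sN (stv u) from h1)]
        rcases hc1 τ with h2 | h2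
        · exact absurd ((hmem τ).2 h2) h1
        · exact h2
    · rw [hu.1 S hS, uF_off hH hst hS0 hc hS, mul_zero]
  have hu' : uF (ON S0 (stv u)) = u S0 • u := by
    nth_rewrite 3 [hueq]
    rw [smul_smul]
    rcases hpm with h1 | h1 <;> rw [h1] <;> simp
  refine ⟨stv u, hN, hstab, ?_, fun a ha => ?_⟩
  · rw [hu']
    exact Submodule.smul_mem _ _ hu
  · obtain ⟨c', h1⟩ := hgen a ha
    refine ⟨c' * u S0, ?_⟩
    rw [mul_smul, ← hueq]
    exact h1

end one

theorem FF_card (A : CMPair) (j : L →+* ℂ)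
    (hjA : ∀ ψ : A.E →+* ℂ, ∃ φ : A.E →+* L, j.comp φ = ψ)
    (hinj : Function.Injective (hs A j)) (δ : A.E) {z : ℂ} (hz : starRingEnd ℂ z = -z) :
    FF (OO A j δ z) 1 = ({φ ∈ A.Φ | φ δ = z}.ncard : ℤ) - {φ ∈ A.Φ | φ δ = -z}.ncard := by
  classical
  let p : Finset (A.E →+* L) := Finset.univ.filter fun φ => j (φ δ) = z ∧ j.comp φ ∈ A.Φ
  let q : Finset (A.E →+* L) := Finset.univ.filter fun φ => j (φ δ) = z ∧ ¬ j.comp φ ∈ A.Φ
  have hF : FF (OO A j δ z) 1 = (p.card : ℤ) - q.card := by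
    unfold FF OO
    rw [Finset.sum_image (fun x _ y _ h => hinj h)]
    have h1 : ∀ φ : A.E →+* L, sg (hs A j φ) 1 = if j.comp φ ∈ A.Φ then 1 else -1 := by
      intro φ
      unfold sg
      have h2 : (1 : L ≃ₐ[ℚ] L) ∈ hs A j φ ↔ j.comp φ ∈ A.Φ := by
        change j.comp ((1 : L ≃ₐ[ℚ] L) • φ) ∈ A.Φ ↔ _
        rw [one_smul]
      simp only [h2]
    rw [Finset.sum_congr rfl fun φ _ => h1 φ, Finset.sum_ite, Finset.sum_const, Finset.sum_const,
      Finset.filter_filter, Finset.filter_filter]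
    simp only [nsmul_eq_mul, mul_one, mul_neg]
    ring
  have hjinj : Function.Injective fun φ : A.E →+* L => j.comp φ := fun φ φ' h =>
    RingHom.ext fun x => j.injective (congrArg (fun f : A.E →+* ℂ => f x) h)
  have hp : {φ ∈ A.Φ | φ δ = z}.ncard = p.card := by
    have h3 : {φ ∈ A.Φ | φ δ = z} = ((p.image fun φ => j.comp φ : Finset (A.E →+* ℂ)) :
        Set (A.E →+* ℂ)) := by
      ext ψ
      rw [Finset.mem_coe, Finset.mem_image]
      constructor
      · rintro ⟨h4, h5⟩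
        obtain ⟨φ, rfl⟩ := hjA ψ
        exact ⟨φ, Finset.mem_filter.2 ⟨Finset.mem_univ _, h5, h4⟩, rfl⟩
      · rintro ⟨φ, h4, rfl⟩
        have h5 := (Finset.mem_filter.1 h4).2
        exact ⟨h5.2, h5.1⟩
    rw [h3, Set.ncard_coe_finset, Finset.card_image_of_injective _ hjinj]
  have hq : {φ ∈ A.Φ | φ δ = -z}.ncard = q.card := by
    have h3 : {φ ∈ A.Φ | φ δ = -z} =
        ((q.image fun φ => ComplexEmbedding.conjugate (j.comp φ) : Finset (A.E →+* ℂ)) :
        Set (A.E →+* ℂ)) := by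
      ext ψ
      rw [Finset.mem_coe, Finset.mem_image]
      constructor
      · rintro ⟨h4, h5⟩
        obtain ⟨φ, hφ⟩ := hjA (ComplexEmbedding.conjugate ψ)
        refine ⟨φ, Finset.mem_filter.2 ⟨Finset.mem_univ _, ?_, ?_⟩, ?_⟩
        · have h6 : j (φ δ) = ComplexEmbedding.conjugate ψ δ := congrArg (fun f => f δ) hφ
          rw [h6]
          change starRingEnd ℂ (ψ δ) = z
          rw [h5, map_neg, hz, neg_neg]
        · rw [hφ]
          exact (A.isCMType ψ).1 h4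
        · rw [hφ]
          exact star_star ψ
      · rintro ⟨φ, h4, rfl⟩
        have h5 := (Finset.mem_filter.1 h4).2
        refine ⟨?_, ?_⟩
        · by_contra h6
          exact h5.2 ((A.isCMType (j.comp φ)).2 h6)
        · change starRingEnd ℂ (j (φ δ)) = -z
          rw [h5.1, hz]
    rw [h3, Set.ncard_coe_finset,
      Finset.card_image_of_injective _ (fun φ φ' h => hjinj (star_injective h))]
  rw [hF, hp, hq]


/-! ### Simple abelian varieties -/

section simple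

theorem PX_single (P : CMPair) (j : L →+* ℂ) :
    PX j (Pool.Agent.W547.KB.single P) = Set.range (hs P j) := by
  ext S
  constructor
  · rintro ⟨x, rfl⟩
    exact ⟨x.2, rfl⟩
  · rintro ⟨φ, rfl⟩
    exact ⟨⟨(), φ⟩, rfl⟩

theorem pb_zsmul (j : L →+* ℂ) (c : ℤ) (m : ((ℂ ≃+* ℂ) → ℚ) →₀ ℤ) : pb j (c • m) = c • pb j m := by
  funext S
  change (c • m) _ - (c • m) _ = c • (m _ - m _)
  rw [Finsupp.smul_apply, Finsupp.smul_apply, smul_sub]

theorem orbit_supp {X : AV} {A : CMPair} (hA : IsCMFactor A X) (δ : A.E) (z : ℂ)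
    {s : (ℂ ≃+* ℂ) → ℚ} (h : (orbit A δ z) s ≠ 0) : s ∈ SV X := by
  classical
  by_contra hs
  apply h
  unfold orbit
  rw [Finsupp.finsetSum_apply]
  refine Finset.sum_eq_zero fun φ _ => ?_
  by_cases h1 : φ δ = z
  · rw [if_pos h1, Finsupp.single_eq_of_ne]
    rintro rfl
    exact hs ⟨A, hA, φ, rfl⟩
  · rw [if_neg h1]
    rfl

/-- If the relations of a transitive system have rank one and the degree is at most twelve then they
come from determinants. -/
theorem exists_root' (P : CMPair) (j : L →+* ℂ)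
    (hj : ∀ ψ : P.E →+* ℂ, ∃ φ : P.E →+* L, j.comp φ = ψ) (hinj : Function.Injective (hs P j))
    (φ0 : P.E →+* L) {N : Subgroup (L ≃ₐ[ℚ] L)} (hN : IsImag N)
    (hstab : ∀ τ, tr τ (hs P j φ0) = hs P j φ0 → τ ∈ N)
    (hΛ : uF (ON (hs P j φ0) N) ∈ Lam (Set.range (hs P j))) (h12 : finrank ℚ P.E ≤ 12) :
    ∃ (δ : P.E) (d : ℚ) (z : ℂ), 0 < d ∧ δ * δ = -(d : P.E) ∧
      (∀ w, {φ ∈ P.Φ | φ δ = w}.encard ≤ 3) ∧ uF (OO P j δ z) = uF (ON (hs P j φ0) N) := by
  classical
  obtain ⟨x, d, hd, hx, hfix⟩ := Pool.Agent.W547.LD.exists_sqrt j hN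
  obtain ⟨hcc, him⟩ := Pool.Agent.W547.LD.cc_sqrt j hd hx
  have hd' : (0 : ℚ) < (d : ℚ) := by exact_mod_cast hd
  -- the root lies in the image of the field
  have hmem : x ∈ (RingHom.equivRatAlgHom P.E L φ0).fieldRange := by
    rw [← IsGalois.fixedField_fixingSubgroup (RingHom.equivRatAlgHom P.E L φ0).fieldRange,
      IntermediateField.mem_fixedField_iff]
    intro τ hτ
    rw [← stb_eq_fixing P j hinj φ0] at hτ
    exact hfix τ (hstab τ hτ)
  obtain ⟨δ, hδ⟩ := hmem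
  have hδ' : φ0 δ = x := hδ
  have hδ2 : δ * δ = -((d : ℚ) : P.E) := by
    apply φ0.injective
    rw [map_mul, hδ', hx, map_neg, map_ratCast, Rat.cast_natCast]
  have hz : starRingEnd ℂ (j x) = -j x := by
    rw [← emb_cc, hcc, map_neg]
  have hx0 : x ≠ 0 := by
    rintro rfl
    rw [map_zero] at him
    exact him rfl
  have hfix' : ∀ τ, τ x = x ↔ τ ∈ N := by
    intro τ
    refine ⟨fun h => ?_, fun h => hfix τ h⟩
    by_contra hcon
    have h1 := hfix _ (hN.2 τ hcon)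
    change Pool.Agent.W547.KB.cc L (τ x) = x at h1
    rw [h, hcc] at h1
    exact hx0 (self_eq_neg.1 h1.symm)
  have hOO : OO P j δ (j x) = ON (hs P j φ0) N := by
    ext S
    rw [mem_OO, mem_ON]
    constructor
    · rintro ⟨φ, h1, rfl⟩
      obtain ⟨g, rfl⟩ := exists_smul P φ0 φ
      refine ⟨g, ?_, tr_hs' P j g φ0⟩
      rw [← hfix']
      have h2 := j.injective h1
      change g (φ0 δ) = x at h2
      rwa [hδ'] at h2
    · rintro ⟨g, h1, rfl⟩
      refine ⟨g • φ0, ?_, (tr_hs' P j g φ0).symm⟩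
      change j (g (φ0 δ)) = j x
      rw [hδ', hfix g h1]
  refine ⟨δ, d, j x, hd', hδ2, ?_, by rw [hOO]⟩
  -- the multiplicities
  have hF : FF (OO P j δ (j x)) 1 = 0 := by
    rw [hOO]
    have h1 := hΛ.2.2 1
    rw [sum_uF] at h1
    omega
  rw [FF_card P j hj hinj δ hz] at hF
  have hval : ∀ φ : P.E →+* ℂ, φ δ = j x ∨ φ δ = -j x := by
    intro φ
    have h1 : φ δ * φ δ = j x * j x := by
      rw [← map_mul, hδ2, ← map_mul, hx, map_neg, map_neg, map_ratCast, map_natCast,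
        Rat.cast_natCast]
    exact mul_self_eq_mul_self_iff.1 h1
  have hne : j x ≠ -j x := fun h => hx0 ((map_eq_zero j).1 (self_eq_neg.1 h))
  have hsum : {φ ∈ P.Φ | φ δ = j x}.ncard + {φ ∈ P.Φ | φ δ = -j x}.ncard ≤ 6 := by
    have h1 : Disjoint {φ ∈ P.Φ | φ δ = j x} {φ ∈ P.Φ | φ δ = -j x} := by
      rw [Set.disjoint_left]
      rintro φ ⟨-, h2⟩ ⟨-, h3⟩
      exact hne (h2.symm.trans h3)
    rw [← Set.ncard_union_eq h1 (Set.toFinite _) (Set.toFinite _)]
    have h2 : {φ ∈ P.Φ | φ δ = j x} ∪ {φ ∈ P.Φ | φ δ = -j x} ⊆ P.Φ := by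
      rintro φ (h | h)
      · exact h.1
      · exact h.1
    refine (Set.ncard_le_ncard h2 (Set.toFinite _)).trans ?_
    have h3 := card_type P.isCMType
    rw [finrank_fintype_fun_eq_card] at h3
    rw [← Nat.card_coe_set_eq, Nat.card_eq_fintype_card]
    omega
  intro w
  rw [← (Set.toFinite {φ ∈ P.Φ | φ δ = w}).cast_ncard_eq]
  have h4 : {φ ∈ P.Φ | φ δ = w}.ncard ≤ 3 := by
    by_cases h5 : w = j x
    · rw [h5]
      omega
    · by_cases h6 : w = -j x
      · rw [h6]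
        omega
      · have h7 : {φ ∈ P.Φ | φ δ = w} = ∅ := by
          rw [Set.eq_empty_iff_forall_notMem]
          rintro φ ⟨-, h8⟩
          rcases hval φ with h9 | h9
          · exact h5 (h8.symm.trans h9)
          · exact h6 (h8.symm.trans h9)
        rw [h7, Set.ncard_empty]
        omega
  exact_mod_cast h4

/-- **Simple abelian varieties with complex multiplication**: all relations between the sign vectors
come from determinants with multiplicities at most three if and only if the defect is zero, or it is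
one and the dimension is at most six. -/
theorem simple_iff (X : AV) (hs0 : IsSimple X) (hc0 : HasCMult X) :
    (∀ m, IsRelation X m → m ∈ Gen X 3) ↔
      defect X = 0 ∨ (defect X = 1 ∧ finrank ℚ X.H ≤ 12) := by
  classical
  obtain ⟨P, hP⟩ := exists_type hs0 hc0
  have hprim : Primitive P := primitive_of_simple hs0 hP
  obtain ⟨e, Θ, hΘ⟩ := hP
  let X0 : CMAV := Pool.Agent.W547.KB.single P
  let e' : X.H ≃ₗ[ℚ] X0.H1 := e.trans (LinearEquiv.funUnique Unit ℚ P.E).symm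
  let Θ' : X.T ≃ₗ[ℂ] X0.Tan := Θ.trans (LinearEquiv.funUnique Unit ℂ (P.Φ → ℂ)).symm
  have hΘ' : ∀ v, Θ' (X.per v) = X0.per (e' v) := by
    intro v
    funext i
    funext φ
    exact hΘ v φ
  have hprim' : ∀ i, Primitive (X0.factor i) := fun _ => hprim
  have h1 : ∀ i, IsCMFactor (X0.factor i) X := fun i => isCMFactor_factor hprim' e' Θ' hΘ' i
  have h2 : ∀ A : CMPair, IsCMFactor A X → ∃ i, SameType A (X0.factor i) :=
    fun A hA => exists_sameType hprim' e' Θ' hΘ' hA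
  obtain ⟨L, _, _, _, _, j, hj⟩ := exists_cmL X0
  have hjP : ∀ ψ : P.E →+* ℂ, ∃ φ : P.E →+* L, j.comp φ = ψ := fun ψ => hj () ψ
  have hdef := defect_eq_gen j h1 h2 hj
  have hPX : PX j X0 = Set.range (hs P j) := PX_single P j
  have hinj := inj_of_primitive P j hprim
  have hfin : finrank ℚ X.H = finrank ℚ P.E := e.finrank_eq
  obtain ⟨ψ0⟩ : Nonempty (P.E →+* ℂ) := inferInstance
  obtain ⟨φ0, -⟩ := hjP ψ0
  have hS0 : hs P j φ0 ∈ PX j X0 := by
    rw [hPX]
    exact ⟨φ0, rfl⟩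
  have htr : ∀ S ∈ PX j X0, ∃ τ : L ≃ₐ[ℚ] L, tr τ (hs P j φ0) = S := by
    intro S hS
    rw [hPX] at hS
    obtain ⟨φ, rfl⟩ := hS
    obtain ⟨g, rfl⟩ := exists_smul P φ0 φ
    exact ⟨g, tr_hs' P j g φ0⟩
  have hH := isHalf_PX j X0
  have hst := tr_PX j X0
  have hcm := compl_PX j X0
  constructor
  · intro h
    by_cases h0 : ∃ a ∈ Lam (PX j X0), a ≠ 0
    · right
      have key : ∀ a ∈ Lam (PX j X0), CC (hs P j φ0) (finrank ℚ X.H ≤ 12) a := by
        intro a ha
        have h3 : ∀ m ∈ Gen X 3, CC (hs P j φ0) (finrank ℚ X.H ≤ 12) (pb j m) := by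
          intro m hm
          unfold Gen at hm
          induction hm using AddSubgroup.closure_induction with
          | mem m hm =>
            rcases hm with ⟨s, -, rfl⟩ | ⟨A, hA, δ, d, z, hd, hδ, hb, rfl⟩
            · rw [pb_pair]
              exact CC.zero
            · obtain ⟨i, hi⟩ := h2 A hA
              have hinjA := inj_of_primitive A j hA.1
              rw [pb_orbit A j (emb_of_same' j (hj i) hi) hinjA]
              obtain ⟨f, hf⟩ := hi
              have h4 : hs A j (φ0.comp (f : A.E →+* P.E)) = hs P j φ0 := by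
                ext σ
                change j.comp (σ • (φ0.comp (f : A.E →+* P.E))) ∈ A.Φ ↔ j.comp (σ • φ0) ∈ P.Φ
                exact (hf (j.comp (σ • φ0))).symm
              have h5 := CC.orbit A j hinjA hd hδ z hb (φ0.comp (f : A.E →+* P.E))
                (D := finrank ℚ X.H ≤ 12) (fun h6 => by
                  rw [hfin]
                  refine le_trans (le_of_eq ?_) h6
                  let f' : A.E ≃ₗ[ℚ] P.E := LinearEquiv.ofBijective
                    (RingHom.equivRatAlgHom A.E P.E (f : A.E →+* P.E)).toLinearMap f.bijective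
                  exact f'.finrank_eq.symm)
              rwa [h4] at h5
          | zero =>
            rw [pb_zero]
            exact CC.zero
          | add a b _ _ ha hb =>
            rw [pb_add]
            exact ha.add hb
          | neg a _ ha =>
            rw [pb_neg]
            exact ha.neg
        have h4 := h3 _ (h _ (isRelation_up j h1 h2 hj ha))
        rwa [pb_up j ha.2.1] at h4
      have h3 := exists_one j hH hst hS0 htr hcm key h0
      rw [hdef]
      exact h3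
    · left
      push Not at h0
      have h3 : Lam (PX j X0) = ⊥ := by
        rw [Submodule.eq_bot_iff]
        exact h0
      rw [hdef, h3, finrank_bot]
  · rintro (h0 | ⟨h0, h12⟩) m hm
    · rw [hdef] at h0
      exact mem_gen_of_pb j h1 h2 hj hm.1 (zero_of_rank h0 _ (pb_mem j h1 h2 hj hm))
    · rw [hdef] at h0
      obtain ⟨N, hN, hstab, hΛ, hgen⟩ := exists_N j hH hst hS0 htr h0
      rw [hPX] at hΛ
      obtain ⟨δ, d, z, hd, hδ, hb, hu⟩ := exists_root' P j hjP hinj φ0 hN hstab hΛ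
        (by rwa [← hfin])
      obtain ⟨c, hc⟩ := hgen _ (pb_mem j h1 h2 hj hm)
      have hq : orbit P δ z ∈ Gen X 3 :=
        AddSubgroup.subset_closure (Or.inr ⟨P, h1 (), δ, d, z, hd, hδ, hb, rfl⟩)
      have h3 : m - c • orbit P δ z ∈ Gen X 3 := by
        refine mem_gen_of_pb j h1 h2 hj (fun s hs => ?_) ?_
        · by_contra hcon
          apply hs
          have h4 : m s = 0 := by
            by_contra h5
            exact hcon (hm.1 s h5)
          have h5 : (orbit P δ z) s = 0 := by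
            by_contra h6
            exact hcon (orbit_supp (h1 ()) δ z h6)
          change m s - c • (orbit P δ z) s = 0
          rw [h4, h5, smul_zero, sub_zero]
        · rw [sub_eq_add_neg, pb_add, pb_neg, pb_zsmul, pb_orbit P j hjP hinj, hu, hc, add_neg_cancel]
      have h4 := (Gen X 3).add_mem h3 ((Gen X 3).zsmul_mem hq c)
      rwa [sub_add_cancel] at h4

end simple

end

end Pool.Agent.K4H21.LC
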