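import Mathlib
import Pool.Agent.K4H21.LC.Obs

/-!
# Stability of the fixed forms

The forms which are fixed by an operator with complex coefficients are stable under the operations
with which the classes of the system are generated.
-/

set_option linter.unusedSectionVars false
set_option linter.unusedVariables false

namespace Pool.Agent.K4H21.LC

open Module

noncomputable section

section act

variable {V V' : Type*} [AddCommGroup V] [Module ℚ V] [AddCommGroup V'] [Module ℚ V']
  {J : Type} [Fintype J] {κ κ' : Type} [Fintype κ] [DecidableEq κ] [Fintype κ'] [DecidableEq κ']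
  {c : J → ℂ} {A : J → V →ₗ[ℚ] V}

theorem fix_unit [IsEmpty κ] (f : V [⋀^κ]→ₗ[ℚ] ℚ) : Fix c A f := by
  intro v
  unfold av
  rw [Fintype.sum_unique, Finset.univ_eq_empty, Finset.prod_empty, one_mul]
  congr 2
  funext k
  exact isEmptyElim k

theorem fix_zero : Fix c A (0 : V [⋀^κ]→ₗ[ℚ] ℚ) := by
  intro v
  unfold av
  simp

theorem fix_add {f g : V [⋀^κ]→ₗ[ℚ] ℚ} (hf : Fix c A f) (hg : Fix c A g) : Fix c A (f + g) := by
  intro v
  have h1 := hf v
  have h2 := hg v
  unfold av at *
  rw [AlternatingMap.add_apply, Rat.cast_add, ← h1, ← h2, ← Finset.sum_add_distrib]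
  refine Finset.sum_congr rfl fun r _ => ?_
  rw [AlternatingMap.add_apply, Rat.cast_add, mul_add]

theorem fix_smul {f : V [⋀^κ]→ₗ[ℚ] ℚ} (q : ℚ) (hf : Fix c A f) : Fix c A (q • f) := by
  intro v
  have h1 := hf v
  unfold av at *
  rw [AlternatingMap.smul_apply, smul_eq_mul, Rat.cast_mul, ← h1, Finset.mul_sum]
  refine Finset.sum_congr rfl fun r _ => ?_
  rw [AlternatingMap.smul_apply, smul_eq_mul, Rat.cast_mul]
  ring

theorem fix_reindex (e : κ ≃ κ') {f : V [⋀^κ]→ₗ[ℚ] ℚ} (hf : Fix c A f) :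
    Fix c A (f.domDomCongr e) := by
  intro v
  rw [AlternatingMap.domDomCongr_apply, ← hf (v ∘ e)]
  unfold av
  refine Fintype.sum_equiv (Equiv.arrowCongr e.symm (Equiv.refl J)) _ _ fun r => ?_
  rw [AlternatingMap.domDomCongr_apply, ← e.prod_comp (fun k => c (r k))]
  rfl

theorem fix_comp {A' : J → V' →ₗ[ℚ] V'} (h : V' →ₗ[ℚ] V) (hh : ∀ r v, h (A' r v) = A r (h v))
    {f : V [⋀^κ]→ₗ[ℚ] ℚ} (hf : Fix c A f) : Fix c A' (f.compLinearMap h) := by
  intro v
  rw [AlternatingMap.compLinearMap_apply]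
  refine Eq.trans ?_ (hf fun k => h (v k))
  unfold av
  refine Finset.sum_congr rfl fun r _ => ?_
  rw [AlternatingMap.compLinearMap_apply]
  congr 3
  funext k
  exact hh _ _

/-- The product of two fixed forms is fixed. -/
theorem fix_cup {f : V [⋀^κ]→ₗ[ℚ] ℚ} {g : V [⋀^κ']→ₗ[ℚ] ℚ} (h : V [⋀^κ ⊕ κ']→ₗ[ℚ] ℚ)
    (hh : ∀ v : κ ⊕ κ' → V, h v = ∑ σ : Equiv.Perm (κ ⊕ κ'), ((Equiv.Perm.sign σ : ℤ) : ℚ) *
      (f (fun k => v (σ (Sum.inl k))) * g (fun k => v (σ (Sum.inr k)))))
    (hf : Fix c A f) (hg : Fix c A g) : Fix c A h := by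
  intro v
  unfold av
  have h1 : ∀ r : κ ⊕ κ' → J, (∏ k, c (r k)) * ((h fun k => A (r k) (v k) : ℚ) : ℂ) =
      ∑ σ : Equiv.Perm (κ ⊕ κ'), ((Equiv.Perm.sign σ : ℤ) : ℂ) * ((∏ k, c (r (σ k))) *
        (((f fun k => A (r (σ (Sum.inl k))) (v (σ (Sum.inl k))) : ℚ) : ℂ) *
        ((g fun k => A (r (σ (Sum.inr k))) (v (σ (Sum.inr k))) : ℚ) : ℂ))) := by
    intro r
    rw [hh, Rat.cast_sum, Finset.mul_sum]
    refine Finset.sum_congr rfl fun σ _ => ?_
    rw [Equiv.prod_comp σ (fun k => c (r k))]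
    push_cast
    ring
  rw [Finset.sum_congr rfl fun r _ => h1 r, Finset.sum_comm, hh, Rat.cast_sum]
  refine Finset.sum_congr rfl fun σ _ => ?_
  rw [← Finset.mul_sum]
  push_cast
  congr 1
  have h2 := hf fun k => v (σ (Sum.inl k))
  have h3 := hg fun k => v (σ (Sum.inr k))
  unfold av at h2 h3
  rw [← h2, ← h3, Finset.sum_mul_sum, ← Finset.sum_product']
  refine Fintype.sum_equiv ((Equiv.arrowCongr σ.symm (Equiv.refl J)).trans
    (Equiv.sumArrowEquivProdArrow κ κ' J)) _ _ fun r => ?_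
  rw [Fintype.prod_sum_type]
  change _ = ((∏ k, c (r (σ (Sum.inl k)))) * ((f fun k => A (r (σ (Sum.inl k)))
    (v (σ (Sum.inl k))) : ℚ) : ℂ)) * ((∏ k, c (r (σ (Sum.inr k)))) *
    ((g fun k => A (r (σ (Sum.inr k))) (v (σ (Sum.inr k))) : ℚ) : ℂ))
  ring

/-- An alternating map with the first half of the variables fixed. -/
def half {P Y : Type*} [AddCommGroup P] [Module ℚ P] [AddCommGroup Y] [Module ℚ Y]
    (f : P [⋀^κ ⊕ κ']→ₗ[ℚ] ℚ) (x : κ → P) (j : Y →ₗ[ℚ] P) : Y [⋀^κ']→ₗ[ℚ] ℚ where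
  toFun y := f (Sum.elim x fun l => j (y l))
  map_update_add' := by
    intro inst y i a b
    have h1 : ∀ z, (Sum.elim x fun l => j (Function.update y i z l)) =
        Function.update (Sum.elim x fun l => j (y l)) (Sum.inr i) (j z) := by
      intro z
      funext k
      rcases k with k | k
      · rw [Function.update_of_ne (by simp)]
        rfl
      · by_cases hk : k = i
        · subst hk
          simp
        · rw [Function.update_of_ne (fun h => hk (Sum.inr_injective h)), Sum.elim_inr,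
            Function.update_of_ne hk]
          rfl
    rw [h1, h1, h1, map_add, f.map_update_add]
  map_update_smul' := by
    intro inst y i q b
    have h1 : ∀ z, (Sum.elim x fun l => j (Function.update y i z l)) =
        Function.update (Sum.elim x fun l => j (y l)) (Sum.inr i) (j z) := by
      intro z
      funext k
      rcases k with k | k
      · rw [Function.update_of_ne (by simp)]
        rfl
      · by_cases hk : k = i
        · subst hk
          simp
        · rw [Function.update_of_ne (fun h => hk (Sum.inr_injective h)), Sum.elim_inr,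
            Function.update_of_ne hk]
          rfl
    rw [h1, h1, map_smul, f.map_update_smul]
  map_eq_zero_of_eq' := by
    intro y i k hy hik
    exact f.map_eq_zero_of_eq _ (i := Sum.inr i) (j := Sum.inr k) (by simp [hy])
      fun h => hik (Sum.inr_injective h)

/-- The push-forward of a fixed form is fixed. -/
theorem fix_push {X Y P : Type} [AddCommGroup X] [Module ℚ X] [AddCommGroup Y] [Module ℚ Y]
    [AddCommGroup P] [Module ℚ P] {AX : J → X →ₗ[ℚ] X} {AY : J → Y →ₗ[ℚ] Y}
    {AP : J → P →ₗ[ℚ] P} (i : X →ₗ[ℚ] P) (hi : ∀ r v, i (AX r v) = AP r (i v))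
    (j : Y →ₗ[ℚ] P) (hj : ∀ r v, j (AY r v) = AP r (j v)) (b : Basis κ' ℚ Y)
    (hdet : (∑ r, c r • (LinearMap.toMatrix b b (AY r)).map (algebraMap ℚ ℂ)).det = 1)
    (f : P [⋀^κ ⊕ κ']→ₗ[ℚ] ℚ) (g : X [⋀^κ]→ₗ[ℚ] ℚ)
    (hg : ∀ v : κ → X, g v = f (Sum.elim (fun k => i (v k)) fun k => j (b k)))
    (hf : Fix c AP f) : Fix c AX g := by
  intro v
  have h1 := hf (Sum.elim (fun k => i (v k)) fun k => j (b k))
  rw [← hg] at h1
  rw [← h1]
  unfold av
  have h2 : ∀ (x : κ → P) (r : κ' → J), f (Sum.elim x fun l => AP (r l) (j (b l))) =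
      f (Sum.elim x fun l => j (b l)) * b.det fun l => AY (r l) (b l) := by
    intro x r
    have e1 := (half f x j).eq_smul_basis_det b
    have e2 := congrArg (fun F => F fun l => AY (r l) (b l)) e1
    simp only [AlternatingMap.smul_apply, smul_eq_mul] at e2
    refine Eq.trans ?_ e2
    change _ = f (Sum.elim x fun l => j (AY (r l) (b l)))
    congr 1
    funext k
    rcases k with k | k
    · rfl
    · exact (hj _ _).symm
  have h3 : ∑ r : κ' → J, (∏ l, c (r l)) * ((b.det fun l => AY (r l) (b l) : ℚ) : ℂ) = 1 := by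
    rw [← hdet, ← Matrix.det_transpose]
    change _ = Matrix.detRowAlternating _
    have e1 : ((∑ r, c r • (LinearMap.toMatrix b b (AY r)).map (algebraMap ℚ ℂ)).transpose :
        κ' → κ' → ℂ) = fun l => ∑ r, c r • fun m => ((b.repr (AY r (b l)) m : ℚ) : ℂ) := by
      funext l m
      rw [Matrix.transpose_apply, Matrix.sum_apply, Finset.sum_apply]
      refine Finset.sum_congr rfl fun r _ => ?_
      rw [Matrix.smul_apply, Matrix.map_apply, LinearMap.toMatrix_apply]
      rfl
    rw [e1]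
    have e2 := (Matrix.detRowAlternating (n := κ') (R := ℂ)).toMultilinearMap.map_sum
      (fun l r => c r • fun m => ((b.repr (AY r (b l)) m : ℚ) : ℂ))
    refine Eq.trans ?_ e2.symm
    refine Finset.sum_congr rfl fun r _ => ?_
    have e3 := (Matrix.detRowAlternating (n := κ') (R := ℂ)).toMultilinearMap.map_smul_univ
      (fun l => c (r l)) (fun l m => ((b.repr (AY (r l) (b l)) m : ℚ) : ℂ))
    refine Eq.trans ?_ e3.symm
    rw [smul_eq_mul]
    congr 1
    change _ = Matrix.det (fun l m => ((b.repr (AY (r l) (b l)) m : ℚ) : ℂ))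
    rw [Basis.det_apply, ← Matrix.det_transpose]
    have e4 := RingHom.map_det (algebraMap ℚ ℂ)
      ((b.toMatrix fun l => AY (r l) (b l)).transpose)
    exact e4
  rw [← Equiv.sum_comp (Equiv.sumArrowEquivProdArrow κ κ' J).symm, Fintype.sum_prod_type]
  refine Finset.sum_congr rfl fun r1 _ => ?_
  have h4 : ∀ r2 : κ' → J, (∏ k, c ((Equiv.sumArrowEquivProdArrow κ κ' J).symm (r1, r2) k)) *
      ((f fun k => AP ((Equiv.sumArrowEquivProdArrow κ κ' J).symm (r1, r2) k)
        (Sum.elim (fun k => i (v k)) (fun k => j (b k)) k) : ℚ) : ℂ) =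
      ((∏ k, c (r1 k)) * ((g fun k => AX (r1 k) (v k) : ℚ) : ℂ)) *
        ((∏ l, c (r2 l)) * ((b.det fun l => AY (r2 l) (b l) : ℚ) : ℂ)) := by
    intro r2
    rw [Fintype.prod_sum_type]
    have e1 : (fun k => AP ((Equiv.sumArrowEquivProdArrow κ κ' J).symm (r1, r2) k)
        (Sum.elim (fun k => i (v k)) (fun k => j (b k)) k)) =
        Sum.elim (fun k => i (AX (r1 k) (v k))) fun l => AP (r2 l) (j (b l)) := by
      funext k
      rcases k with k | k
      · exact (hi _ _).symm
      · rfl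
    rw [e1, h2, ← hg]
    push_cast
    change ((∏ k, c (r1 k)) * ∏ l, c (r2 l)) * _ = _
    ring
  rw [Finset.sum_congr rfl fun r2 _ => h4 r2, ← Finset.mul_sum, h3, mul_one]

end act

end

end Pool.Agent.K4H21.LC
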