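import Pool.Agent.K4H21.DB.Quad
import Pool.Agent.K4H21.DB.One
import Pool.Agent.K4H29.HC.Stm

/-!
# Relations which are invariant under subgroups of index two
-/

set_option linter.unusedSectionVars false
set_option linter.unusedVariables false
set_option autoImplicit false

namespace Pool.Agent.K4H21.LC

open Module NumberField Pool.Agent.R915 Pool.Agent.K4H29.HC Pool.Agent.K4H21.DB
open Pool.Agent.Y90 (AV IsHom)
open Pool.Agent.W547.KB (cc IsHalf cc_comm)
open Pool.Agent.W547.LD (tr mem_tr tr_one tr_tr tr_compl tr_inv_tr tr_tr_inv tr_injective tr_cc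
  ne_compl Orb IsImag)

noncomputable section

variable {L : Type} [Field L] [NumberField L] [IsCMField L] [IsGalois ℚ L]

/-- All half systems. -/
def HP : Set (Set (L ≃ₐ[ℚ] L)) := {S | IsHalf S}

theorem tr_HP (j : L →+* ℂ) (τ : L ≃ₐ[ℚ] L) : ∀ S ∈ (HP : Set (Set (L ≃ₐ[ℚ] L))), tr τ S ∈ HP := by
  intro S hS σ
  change σ * τ ∈ S ↔ ¬ cc L * σ * τ ∈ S
  rw [mul_assoc]
  exact hS (σ * τ)

/-! ### The characters -/

/-- The character of a subgroup of index two. -/
def chi (j : L →+* ℂ) (N : {N : Subgroup (L ≃ₐ[ℚ] L) // IsImag N}) : (L ≃ₐ[ℚ] L) →* ℚ where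
  toFun σ := ((sg (sN N.1) σ : ℤ) : ℚ)
  map_one' := by
    unfold sg
    rw [if_pos (show (1 : L ≃ₐ[ℚ] L) ∈ sN N.1 from N.1.one_mem), Int.cast_one]
  map_mul' σ τ := by
    classical
    have h := N.2.mul_mem_iff j σ τ
    unfold sg
    change (((if σ * τ ∈ N.1 then 1 else -1 : ℤ)) : ℚ) = ((if σ ∈ N.1 then 1 else -1 : ℤ) : ℚ) *
      ((if τ ∈ N.1 then 1 else -1 : ℤ) : ℚ)
    by_cases h1 : σ ∈ N.1 <;> by_cases h2 : τ ∈ N.1 <;> simp [h, h1, h2]

theorem chi_apply (j : L →+* ℂ) (N : {N : Subgroup (L ≃ₐ[ℚ] L) // IsImag N}) (σ : L ≃ₐ[ℚ] L) :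
    chi j N σ = ((sg (sN N.1) σ : ℤ) : ℚ) := rfl

theorem chi_injective (j : L →+* ℂ) :
    Function.Injective (chi j : {N : Subgroup (L ≃ₐ[ℚ] L) // IsImag N} → _) := by
  intro N M h
  refine Subtype.ext ?_
  ext σ
  have h1 := congrArg (fun f : (L ≃ₐ[ℚ] L) →* ℚ => f σ) h
  change ((sg (sN N.1) σ : ℤ) : ℚ) = ((sg (sN M.1) σ : ℤ) : ℚ) at h1
  have h2 : sg (sN N.1) σ = sg (sN M.1) σ := by exact_mod_cast h1
  unfold sg at h2
  change σ ∈ sN N.1 ↔ σ ∈ sN M.1
  by_cases a : σ ∈ sN N.1 <;> by_cases b : σ ∈ sN M.1 <;> simp [a, b] at h2 ⊢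

instance : Fintype {N : Subgroup (L ≃ₐ[ℚ] L) // IsImag N} := Fintype.ofFinite _

instance : DecidableEq {N : Subgroup (L ≃ₐ[ℚ] L) // IsImag N} := Classical.decEq _

/-- The characters are linearly independent. -/
theorem chi_indep (j : L →+* ℂ) {c : {N : Subgroup (L ≃ₐ[ℚ] L) // IsImag N} → ℤ}
    (h : ∀ σ, ∑ N, c N * sg (sN N.1) σ = 0) : c = 0 := by
  have h1 := (linearIndependent_monoidHom (L ≃ₐ[ℚ] L) ℚ).comp (chi j) (chi_injective j)
  rw [Fintype.linearIndependent_iff] at h1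
  have h2 := h1 (fun N => (c N : ℚ)) (by
    funext σ
    rw [Finset.sum_apply]
    have h3 := congrArg (fun x : ℤ => (x : ℚ)) (h σ)
    simp only [Int.cast_sum, Int.cast_mul, Int.cast_zero] at h3
    rw [Pi.zero_apply, ← h3]
    refine Finset.sum_congr rfl fun N _ => ?_
    rw [Pi.smul_apply, smul_eq_mul, Function.comp_apply, chi_apply])
  funext N
  have h3 := h2 N
  rw [Pi.zero_apply]
  exact_mod_cast h3

/-! ### The relation of a stable set -/

section stable

variable {O : Finset (Set (L ≃ₐ[ℚ] L))} {N : Subgroup (L ≃ₐ[ℚ] L)} (hO : ∀ S ∈ O, IsHalf S)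
  (hN : IsImag N) (hst : ∀ τ ∈ N, ∀ S ∈ O, tr τ S ∈ O)

open Classical in
/-- The odd indicator function of a set of half systems. -/
def uF (O : Finset (Set (L ≃ₐ[ℚ] L))) (S : Set (L ≃ₐ[ℚ] L)) : ℤ :=
  (if S ∈ O then 1 else 0) - (if Sᶜ ∈ O then 1 else 0)

theorem uF_compl (S : Set (L ≃ₐ[ℚ] L)) : uF O Sᶜ = -uF O S := by
  unfold uF
  rw [compl_compl]
  ring

/-- The sum of the signs. -/
def FF (O : Finset (Set (L ≃ₐ[ℚ] L))) (σ : L ≃ₐ[ℚ] L) : ℤ := ∑ S ∈ O, sg S σ

theorem sum_uF (σ : L ≃ₐ[ℚ] L) : ∑ S, uF O S * sg S σ = 2 * FF O σ := by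
  classical
  have h1 : ∀ S : Set (L ≃ₐ[ℚ] L), uF O S * sg S σ = (if S ∈ O then sg S σ else 0) +
      (if Sᶜ ∈ O then sg Sᶜ σ else 0) := by
    intro S
    unfold uF
    rw [sg_compl]
    split_ifs <;> ring
  rw [Finset.sum_congr rfl fun S _ => h1 S, Finset.sum_add_distrib, Finset.sum_ite_mem,
    Finset.univ_inter]
  have h2 : ∑ S : Set (L ≃ₐ[ℚ] L), (if Sᶜ ∈ O then sg Sᶜ σ else 0) =
      ∑ S : Set (L ≃ₐ[ℚ] L), (if S ∈ O then sg S σ else 0) :=
    Equiv.sum_comp (Equiv.mk compl compl (compl_compl ·) (compl_compl ·) :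
      Set (L ≃ₐ[ℚ] L) ≃ Set (L ≃ₐ[ℚ] L)) (fun S => if S ∈ O then sg S σ else 0)
  rw [h2, Finset.sum_ite_mem, Finset.univ_inter]
  unfold FF
  ring

include hst in
theorem FF_mem {σ : L ≃ₐ[ℚ] L} (hσ : σ ∈ N) : FF O σ = FF O 1 := by
  unfold FF
  refine Finset.sum_bij' (fun S _ => tr σ S) (fun S _ => tr σ⁻¹ S) ?_ ?_ ?_ ?_ ?_
  · exact fun S hS => hst σ hσ S hS
  · exact fun S hS => hst σ⁻¹ (N.inv_mem hσ) S hS
  · intro S _
    exact tr_inv_tr _ _
  · intro S _
    exact tr_tr_inv _ _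
  · intro S _
    unfold sg
    have h1 : (1 : L ≃ₐ[ℚ] L) ∈ tr σ S ↔ σ ∈ S := by
      rw [mem_tr, one_mul]
    by_cases h : σ ∈ S
    · rw [if_pos h, if_pos (h1.2 h)]
    · rw [if_neg h, if_neg (fun h2 => h (h1.1 h2))]

include hO in
theorem FF_cc (σ : L ≃ₐ[ℚ] L) : FF O (cc L * σ) = -FF O σ := by
  unfold FF
  rw [← Finset.sum_neg_distrib]
  refine Finset.sum_congr rfl fun S hS => ?_
  have h1 := hO S hS σ
  unfold sg
  by_cases h : σ ∈ S
  · rw [if_pos h, if_neg (h1.1 h)]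
  · rw [if_neg h, if_pos (by
      by_contra h2
      exact h (h1.2 h2)), neg_neg]

include hO hN hst in
theorem FF_eq (σ : L ≃ₐ[ℚ] L) : FF O σ = FF O 1 * sg (sN N) σ := by
  unfold sg
  by_cases h : σ ∈ N
  · rw [if_pos (show σ ∈ sN N from h), mul_one]
    exact FF_mem hst h
  · rw [if_neg (show σ ∉ sN N from h)]
    have h1 := FF_mem hst (hN.2 σ h)
    rw [FF_cc hO] at h1
    linarith

/-- The relation of the stable set. -/
def wF (O : Finset (Set (L ≃ₐ[ℚ] L))) (N : Subgroup (L ≃ₐ[ℚ] L)) : Set (L ≃ₐ[ℚ] L) → ℤ :=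
  uF O - FF O 1 • uT (sN N)

theorem wF_apply (T : Set (L ≃ₐ[ℚ] L)) : wF O N T = uF O T - FF O 1 * uT (sN N) T := rfl

include hO hN hst in
theorem wF_mem : wF O N ∈ Lam HP := by
  classical
  refine ⟨fun T hT => ?_, fun T => ?_, fun σ => ?_⟩
  · have h1 : T ∉ O := fun h => hT (hO T h)
    have h2 : Tᶜ ∉ O := fun h => hT (by
      have h3 := (hO _ h).compl
      rwa [compl_compl] at h3)
    have h3 : T ≠ sN N := fun h => hT (by
      rw [h]
      exact isHalf_sN hN)
    have h4 : Tᶜ ≠ sN N := fun h => hT (by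
      have h5 := (isHalf_sN hN).compl
      rw [← h, compl_compl] at h5
      exact h5)
    rw [wF_apply]
    unfold uF uT
    rw [if_neg h1, if_neg h2, if_neg h3, if_neg h4]
    ring
  · rw [wF_apply, wF_apply, uF_compl, uT_compl]
    ring
  · have h1 : ∀ T, wF O N T * sg T σ = uF O T * sg T σ - FF O 1 * (uT (sN N) T * sg T σ) :=
      fun T => by
        rw [wF_apply]
        ring
    rw [Finset.sum_congr rfl fun T _ => h1 T, Finset.sum_sub_distrib, ← Finset.mul_sum, sum_uF,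
      sum_uT, FF_eq hO hN hst]
    ring

include hst in
theorem uF_tr {τ : L ≃ₐ[ℚ] L} (hτ : τ ∈ N) (T : Set (L ≃ₐ[ℚ] L)) : uF O (tr τ T) = uF O T := by
  classical
  have h1 : ∀ T, tr τ T ∈ O ↔ T ∈ O := by
    intro T
    constructor
    · intro h
      have h2 := hst _ (N.inv_mem hτ) _ h
      rwa [tr_inv_tr] at h2
    · exact fun h => hst τ hτ T h
  have h2 : (tr τ T)ᶜ = tr τ Tᶜ := (tr_compl τ T).symm
  unfold uF
  rw [h2]
  simp only [h1]

include hO hN hst in
theorem stv_wF (j : L →+* ℂ) (h0 : wF O N ≠ 0) : stv (wF O N) = N := by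
  have hle : N ≤ stv (wF O N) := by
    intro τ hτ T
    rw [wF_apply, wF_apply, uF_tr hst hτ, uT_tr (tr_sN_mem hτ)]
  refine le_antisymm (fun τ hτ => ?_) hle
  by_contra h
  have h1 := hle (hN.2 τ h)
  exact cc_notMem_stv (P := HP) (fun S hS => hS) (tr_HP j) j (wF_mem hO hN hst) h0
    ((Subgroup.mul_mem_cancel_right _ hτ).1 h1)

theorem card_wF : ∑ T, ((wF O N T).toNat : ℤ) ≤ O.card + |FF O 1| := by
  classical
  have h1 : ∀ T, ((wF O N T).toNat : ℤ) ≤ (if T ∈ O then 1 else 0) +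
      ((if T = sN N then max (-FF O 1) 0 else 0) +
        (if T = (sN N)ᶜ then max (FF O 1) 0 else 0)) := by
    intro T
    have h2 : Tᶜ = sN N ↔ T = (sN N)ᶜ := by
      constructor
      · intro h
        rw [← h, compl_compl]
      · rintro rfl
        rw [compl_compl]
    rw [wF_apply]
    unfold uF uT
    simp only [h2]
    have hm1 := le_max_left (-FF O 1) 0
    have hm2 := le_max_right (-FF O 1) 0
    have hm3 := le_max_left (FF O 1) 0
    have hm4 := le_max_right (FF O 1) 0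
    have hne : T = sN N → T ≠ (sN N)ᶜ := fun h h' => ne_compl _ (h.symm.trans h')
    by_cases a1 : T ∈ O <;> by_cases a2 : Tᶜ ∈ O <;>
      by_cases a3 : T = sN N <;> by_cases a4 : T = (sN N)ᶜ <;>
      simp only [a1, a2, a3, a4, if_true, if_false] <;>
      first
      | exact absurd a4 (hne a3)
      | omega
      | (split_ifs <;> omega)
  refine (Finset.sum_le_sum fun T _ => h1 T).trans ?_
  rw [Finset.sum_add_distrib, Finset.sum_add_distrib, Finset.sum_ite_eq', Finset.sum_ite_eq',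
    if_pos (Finset.mem_univ _), if_pos (Finset.mem_univ _), Finset.sum_ite_mem,
    Finset.univ_inter, Finset.sum_const, nsmul_eq_mul, mul_one]
  rcases abs_cases (FF O 1) with h | h <;> rw [h.1] <;> rcases max_cases (-FF O 1) 0 with h' | h' <;>
    rcases max_cases (FF O 1) 0 with h'' | h'' <;> rw [h'.1, h''.1] <;> omega

theorem finrank_imag (j : L →+* ℂ) (hN : IsImag N) : finrank ℚ (fK N) = 2 := by
  have h1 := finrank_fK N
  have h2 : N.index = 2 := by
    rw [Subgroup.index_eq_two_iff]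
    refine ⟨cc L, fun b => ?_⟩
    have h3 : b * cc L = cc L * b := (cc_comm j b).symm
    rw [h3]
    by_cases hb : b ∈ N
    · refine Or.inr ⟨hb, fun h4 => hN.1 ((Subgroup.mul_mem_cancel_right N hb).1 h4)⟩
    · exact Or.inl ⟨hN.2 b hb, hb⟩
  have h5 := N.index_mul_card
  have h6 : 0 < Nat.card N := Nat.card_pos
  rw [← IsGalois.card_aut_eq_finrank ℚ L, ← h5, h2] at h1
  exact Nat.eq_of_mul_eq_mul_right h6 h1

/-- The system contains all Weil classes of imaginary quadratic fields. -/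
def HasWeil (𝒜 : Sys) : Prop :=
  ∀ (Y : AV) (n : ℕ) (f : Y.H [⋀^Fin n]→ₗ[ℚ] ℚ), IsAnyWeilClass Y n f → 𝒜.A Y (Fin n) f

/-- An imaginary quadratic field is generated by a square root of a negative number. -/
theorem exists_sqrt (T : Type) [Field T] [NumberField T] [IsCMField T] (h2 : finrank ℚ T = 2) :
    ∃ (δ : T) (d : ℚ), 0 < d ∧ δ * δ = -(d : T) := by
  have hF : finrank ℚ (maximalRealSubfield T) = 1 := by
    have h1 := finrank_mul_finrank ℚ (maximalRealSubfield T) T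
    have h3 : finrank (maximalRealSubfield T) T = 2 := IsCMField.isQuadraticExtension T |>.finrank_eq_two
    rw [h3, h2] at h1
    omega
  obtain ⟨a, ha⟩ : ∃ a : T, IsCMField.complexConj T a ≠ a := by
    by_contra hcon
    push Not at hcon
    exact IsCMField.complexConj_ne_one T (AlgEquiv.ext hcon)
  let δ : T := a - IsCMField.complexConj T a
  have hδ0 : δ ≠ 0 := fun h => ha (sub_eq_zero.1 h).symm
  have hδ : IsCMField.complexConj T δ = -δ := by
    change IsCMField.complexConj T (a - IsCMField.complexConj T a) = _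
    rw [map_sub, IsCMField.complexConj_apply_apply]
    ring
  have hsq : δ * δ ∈ maximalRealSubfield T := by
    rw [← IsCMField.complexConj_eq_self_iff, map_mul, hδ]
    ring
  have hbot : ∀ x ∈ maximalRealSubfield T, ∃ q : ℚ, x = (q : T) := by
    intro x hx
    have h1 := (finrank_eq_one_iff_of_nonzero' (1 : maximalRealSubfield T) one_ne_zero).1 hF ⟨x, hx⟩
    obtain ⟨c, hc⟩ := h1
    refine ⟨c, ?_⟩
    have h3 := congrArg Subtype.val hc
    change c • (1 : T) = x at h3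
    rw [← h3, Rat.smul_def, mul_one]
  obtain ⟨q, hq⟩ := hbot _ hsq
  obtain ⟨φ⟩ : Nonempty (T →+* ℂ) := inferInstance
  have him : starRingEnd ℂ (φ δ) = -φ δ := by
    rw [← IsCMField.complexEmbedding_complexConj, hδ, map_neg]
  refine ⟨δ, -q, ?_, by rw [hq]; push_cast; ring⟩
  have h1 : φ δ * starRingEnd ℂ (φ δ) = ((Complex.normSq (φ δ) : ℝ) : ℂ) := Complex.mul_conj _
  rw [him, mul_neg, ← map_mul, hq, map_ratCast] at h1
  have h3 : ((-q : ℝ) : ℂ) = ((Complex.normSq (φ δ) : ℝ) : ℂ) := by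
    rw [← h1]
    push_cast
    rfl
  have h4 : (-q : ℝ) = Complex.normSq (φ δ) := by exact_mod_cast h3
  have h5 : 0 < Complex.normSq (φ δ) := Complex.normSq_pos.2 (fun h => hδ0 ((map_eq_zero φ).1 h))
  rw [← h4] at h5
  exact_mod_cast h5

include hO hN hst in
/-- The relation of a stable set belongs to the system. -/
theorem ok_wF (𝒜 : Sys) (j : L →+* ℂ) (h : HasWeil 𝒜 ∨ (O.card : ℤ) + |FF O 1| ≤ 7) :
    Ok (csys 𝒜) j (wF O N) := by
  classical
  by_cases h0 : wF O N = 0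
  · rw [h0]
    exact ok_zero (csys 𝒜) j
  · have h1 := stv_wF hO hN hst j h0
    have hT : finrank ℚ (fK (stv (wF O N))) = 2 := by
      rw [h1]
      exact finrank_imag j hN
    rcases h with h | h
    · obtain ⟨W, w, g1, g2, g3, g4, -, g6⟩ := exists_weil (P := HP) (fun S hS => hS) (tr_HP j) j
        (wF_mem hO hN hst) h0
      refine g6 𝒜 (h W.B W.n w ⟨?_, g1.1, ?_⟩)
      · rw [W.rank, g3, hT, mul_comm]
      · obtain ⟨δ, d, hd, hδ⟩ := exists_sqrt W.T (g3.trans hT)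
        refine ⟨d, W.act δ, hd, W.hom δ, fun v => ?_, fun v k l => g1.2 δ v k l⟩
        change (W.act δ * W.act δ) v = _
        have e1 : (d : W.T) = d • (1 : W.T) := by rw [Rat.smul_def, mul_one]
        rw [← map_mul, hδ, map_neg, e1, map_rat_smul, map_one]
        rfl
    · refine ok_imag (P := HP) (fun S hS => hS) (tr_HP j) (csys 𝒜) (dw_mem 𝒜) j
        (wF_mem hO hN hst) h0 hT ?_
      have h5 := card_orb_eq (wF O N)
      have h6 := card_wF (O := O) (N := N)
      omega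

end stable

end

end Pool.Agent.K4H21.LC
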