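import Mathlib

/-!
# Coefficients of the multiplicative operators, and their determinant
-/

set_option linter.unusedSectionVars false
set_option linter.unusedVariables false

namespace Pool.Agent.K4H21.LC

open Module NumberField

noncomputable section

section coeff

variable {K : Type} [Field K] [NumberField K]

theorem embL_indep' : LinearIndependent ℂ
    (fun φ : K →+* ℂ => (φ.toRatAlgHom.toLinearMap : K →ₗ[ℚ] ℂ)) := by
  have h1 := linearIndependent_toLinearMap ℚ K ℂ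
  exact h1.comp (fun φ : K →+* ℂ => φ.toRatAlgHom) fun φ ψ h => by
    ext a
    exact DFunLike.congr_fun h a

variable {ι : Type} [Fintype ι] [DecidableEq ι] [DecidableEq (K →+* ℂ)]

/-- The matrix of the embeddings of a basis. -/
def embMat (b : Basis ι ℚ K) : Matrix (K →+* ℂ) ι ℂ := Matrix.of fun φ m => φ (b m)

omit [DecidableEq ι] in
theorem card_emb (b : Basis ι ℚ K) : Fintype.card (K →+* ℂ) = Fintype.card ι := by
  rw [Embeddings.card, finrank_eq_card_basis b]

omit [DecidableEq ι] in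
theorem embMat_rows (b : Basis ι ℚ K) : LinearIndependent ℂ (embMat b).row := by
  rw [Fintype.linearIndependent_iff]
  intro g hg
  refine Fintype.linearIndependent_iff.1 (embL_indep' (K := K)) g ?_
  refine b.ext fun m => ?_
  have h1 := congrFun hg m
  rw [Finset.sum_apply] at h1
  rw [LinearMap.sum_apply, LinearMap.zero_apply]
  exact h1

/-- The dual coefficients of a basis. -/
theorem exists_dualE (b : Basis ι ℚ K) : ∃ e : (K →+* ℂ) → ι → ℂ,
    ∀ φ ψ, ∑ m, e φ m * ψ (b m) = if ψ = φ then 1 else 0 := by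
  have σ : (K →+* ℂ) ≃ ι := Fintype.equivOfCardEq (card_emb b)
  let A : Matrix (K →+* ℂ) (K →+* ℂ) ℂ := Matrix.of fun φ ψ => φ (b (σ ψ))
  have hA : LinearIndependent ℂ A.row := by
    rw [Fintype.linearIndependent_iff]
    intro g hg
    refine Fintype.linearIndependent_iff.1 (embMat_rows b) g ?_
    funext m
    have h1 := congrFun hg (σ.symm m)
    rw [Finset.sum_apply] at h1 ⊢
    simpa [A, Matrix.row, embMat] using h1
  have hu : IsUnit A := Matrix.linearIndependent_rows_iff_isUnit.1 hA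
  obtain ⟨B, hB⟩ := hu.exists_right_inv
  refine ⟨fun φ m => B (σ.symm m) φ, fun φ ψ => ?_⟩
  have h1 := congrFun (congrFun hB ψ) φ
  rw [Matrix.mul_apply, Matrix.one_apply] at h1
  rw [← h1, ← σ.symm.sum_comp]
  refine Finset.sum_congr rfl fun m _ => ?_
  simp [A, mul_comm]

/-- The dual coefficients of a basis. -/
def dualE (b : Basis ι ℚ K) : (K →+* ℂ) → ι → ℂ := (exists_dualE b).choose

theorem dualE_spec (b : Basis ι ℚ K) (φ ψ : K →+* ℂ) :
    ∑ m, dualE b φ m * ψ (b m) = if ψ = φ then 1 else 0 := (exists_dualE b).choose_spec φ ψ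

omit [DecidableEq ι] [DecidableEq (K →+* ℂ)] in
/-- The coefficients of the operator. -/
def cf (e : (K →+* ℂ) → ι → ℂ) (t : (K →+* ℂ) → ℂ) (m : ι) : ℂ := ∑ φ, (t φ - 1) * e φ m

theorem cf_spec {b : Basis ι ℚ K} {e : (K →+* ℂ) → ι → ℂ}
    (he : ∀ φ ψ, ∑ m, e φ m * ψ (b m) = if ψ = φ then 1 else 0) (t : (K →+* ℂ) → ℂ)
    (ψ : K →+* ℂ) : ∑ m, cf e t m * ψ (b m) = t ψ - 1 := by
  unfold cf
  simp_rw [Finset.sum_mul]
  rw [Finset.sum_comm]
  have h1 : ∀ φ : K →+* ℂ, ∑ m, (t φ - 1) * e φ m * ψ (b m) =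
      (t φ - 1) * if ψ = φ then 1 else 0 := fun φ => by
    rw [← he φ ψ, Finset.mul_sum]
    exact Finset.sum_congr rfl fun m _ => mul_assoc _ _ _
  rw [Finset.sum_congr rfl fun φ _ => h1 φ]
  simp

/-- The other orthogonality relation. -/
theorem dual_other {b : Basis ι ℚ K} {e : (K →+* ℂ) → ι → ℂ}
    (he : ∀ φ ψ, ∑ m, e φ m * ψ (b m) = if ψ = φ then 1 else 0) (l m : ι) :
    ∑ φ, φ (b l) * e φ m = if l = m then 1 else 0 := by
  have σ : (K →+* ℂ) ≃ ι := Fintype.equivOfCardEq (card_emb b)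
  let A : Matrix ι ι ℂ := Matrix.of fun l m => (σ.symm m) (b l)
  let B : Matrix ι ι ℂ := Matrix.of fun l m => e (σ.symm l) m
  have h1 : B * A = 1 := by
    ext i j
    rw [Matrix.mul_apply, Matrix.one_apply]
    have h2 := he (σ.symm i) (σ.symm j)
    simp only [A, B, Matrix.of_apply]
    rw [h2]
    simp only [EmbeddingLike.apply_eq_iff_eq, eq_comm]
  have h3 : A * B = 1 := mul_eq_one_comm.1 h1
  have h2 := congrFun (congrFun h3 l) m
  rw [Matrix.mul_apply, Matrix.one_apply] at h2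
  rw [← h2, ← σ.symm.sum_comp]
  rfl

end coeff

section idem

variable {n : Type} [Fintype n] [DecidableEq n]

/-- The trace and determinants of an idempotent matrix. -/
theorem idem_det (F : Matrix n n ℂ) (hF : F * F = F) :
    ∃ r : ℕ, F.trace = r ∧ ∀ t : ℂ, (1 + (t - 1) • F).det = t ^ r := by
  obtain ⟨p, hp0⟩ : ∃ p : (n → ℂ) →ₗ[ℂ] (n → ℂ), p = Matrix.toLin' F := ⟨_, rfl⟩
  have hp : ∀ x, p (p x) = p x := fun x => by
    rw [hp0, ← LinearMap.comp_apply, ← Matrix.toLin'_mul, hF]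
  let c := finBasis ℂ (LinearMap.range p)
  let s := Pi.basisFun ℂ n
  let U := LinearMap.toMatrix c s (LinearMap.range p).subtype
  let V := LinearMap.toMatrix s c p.rangeRestrict
  have hUV : U * V = F := by
    rw [← LinearMap.toMatrix_comp]
    have h1 : (LinearMap.range p).subtype ∘ₗ p.rangeRestrict = p := LinearMap.ext fun x => rfl
    rw [h1, LinearMap.toMatrix_eq_toMatrix', hp0, LinearMap.toMatrix'_toLin']
  have hVU : V * U = 1 := by
    rw [← LinearMap.toMatrix_comp]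
    have h1 : p.rangeRestrict ∘ₗ (LinearMap.range p).subtype = LinearMap.id := by
      refine LinearMap.ext ?_
      rintro ⟨_, x, rfl⟩
      exact Subtype.ext (hp x)
    rw [h1, LinearMap.toMatrix_id]
  refine ⟨finrank ℂ (LinearMap.range p), ?_, fun t => ?_⟩
  · rw [← hUV, Matrix.trace_mul_comm, hVU, Matrix.trace_one, Fintype.card_fin]
  · rw [← hUV, ← Matrix.smul_mul, Matrix.det_one_add_mul_comm, Matrix.mul_smul, hVU]
    have h1 : (1 : Matrix (Fin (finrank ℂ (LinearMap.range p))) (Fin (finrank ℂ (LinearMap.range p))) ℂ)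
        + (t - 1) • 1 = t • 1 := by
      rw [sub_smul, one_smul]
      abel
    rw [h1, Matrix.det_smul, Matrix.det_one, mul_one, Fintype.card_fin]

/-- Determinants of combinations of orthogonal idempotents. -/
theorem orth_det {J : Type} [DecidableEq J] (F : J → Matrix n n ℂ) (hid : ∀ j, F j * F j = F j)
    (hor : ∀ j k, j ≠ k → F j * F k = 0) (r : J → ℕ)
    (hr : ∀ j (t : ℂ), (1 + (t - 1) • F j).det = t ^ r j) (t : J → ℂ) (s : Finset J) :
    (1 + ∑ j ∈ s, (t j - 1) • F j).det = ∏ j ∈ s, t j ^ r j := by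
  induction s using Finset.induction_on with
  | empty => rw [Finset.sum_empty, Finset.prod_empty, add_zero, Matrix.det_one]
  | insert a s ha ih =>
    rw [Finset.sum_insert ha, Finset.prod_insert ha, ← ih, ← hr, ← Matrix.det_mul]
    congr 1
    rw [add_mul, one_mul, mul_add, mul_one, Finset.mul_sum]
    have h1 : ∑ j ∈ s, (t a - 1) • F a * (t j - 1) • F j = 0 := by
      refine Finset.sum_eq_zero fun j hj => ?_
      rw [smul_mul_smul_comm, hor a j (fun h => ha (h ▸ hj)), smul_zero]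
    rw [h1, add_zero]
    abel

end idem

section main

variable {I n : Type} [Fintype I] [DecidableEq I] [Fintype n] [DecidableEq n]
  (E : I → Type) [∀ i, Field (E i)] [∀ i, NumberField (E i)]
  [∀ i, DecidableEq (E i →+* ℂ)]
  (m : I → Type) [∀ i, Fintype (m i)] [∀ i, DecidableEq (m i)]
  (b : ∀ i, Basis (m i) ℚ (E i))
  (e : ∀ i, (E i →+* ℂ) → m i → ℂ)
  (he : ∀ i φ ψ, ∑ l, e i φ l * ψ (b i l) = if ψ = φ then 1 else 0)
  (ρ : ∀ i, E i →ₗ[ℚ] Matrix n n ℂ)
  (hmul : ∀ i x y, ρ i (x * y) = ρ i x * ρ i y)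
  (hor : ∀ i k, i ≠ k → ∀ x y, ρ i x * ρ k y = 0)
  (nn : ∀ i, (E i →+* ℂ) → ℂ)
  (htr : ∀ i x, (ρ i x).trace = ∑ ψ, nn i ψ * ψ x)

/-- The idempotents. -/
def idm (i : I) (φ : E i →+* ℂ) : Matrix n n ℂ := ∑ l, e i φ l • ρ i (b i l)

include he in
theorem rho_eq (i : I) (x : E i) : ρ i x = ∑ φ, φ x • idm E m b e ρ i φ := by
  unfold idm
  simp_rw [Finset.smul_sum, smul_smul]
  rw [Finset.sum_comm]
  simp_rw [← Finset.sum_smul]
  conv_lhs => rw [← (b i).sum_repr x, map_sum]
  refine Finset.sum_congr rfl fun l _ => ?_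
  rw [map_smul]
  have h1 : ∑ φ : E i →+* ℂ, φ x * e i φ l = (((b i).repr x l : ℚ) : ℂ) := by
    have h2 : ∀ φ : E i →+* ℂ, φ x = ∑ k, (((b i).repr x k : ℚ) : ℂ) * φ (b i k) := fun φ => by
      conv_lhs => rw [← (b i).sum_repr x, map_sum]
      refine Finset.sum_congr rfl fun k _ => ?_
      rw [map_rat_smul, Rat.smul_def]
    simp_rw [h2, Finset.sum_mul]
    rw [Finset.sum_comm]
    have h3 : ∀ k, ∑ φ : E i →+* ℂ, (((b i).repr x k : ℚ) : ℂ) * φ (b i k) * e i φ l =
        (((b i).repr x k : ℚ) : ℂ) * if k = l then 1 else 0 := fun k => by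
      rw [← dual_other (he i) k l, Finset.mul_sum]
      exact Finset.sum_congr rfl fun φ _ => mul_assoc _ _ _
    rw [Finset.sum_congr rfl fun k _ => h3 k]
    simp
  rw [h1, Rat.cast_smul_eq_qsmul]

include he hmul in
theorem rho_mul_idm (i : I) (x : E i) (ψ : E i →+* ℂ) :
    ρ i x * idm E m b e ρ i ψ = ψ x • idm E m b e ρ i ψ := by
  conv_lhs => unfold idm
  rw [Finset.mul_sum]
  have h1 : ∀ l, ρ i x * e i ψ l • ρ i (b i l) =
      ∑ χ, (e i ψ l * (χ x * χ (b i l))) • idm E m b e ρ i χ := fun l => by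
    rw [mul_smul_comm, ← hmul, rho_eq E m b e he ρ i (x * b i l), Finset.smul_sum]
    refine Finset.sum_congr rfl fun χ _ => ?_
    rw [smul_smul, map_mul]
  rw [Finset.sum_congr rfl fun l _ => h1 l, Finset.sum_comm]
  simp_rw [← Finset.sum_smul]
  have h2 : ∀ χ : E i →+* ℂ, ∑ l, e i ψ l * (χ x * χ (b i l)) =
      χ x * if χ = ψ then 1 else 0 := fun χ => by
    rw [← he i ψ χ, Finset.mul_sum]
    exact Finset.sum_congr rfl fun l _ => by ring
  simp_rw [h2]
  simp

include he hmul in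
theorem idm_mul (i : I) (φ ψ : E i →+* ℂ) :
    idm E m b e ρ i φ * idm E m b e ρ i ψ = if ψ = φ then idm E m b e ρ i ψ else 0 := by
  have h0 : idm E m b e ρ i φ * idm E m b e ρ i ψ =
      ∑ l, (e i φ l * ψ (b i l)) • idm E m b e ρ i ψ := by
    conv_lhs => arg 1; unfold idm
    rw [Finset.sum_mul]
    refine Finset.sum_congr rfl fun l _ => ?_
    rw [smul_mul_assoc, rho_mul_idm E m b e he ρ hmul, smul_smul]
  rw [h0, ← Finset.sum_smul, he]
  split_ifs
  · rw [one_smul]
  · rw [zero_smul]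

include hor in
theorem idm_other {i k : I} (hik : i ≠ k) (φ : E i →+* ℂ) (ψ : E k →+* ℂ) :
    idm E m b e ρ i φ * idm E m b e ρ k ψ = 0 := by
  unfold idm
  rw [Finset.sum_mul]
  refine Finset.sum_eq_zero fun l _ => ?_
  rw [Finset.mul_sum]
  refine Finset.sum_eq_zero fun l' _ => ?_
  rw [smul_mul_smul_comm, hor i k hik, smul_zero]

include he htr in
theorem idm_trace (i : I) (φ : E i →+* ℂ) : (idm E m b e ρ i φ).trace = nn i φ := by
  unfold idm
  rw [Matrix.trace_sum]
  have h1 : ∀ l, (e i φ l • ρ i (b i l)).trace = ∑ ψ, nn i ψ * (e i φ l * ψ (b i l)) := fun l => by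
    rw [Matrix.trace_smul, htr, smul_eq_mul, Finset.mul_sum]
    exact Finset.sum_congr rfl fun ψ _ => by ring
  rw [Finset.sum_congr rfl fun l _ => h1 l, Finset.sum_comm]
  simp_rw [← Finset.mul_sum, he]
  simp

include he hmul hor htr in
/-- The determinant of the multiplicative operator. -/
theorem det_op : ∃ rk : ∀ i, (E i →+* ℂ) → ℕ, (∀ i φ, ((rk i φ : ℕ) : ℂ) = nn i φ) ∧
    ∀ t : ∀ i, (E i →+* ℂ) → ℂ,
      (1 + ∑ i, ∑ l, cf (e i) (t i) l • ρ i (b i l)).det = ∏ i, ∏ φ, t i φ ^ rk i φ := by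
  classical
  have h0 : ∀ i φ, ∃ r : ℕ, (idm E m b e ρ i φ).trace = r ∧
      ∀ t : ℂ, (1 + (t - 1) • idm E m b e ρ i φ).det = t ^ r := fun i φ =>
    idem_det _ (by rw [idm_mul E m b e he ρ hmul, if_pos rfl])
  choose rk hrk1 hrk2 using h0
  refine ⟨rk, fun i φ => by rw [← hrk1, idm_trace E m b e he ρ nn htr], fun t => ?_⟩
  let F : (Σ i, (E i →+* ℂ)) → Matrix n n ℂ := fun j => idm E m b e ρ j.1 j.2
  have hF1 : ∀ j, F j * F j = F j := fun j => by
    simp only [F]
    rw [idm_mul E m b e he ρ hmul, if_pos rfl]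
  have hF2 : ∀ j k, j ≠ k → F j * F k = 0 := by
    rintro ⟨i, φ⟩ ⟨k, ψ⟩ hjk
    simp only [F]
    by_cases hik : i = k
    · subst hik
      rw [idm_mul E m b e he ρ hmul, if_neg]
      rintro rfl
      exact hjk rfl
    · exact idm_other E m b e ρ hor hik φ ψ
  have h1 := orth_det F hF1 hF2 (fun j => rk j.1 j.2) (fun j s => hrk2 j.1 j.2 s)
    (fun j => t j.1 j.2) Finset.univ
  rw [Fintype.sum_sigma, Fintype.prod_sigma] at h1
  rw [← h1]
  congr 2
  refine Finset.sum_congr rfl fun i _ => ?_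
  simp only [F, idm, cf, Finset.sum_smul, Finset.smul_sum, smul_smul]
  rw [Finset.sum_comm]

end main

end

end Pool.Agent.K4H21.LC
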