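import Pool.Agent.K4H21.LC.Neg
import Pool.Agent.K4H21.LC.Det

/-!
# The two directions of the lattice criterion
-/

set_option linter.unusedSectionVars false
set_option linter.unusedVariables false
set_option autoImplicit false

namespace Pool.Agent.K4H21.LC

open Module NumberField Pool.Agent.R915 Pool.Agent.K4H29.HC Pool.Agent.K4H21.DB
open Pool.Agent.Y90 (AV IsHom IsPolarization)
open Pool.Agent.H204R3.CM (IsHodge IsCMType)
open Pool.Agent.W547.KB (CMPair CMAV Wt St)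
open Pool.Agent.W547.LN (SameType)
open Pool.Agent.K4H34.DB (dec)

/-- The classes generated by all Weil classes of imaginary quadratic fields are a system. -/
def algWSys : Sys where
  A := AlgW
  unit := fun f => AlgW.unit f
  divisor := fun hκ f hf => AlgW.divisor hκ f hf
  weil := fun hn f hf => AlgW.of_alg (Alg.weil hn f hf)
  zero := AlgW.zero
  add := fun f g hf hg => AlgW.add f g hf hg
  smul := fun a f hf => AlgW.smul a f hf
  reindex := fun e f hf => AlgW.reindex e f hf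
  cup := fun f g hf hg h hh => AlgW.cup f g hf hg h hh
  pull := fun h hh _ f hf => AlgW.pull h hh f hf
  push := fun i hi j hj hij _ _ b f hf g hg => AlgW.push i hi j hj hij b f hf g hg

theorem hasWeil_algW : HasWeil algWSys := fun _ _ f hf => AlgW.weil f hf

/-- **The positive direction.** -/
theorem pos_dir (X : AV) (hX : ∀ Y, IsFactor Y X → HasCMult Y ∨ Nice X Y) {n : ℕ∞} (𝒜 : Sys)
    (hn : HasWeil 𝒜 ∨ n = 3) (h : ∀ m, IsRelation X m → m ∈ Gen X n) (k : ℕ) :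
    𝒜.AllHodge (pow X k) := by
  obtain ⟨X0, h1, h2, h3, -⟩ := dec X
  obtain ⟨L, _, _, _, _, j, hj⟩ := exists_cmL X0
  exact mix_of_ok j hj 𝒜 hX h3 (ok_of_gen j h1 h2 hj 𝒜 hn h) k

/-- The coefficients of the multiplicative operators. -/
theorem exists_cf (E : Type) [Field E] [NumberField E] (t : (E →+* ℂ) → ℂ) :
    ∃ cf : Fin (finrank ℚ E) → ℂ, ∀ ψ : E →+* ℂ, ∑ l, cf l * ψ (finBasis ℚ E l) = t ψ - 1 := by
  classical
  obtain ⟨e, he⟩ := exists_dualE (finBasis ℚ E)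
  exact ⟨cf e t, cf_spec he t⟩

/-- **The negative direction.** -/
theorem neg_dir (X : AV) (n : ℕ∞) (𝒜 : Sys)
    (hFix : ∀ {ι : Type} [Fintype ι] [DecidableEq ι] (P : ι → CMPair)
      (hpol : ∀ i, ∃ E, IsPolarization (perC (P i)) E) (hprim : ∀ i, Primitive (P i))
      (_ : ∀ i k, i ≠ k → ¬ SameType (P i) (P k)) (t : ∀ i, ((P i).E →+* ℂ) → ℂ) (_ : Tor n P t)
      (cf : ∀ i, Fin (finrank ℚ (P i).E) → ℂ)
      (_ : ∀ i ψ, ∑ l, cf i l * ψ (finBasis ℚ (P i).E l) = t i ψ - 1)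
      (Y : AV) {κ : Type} [Fintype κ] [DecidableEq κ] (f : Y.H [⋀^κ]→ₗ[ℚ] ℚ), 𝒜.A Y κ f →
      Fix (cc cf) (Op hpol hprim (fun i => finBasis ℚ (P i).E) Y) f)
    (h : ∀ k, 𝒜.AllHodge (pow X k)) : ∀ m, IsRelation X m → m ∈ Gen X n := by
  by_contra hnot
  obtain ⟨κ, _, f, hf, hnf⟩ := neg_main X n hnot 𝒜.A (fun h hh f hf => 𝒜.pull h hh f hf) hFix
    exists_cf
  obtain ⟨k, g, hg, hng⟩ := transport' X 𝒜.A (fun h hh f hf => 𝒜.pull h hh f hf) f hf hnf
  exact hng (h k κ g hg)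

end Pool.Agent.K4H21.LC
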