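import Mathlib
import Pool.Agent.R915.S2
import Pool.Agent.K4H29.HC.Obt

/-!
# The multiplicities of an imaginary quadratic field with a Weil class
-/

set_option linter.unusedSectionVars false
set_option linter.unusedVariables false
set_option autoImplicit false

namespace Pool.Agent.K4H21.LC

open Module NumberField Pool.Agent.Y90 Pool.Agent.R915 Pool.Agent.K4H29.HC
open Pool.Agent.H204R3.CM (IsHodge IsCMType)
open Pool.Agent.W547.KB (CMPair)

noncomputable section

section sqrt

variable {s : ℂ} {d : ℚ}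

theorem s_eq (hd : 0 < d) (hs : s * s = -(d : ℂ)) : ∃ t : ℝ, t ≠ 0 ∧ s = (t : ℂ) * Complex.I := by
  have hd' : (0 : ℝ) < (d : ℝ) := by exact_mod_cast hd
  have h1 : s * s = -((d : ℝ) : ℂ) := by rw [hs, Complex.ofReal_ratCast]
  have h2 := congrArg Complex.re h1
  have h3 := congrArg Complex.im h1
  rw [Complex.mul_re, Complex.neg_re, Complex.ofReal_re] at h2
  rw [Complex.mul_im, Complex.neg_im, Complex.ofReal_im, neg_zero] at h3
  have h4 : s.re = 0 := by
    have h5 : s.re * s.im = 0 := by linarith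
    rcases mul_eq_zero.1 h5 with h6 | h6
    · exact h6
    · exfalso
      rw [h6, mul_zero, sub_zero] at h2
      have := mul_self_nonneg s.re
      linarith
  refine ⟨s.im, fun h => ?_, ?_⟩
  · rw [h4, h] at h2
    linarith
  · apply Complex.ext
    · simp [h4]
    · simp

end sqrt

section weil

variable {Y : AV} {n : ℕ} (hn : 3 ≤ n) (f : Y.H [⋀^Fin n]→ₗ[ℚ] ℚ)
  (ψ : MultilinearMap ℝ (fun _ : Fin n => Y.T) ℝ) (hψ : ∀ v : Fin n → Y.H, ψ (fun l => Y.per (v l)) = f v)
  (hz : ∀ z : ℂ, ‖z‖ = 1 → ∀ u : Fin n → Y.T, ψ (fun l => z • u l) = ψ u)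
  {d : ℚ} (hd : 0 < d) (h : Y.H →ₗ[ℚ] Y.H) (A : Y.T →ₗ[ℂ] Y.T) (hA : ∀ v, A (Y.per v) = Y.per (h v))
  (hsq : ∀ w, h (h w) = -(d • w))
  (hf : ∀ (v : Fin n → Y.H) (k l : Fin n),
    f (Function.update v k (h (v k))) = f (Function.update v l (h (v l))))
  {s : ℂ} (hs : s * s = -(d : ℂ))

include hA hsq in
theorem A_sq (u : Y.T) : A (A u) = -((d : ℂ) • u) := by
  have h1 : (A ∘ₗ A).restrictScalars ℝ = (-((d : ℂ) • (LinearMap.id : Y.T →ₗ[ℂ] Y.T))).restrictScalars ℝ :=
    real_ext Y fun v => by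
      change A (A (Y.per v)) = -((d : ℂ) • Y.per v)
      rw [hA, hA, hsq, map_neg]
      congr 1
      rw [Pool.Agent.Y90.per_smul]
      have h3 : ((d : ℂ)) = (((d : ℝ)) : ℂ) := by rw [Complex.ofReal_ratCast]
      rw [h3]
      rfl
  exact congrArg (fun f => f u) h1

/-- The form with the endomorphism in one variable. -/
def MM (ψ : MultilinearMap ℝ (fun _ : Fin n => Y.T) ℝ) (A : Y.T →ₗ[ℂ] Y.T) (k : Fin n) :
    MultilinearMap ℝ (fun _ : Fin n => Y.T) ℝ :=
  ψ.compLinearMap fun m => if m = k then A.restrictScalars ℝ else LinearMap.id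

theorem MM_apply (k : Fin n) (u : Fin n → Y.T) :
    MM ψ A k u = ψ (Function.update u k (A (u k))) := by
  unfold MM
  rw [MultilinearMap.compLinearMap_apply]
  congr 1
  funext m
  by_cases hm : m = k
  · subst hm
    rw [if_pos rfl, Function.update_self]
    rfl
  · rw [if_neg hm, Function.update_of_ne hm]
    rfl

include hψ hA hf in
theorem MM_eq (k l : Fin n) : MM ψ A k = MM ψ A l := by
  classical
  have hfin := Y.finH
  let b := finBasis ℚ Y.H
  obtain ⟨β, hβ⟩ := exists_realBasis Y b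
  refine Basis.ext_multilinear (fun _ => β) fun v => ?_
  rw [MM_apply, MM_apply]
  have h1 : ∀ k : Fin n, (Function.update (fun i => β (v i)) k (A (β (v k)))) =
      fun i => Y.per (Function.update (fun i => b (v i)) k (h (b (v k))) i) := by
    intro k
    funext i
    by_cases hi : i = k
    · subst hi
      rw [Function.update_self, Function.update_self, hβ, hA]
    · rw [Function.update_of_ne hi, Function.update_of_ne hi, hβ]
  rw [h1, h1, hψ, hψ, hf (fun i => b (v i)) k l]

/-- The complex-valued form. -/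
def Ph (ψ : MultilinearMap ℝ (fun _ : Fin n => Y.T) ℝ) (A : Y.T →ₗ[ℂ] Y.T) (s : ℂ) (k : Fin n) :
    MultilinearMap ℝ (fun _ : Fin n => Y.T) ℂ :=
  ((LinearMap.mulLeft ℝ s).comp Complex.ofRealCLM.toLinearMap).compMultilinearMap ψ +
    Complex.ofRealCLM.toLinearMap.compMultilinearMap (MM ψ A k)

theorem Ph_apply (k : Fin n) (u : Fin n → Y.T) :
    Ph ψ A s k u = s * ((ψ u : ℝ) : ℂ) + ((MM ψ A k u : ℝ) : ℂ) := rfl

include hψ hA hf hsq hs in
theorem Ph_A (k l : Fin n) (u : Fin n → Y.T) :
    Ph ψ A s k (Function.update u l (A (u l))) = s * Ph ψ A s k u := by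
  rw [Ph_apply, Ph_apply, ← MM_apply, MM_eq f ψ hψ h A hA hf l k]
  have h1 : MM ψ A k (Function.update u l (A (u l))) = -(d : ℝ) * ψ u := by
    rw [MM_eq f ψ hψ h A hA hf k l, MM_apply, Function.update_self, Function.update_idem,
      A_sq h A hA hsq]
    have h2 : -((d : ℂ) • u l) = (-(d : ℝ)) • u l := by
      rw [neg_smul]
      congr 1
    rw [h2, MultilinearMap.map_update_smul, Function.update_eq_self, smul_eq_mul]
  rw [h1]
  push_cast
  linear_combination -((ψ u : ℝ) : ℂ) * hs

include hn hψ hA hf in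
theorem Ph_alt (k : Fin n) (u : Fin n → Y.T) {i l : Fin n} (hil : i ≠ l) (hu : u i = u l) :
    Ph ψ A s k u = 0 := by
  classical
  obtain ⟨m, hm1, hm2⟩ : ∃ m : Fin n, m ≠ i ∧ m ≠ l := by
    by_contra hcon
    push Not at hcon
    have h1 : (Finset.univ : Finset (Fin n)) ⊆ {i, l} := by
      intro m _
      rw [Finset.mem_insert, Finset.mem_singleton]
      by_cases h2 : m = i
      · exact Or.inl h2
      · exact Or.inr (hcon m h2)
    have h2 := Finset.card_le_card h1
    rw [Finset.card_univ, Fintype.card_fin, Finset.card_pair hil] at h2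
    omega
  rw [Ph_apply, MM_eq f ψ hψ h A hA hf k m, MM_apply, ext_swap Y f ψ hψ u hil hu,
    ext_swap Y f ψ hψ _ hil]
  · simp
  · rw [Function.update_of_ne hm1.symm, Function.update_of_ne hm2.symm, hu]

include hz in
theorem Ph_unit (k : Fin n) {z : ℂ} (h1 : ‖z‖ = 1) (u : Fin n → Y.T) :
    Ph ψ A s k (fun l => z • u l) = Ph ψ A s k u := by
  rw [Ph_apply, Ph_apply, hz z h1, MM_apply, MM_apply, map_smul]
  have h2 : Function.update (fun l => z • u l) k (z • A (u k)) =
      fun l => z • (Function.update u k (A (u k))) l := by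
    funext l
    by_cases hl : l = k
    · subst hl
      rw [Function.update_self, Function.update_self]
    · rw [Function.update_of_ne hl, Function.update_of_ne hl]
  rw [h2, hz z h1]

/-- The twist. -/
def th (ε : Bool) (z : ℂ) : ℂ := if ε then z else starRingEnd ℂ z

/-- The sign. -/
def sb (ε : Bool) : ℂ := if ε then 1 else -1

include hψ hA hf hsq hs hd in
theorem Ph_smul (k l : Fin n) (u : Fin n → Y.T) (ε : Bool) (hu : A (u l) = (sb ε * s) • u l) (z : ℂ) :
    Ph ψ A s k (Function.update u l (z • u l)) = th ε z * Ph ψ A s k u := by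
  obtain ⟨t, ht, hst⟩ := s_eq hd hs
  have h1 := Ph_A f ψ hψ h A hA hsq hf hs k l u
  obtain ⟨e, he, hes⟩ : ∃ e : ℝ, e * e = 1 ∧ sb ε = (e : ℂ) := by
    cases ε
    · exact ⟨-1, by norm_num, by simp [sb]⟩
    · exact ⟨1, by norm_num, by simp [sb]⟩
  have h2 : A (u l) = (e * t) • (Complex.I • u l) := by
    rw [hu, hes, hst, ← mul_assoc, ← Complex.ofReal_mul, mul_smul]
    rfl
  rw [h2, MultilinearMap.map_update_smul] at h1
  have hJ : Ph ψ A s k (Function.update u l (Complex.I • u l)) = (e : ℂ) * Complex.I * Ph ψ A s k u := by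
    have h3 : ((e * t : ℝ) : ℂ) * Ph ψ A s k (Function.update u l (Complex.I • u l)) =
        (t : ℂ) * Complex.I * Ph ψ A s k u := by
      rw [← hst, ← h1]
      rfl
    have ht' : (t : ℂ) ≠ 0 := by exact_mod_cast ht
    have he' : (e : ℂ) * (e : ℂ) = 1 := by exact_mod_cast he
    have h4 : (t : ℂ) * ((e : ℂ) * Ph ψ A s k (Function.update u l (Complex.I • u l)) -
        Complex.I * Ph ψ A s k u) = 0 := by
      push_cast at h3
      linear_combination h3
    have h5 := (mul_eq_zero.1 h4).resolve_left ht'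
    linear_combination (e : ℂ) * h5 - Ph ψ A s k (Function.update u l (Complex.I • u l)) * he'
  have hzz : z • u l = z.re • u l + z.im • (Complex.I • u l) := by
    conv_lhs => rw [← Complex.re_add_im z]
    rw [add_smul, mul_smul]
    rfl
  rw [hzz, MultilinearMap.map_update_add, MultilinearMap.map_update_smul,
    MultilinearMap.map_update_smul, Function.update_eq_self, hJ]
  change (z.re : ℂ) * _ + (z.im : ℂ) * _ = _
  have h6 : th ε z = (z.re : ℂ) + (e : ℂ) * ((z.im : ℂ) * Complex.I) := by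
    cases ε
    · have h7 : (e : ℂ) = -1 := by
        rw [← hes]
        simp [sb]
      rw [h7]
      unfold th
      rw [if_neg (by simp)]
      apply Complex.ext <;> simp
    · have h7 : (e : ℂ) = 1 := by
        rw [← hes]
        simp [sb]
      rw [h7]
      unfold th
      rw [if_pos rfl]
      apply Complex.ext <;> simp
  rw [h6]
  ring

include hψ hA hf hsq hs hd in
theorem Ph_prod (k : Fin n) (u : Fin n → Y.T) (ε : Fin n → Bool)
    (hu : ∀ l, A (u l) = (sb (ε l) * s) • u l) (z : Fin n → ℂ) :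
    Ph ψ A s k (fun l => z l • u l) = (∏ l, th (ε l) (z l)) * Ph ψ A s k u := by
  classical
  have key : ∀ S : Finset (Fin n), Ph ψ A s k (fun l => if l ∈ S then z l • u l else u l) =
      (∏ l ∈ S, th (ε l) (z l)) * Ph ψ A s k u := by
    intro S
    induction S using Finset.induction_on with
    | empty => simp
    | insert a S ha ih =>
      rw [Finset.prod_insert ha, mul_assoc, ← ih]
      have h1 : (fun l => if l ∈ insert a S then z l • u l else u l) =
          Function.update (fun l => if l ∈ S then z l • u l else u l) a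
            (z a • (fun l => if l ∈ S then z l • u l else u l) a) := by
        funext l
        by_cases hl : l = a
        · subst hl
          rw [Function.update_self, if_pos (Finset.mem_insert_self _ _)]
          simp only [if_neg ha]
        · rw [Function.update_of_ne hl]
          simp only [Finset.mem_insert, hl, false_or]
      rw [h1]
      refine Ph_smul f ψ hψ hd h A hA hsq hf hs k a _ (ε a) ?_ (z a)
      simp only [if_neg ha]
      exact hu a
  have h1 := key Finset.univ
  simpa using h1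

/-- The eigenspace. -/
def eigS (A : Y.T →ₗ[ℂ] Y.T) (s : ℂ) : Submodule ℂ Y.T := LinearMap.ker (A - s • LinearMap.id)

theorem mem_eigS {u : Y.T} : u ∈ eigS A s ↔ A u = s • u := by
  unfold eigS
  rw [LinearMap.mem_ker, LinearMap.sub_apply, LinearMap.smul_apply, LinearMap.id_apply, sub_eq_zero]

include hd hA hsq hs in
theorem compl_eig : IsCompl (eigS A s) (eigS A (-s)) := by
  obtain ⟨t, ht, hst⟩ := s_eq hd hs
  have hs0 : s ≠ 0 := by
    rw [hst]
    exact mul_ne_zero (by exact_mod_cast ht) Complex.I_ne_zero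
  constructor
  · rw [Submodule.disjoint_def]
    intro u h1 h2
    rw [mem_eigS] at h1 h2
    rw [h1, neg_smul] at h2
    have h3 : (2 * s) • u = 0 := by
      rw [two_mul, add_smul]
      nth_rewrite 2 [h2]
      rw [add_neg_cancel]
    exact (smul_eq_zero.1 h3).resolve_left (mul_ne_zero two_ne_zero hs0)
  · rw [codisjoint_iff, eq_top_iff]
    intro u _
    have h2s : (2 * s) ≠ 0 := mul_ne_zero two_ne_zero hs0
    have h1 : u = (2 * s)⁻¹ • (A u + s • u) + (2 * s)⁻¹ • (s • u - A u) := by
      rw [← smul_add]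
      have h2 : A u + s • u + (s • u - A u) = (2 * s) • u := by
        rw [two_mul, add_smul]
        abel
      rw [h2, smul_smul, inv_mul_cancel₀ h2s, one_smul]
    rw [h1]
    refine Submodule.add_mem_sup (Submodule.smul_mem _ _ ?_) (Submodule.smul_mem _ _ ?_)
    · rw [mem_eigS, map_add, map_smul, A_sq h A hA hsq, smul_add, smul_smul, hs]
      module
    · rw [mem_eigS, map_sub, map_smul, A_sq h A hA hsq, smul_sub, smul_smul, neg_mul, hs]
      module

include hn hψ hz hd hA hsq hf hs in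
/-- **The multiplicities are equal.** -/
theorem mult_eq (hrank : finrank ℚ Y.H = 2 * n) (h0 : f ≠ 0) :
    2 * finrank ℂ (eigS A s) = n := by
  classical
  have hfin := Y.finT
  obtain ⟨t, ht, hst⟩ := s_eq hd hs
  have hc := compl_eig hd h A hA hsq hs
  obtain ⟨p, hp⟩ : ∃ p, p = finrank ℂ (eigS A s) := ⟨_, rfl⟩
  obtain ⟨q, hq⟩ : ∃ q, q = finrank ℂ (eigS A (-s)) := ⟨_, rfl⟩
  have hpq : p + q = n := by
    have h1 := Submodule.finrank_add_eq_of_isCompl hc
    have h2 := Y.rank
    rw [hrank] at h2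
    omega
  by_contra hne
  have hpq' : p ≠ q := by
    intro h1
    omega
  let k0 : Fin n := ⟨0, by omega⟩
  let b1 : Basis (Fin p) ℂ (eigS A s) := finBasisOfFinrankEq ℂ _ hp.symm
  let b2 : Basis (Fin q) ℂ (eigS A (-s)) := finBasisOfFinrankEq ℂ _ hq.symm
  let e : Basis (Fin p ⊕ Fin q) ℂ Y.T :=
    (b1.prod b2).map (Submodule.prodEquivOfIsCompl _ _ hc)
  have he1 : ∀ i, e (Sum.inl i) = (b1 i : Y.T) := by
    intro i
    rw [Basis.map_apply, Basis.prod_apply]
    simp
  have he2 : ∀ i, e (Sum.inr i) = (b2 i : Y.T) := by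
    intro i
    rw [Basis.map_apply, Basis.prod_apply]
    simp
  have heA : ∀ i, A (e i) = (sb i.isLeft * s) • e i := by
    rintro (i | i)
    · rw [he1, (mem_eigS A).1 (b1 i).2]
      simp [sb]
    · rw [he2, (mem_eigS A).1 (b2 i).2]
      simp [sb]
  -- the values at the basis
  have hzero : ∀ r : Fin n → Fin p ⊕ Fin q, Ph ψ A s k0 (fun k => e (r k)) = 0 := by
    intro r
    by_cases hr : Function.Injective r
    · have hbij : Function.Bijective r := by
        rw [Fintype.bijective_iff_injective_and_card]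
        refine ⟨hr, ?_⟩
        rw [Fintype.card_sum, Fintype.card_fin, Fintype.card_fin, Fintype.card_fin, hpq]
      have hval : ∀ z : ℂ, ‖z‖ = 1 → Ph ψ A s k0 (fun k => e (r k)) =
          (z ^ p * (starRingEnd ℂ z) ^ q) * Ph ψ A s k0 (fun k => e (r k)) := by
        intro z hz1
        have h1 := Ph_prod f ψ hψ hd h A hA hsq hf hs k0 (fun k => e (r k))
          (fun k => (r k).isLeft) (fun l => heA (r l)) (fun _ => z)
        rw [Ph_unit ψ hz A k0 hz1] at h1
        have h2 : ∏ l, th ((r l).isLeft) z = z ^ p * (starRingEnd ℂ z) ^ q := by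
          rw [hbij.prod_comp (fun i : Fin p ⊕ Fin q => th i.isLeft z), Fintype.prod_sum_type]
          simp [th]
        rw [h2] at h1
        exact h1
      have hne' : ((p : ℝ) - q) ≠ 0 := by
        intro h1
        apply hpq'
        have h2 : (p : ℝ) = q := by linarith
        exact_mod_cast h2
      have h1 := hval (Complex.exp (((Real.pi / ((p : ℝ) - q) : ℝ) : ℂ) * Complex.I))
        (Complex.norm_exp_ofReal_mul_I _)
      have h2 : Complex.exp (((Real.pi / ((p : ℝ) - q) : ℝ) : ℂ) * Complex.I) ^ p *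
          (starRingEnd ℂ (Complex.exp (((Real.pi / ((p : ℝ) - q) : ℝ) : ℂ) * Complex.I))) ^ q = -1 := by
        rw [← Complex.exp_conj, ← Complex.exp_nat_mul, ← Complex.exp_nat_mul, ← Complex.exp_add,
          ← Complex.exp_pi_mul_I]
        congr 1
        rw [map_mul, Complex.conj_I, Complex.conj_ofReal]
        have h3 : ((Real.pi / ((p : ℝ) - q) : ℝ) : ℂ) * ((p : ℂ) - q) = (Real.pi : ℂ) := by
          have h4 : (Real.pi / ((p : ℝ) - q)) * ((p : ℝ) - q) = Real.pi := div_mul_cancel₀ _ hne'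
          have h5 := congrArg (fun x : ℝ => (x : ℂ)) h4
          push_cast at h5 ⊢
          exact h5
        linear_combination Complex.I * h3
      rw [h2] at h1
      have h3 : (2 : ℂ) * Ph ψ A s k0 (fun k => e (r k)) = 0 := by linear_combination h1
      exact (mul_eq_zero.1 h3).resolve_left two_ne_zero
    · rw [Function.Injective] at hr
      push Not at hr
      obtain ⟨i, l, hil, hne⟩ := hr
      exact Ph_alt hn f ψ hψ h A hA hf k0 _ hne (by rw [hil])
  have hPh : Ph ψ A s k0 = 0 := by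
    refine Basis.ext_multilinear (fun _ => Complex.basisOneI.smulTower e) fun v => ?_
    have h1 : (fun i => (Complex.basisOneI.smulTower e) (v i)) =
        fun i => (Complex.basisOneI (v i).1) • e (v i).2 := by
      funext i
      rw [Basis.smulTower_apply]
    rw [h1, Ph_prod f ψ hψ hd h A hA hsq hf hs k0 (fun k => e (v k).2)
      (fun k => ((v k).2).isLeft) (fun l => heA (v l).2) (fun l => Complex.basisOneI (v l).1),
      hzero, mul_zero]
    rfl
  apply h0
  ext v
  have h1 : Ph ψ A s k0 (fun l => Y.per (v l)) = 0 := by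
    rw [hPh]
    rfl
  rw [Ph_apply, hψ] at h1
  have h2 := congrArg Complex.im h1
  rw [Complex.add_im, Complex.ofReal_im, add_zero, Complex.zero_im, hst] at h2
  have h3 : (((t : ℂ) * Complex.I) * (((f v : ℚ) : ℝ) : ℂ)).im = t * ((f v : ℚ) : ℝ) := by simp
  rw [h3] at h2
  have h4 := (mul_eq_zero.1 h2).resolve_left ht
  rw [AlternatingMap.zero_apply]
  exact_mod_cast h4

end weil

/-! ### Simple factors with complex multiplication -/

section factor

variable {P : CMPair} {hP : ∃ E, IsPolarization (perC P) E} (hprim : Primitive P) {Y : AV}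

include hprim in
/-- The multiplicities of a simple factor are bounded by the multiplicities on the whole abelian
variety. -/
theorem mult_le (g : HM P hP Y) (hg : g ≠ 0) (h : Y.H →ₗ[ℚ] Y.H) (A : Y.T →ₗ[ℂ] Y.T)
    (hA : ∀ v, A (Y.per v) = Y.per (h v)) (δ : P.E) (hgδ : ∀ x, h (g.f x) = g.f (δ * x)) (w : ℂ) :
    {φ ∈ P.Φ | φ δ = w}.encard ≤ finrank ℂ (eigS A w) := by
  classical
  have hfin := Y.finT
  have hinj : Function.Injective g.f := by
    intro x y hxy
    by_contra hne
    have h1 : g.f (x - y) = 0 := by rw [map_sub, hxy, sub_self]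
    have h2 := simple_hom_zero (simple_prim (hP := hP) hprim) g.isHom (x := (x - y : P.E))
      (sub_ne_zero.2 hne) h1
    exact hg (HM.ext' fun x => congrArg (fun f => f x) h2)
  obtain ⟨r, ⟨Ψr, hΨr⟩, hr⟩ := exists_retract hP hprim g.isHom hinj
  obtain ⟨Θ, hΘ⟩ := g.isHom
  have h1 : ∀ t : P.Φ → ℂ, Ψr (Θ t) = t := by
    intro t
    have h2 : (Ψr ∘ₗ Θ).restrictScalars ℝ = (LinearMap.id : (P.Φ → ℂ) →ₗ[ℂ] (P.Φ → ℂ)).restrictScalars ℝ :=
      real_ext (avP P hP) fun v => by
        change Ψr (Θ ((avP P hP).per v)) = (avP P hP).per v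
        rw [hΘ, hΨr]
        congr 1
        exact hr v
    exact congrArg (fun f => f t) h2
  have h3 : ∀ t : P.Φ → ℂ, A (Θ t) = Θ (fun φ => φ.1 δ * t φ) := by
    intro t
    let D : (P.Φ → ℂ) →ₗ[ℂ] (P.Φ → ℂ) :=
      LinearMap.pi fun φ => φ.1 δ • LinearMap.proj φ
    have h2 : (A ∘ₗ Θ).restrictScalars ℝ = (Θ ∘ₗ D).restrictScalars ℝ :=
      real_ext (avP P hP) fun v => by
        change A (Θ ((avP P hP).per v)) = Θ (D ((avP P hP).per v))
        have h4 : D ((avP P hP).per v) = (avP P hP).per (mulE P δ v) := by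
          funext φ
          exact (map_mul φ.1 δ v).symm
        rw [h4, hΘ, hΘ, hA]
        congr 1
        exact hgδ v
    exact congrArg (fun f => f t) h2
  let S : Set P.Φ := {φ | φ.1 δ = w}
  let J : (S → ℂ) →ₗ[ℂ] eigS A w :=
    LinearMap.codRestrict _ (Θ ∘ₗ (LinearMap.pi fun φ : P.Φ =>
      if hφ : φ ∈ S then LinearMap.proj (⟨φ, hφ⟩ : S) else 0)) fun t => by
        rw [mem_eigS, LinearMap.comp_apply, h3, ← map_smul]
        congr 1
        funext φ
        by_cases hφ : φ ∈ S
        · have h4 : φ.1 δ = w := hφ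
          rw [h4]
          rfl
        · change φ.1 δ * ((if hφ : φ ∈ S then LinearMap.proj (⟨φ, hφ⟩ : S) else 0 :
            (S → ℂ) →ₗ[ℂ] ℂ) t) = w * ((if hφ : φ ∈ S then LinearMap.proj (⟨φ, hφ⟩ : S) else 0 :
            (S → ℂ) →ₗ[ℂ] ℂ) t)
          rw [dif_neg hφ]
          simp
  have hJ : Function.Injective J := by
    rw [← LinearMap.ker_eq_bot, LinearMap.ker_eq_bot']
    intro t ht
    have h4 : Θ (fun φ : P.Φ => (if hφ : φ ∈ S then LinearMap.proj (⟨φ, hφ⟩ : S) else 0 :
        (S → ℂ) →ₗ[ℂ] ℂ) t) = 0 := congrArg Subtype.val ht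
    have h5 := congrArg Ψr h4
    rw [h1, map_zero] at h5
    funext φ
    have h6 := congrFun h5 φ.1
    change (if hφ : φ.1 ∈ S then LinearMap.proj (⟨φ.1, hφ⟩ : S) else 0 :
        (S → ℂ) →ₗ[ℂ] ℂ) t = 0 at h6
    rw [dif_pos φ.2] at h6
    exact h6
  have h7 := LinearMap.finrank_le_finrank_of_injective hJ
  rw [finrank_fintype_fun_eq_card] at h7
  have h8 : {φ ∈ P.Φ | φ δ = w}.encard = (Fintype.card S : ℕ∞) := by
    have h9 : {φ ∈ P.Φ | φ δ = w} = Subtype.val '' S := by
      ext φ
      constructor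
      · rintro ⟨a, b⟩
        exact ⟨⟨φ, a⟩, b, rfl⟩
      · rintro ⟨φ', b, rfl⟩
        exact ⟨φ'.2, b⟩
    rw [h9, Subtype.val_injective.encard_image, ← Set.coe_fintypeCard]
  rw [h8]
  exact_mod_cast h7

include hprim in
/-- **A simple factor of an abelian variety with a Weil class.** -/
theorem mult_weil {n : ℕ} (hn : 3 ≤ n) (hrank : finrank ℚ Y.H = 2 * n)
    (f : Y.H [⋀^Fin n]→ₗ[ℚ] ℚ) (hHf : IsHodge Y.per f) (h0 : f ≠ 0) {d : ℚ} (hd : 0 < d)
    {h : Y.H →ₗ[ℚ] Y.H} (hh : IsHom Y Y h) (hsq : ∀ w, h (h w) = -(d • w))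
    (hf : ∀ (v : Fin n → Y.H) (k l : Fin n),
      f (Function.update v k (h (v k))) = f (Function.update v l (h (v l))))
    (δ : P.E) (hδ : δ * δ = -(d : P.E)) (g : HM P hP Y) (hg : g ≠ 0)
    (hgδ : push hh g = δ • g) (w : ℂ) : {φ ∈ P.Φ | φ δ = w}.encard ≤ (n / 2 : ℕ) := by
  classical
  obtain ⟨A, hA⟩ := hh
  obtain ⟨ψ, hψ, hz⟩ := hHf
  have hgδ' : ∀ x, h (g.f x) = g.f (δ * x) := by
    intro x
    have h1 := congrArg (fun i : HM P hP Y => i.f x) hgδ
    exact h1
  by_cases hw : w * w = -(d : ℂ)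
  · have h1 := mult_eq hn f ψ hψ hz hd h A hA hsq hf hw hrank h0
    have h2 := mult_le hprim g hg h A hA δ hgδ' w
    refine h2.trans ?_
    have h3 : finrank ℂ (eigS A w) = n / 2 := by omega
    rw [h3]
  · have h1 : {φ ∈ P.Φ | φ δ = w} = ∅ := by
      ext φ
      constructor
      · rintro ⟨-, b⟩
        apply hw
        rw [← b, ← map_mul, hδ, map_neg, map_ratCast]
      · exact fun h => h.elim
    rw [h1, Set.encard_empty]
    exact bot_le

end factor

end

end Pool.Agent.K4H21.LC
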