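import Pool.Agent.K4H21.LC.Det
import Pool.Agent.K4H21.LC.Neg

/-!
# The determinants of the multiplicative operators
-/

set_option linter.unusedSectionVars false
set_option linter.unusedVariables false
set_option autoImplicit false

namespace Pool.Agent.K4H21.LC

open Module NumberField Pool.Agent.R915 Pool.Agent.K4H29.HC
open Pool.Agent.Y90 (AV IsHom IsPolarization)
open Pool.Agent.H204R3.CM (IsHodge IsCMType)
open Pool.Agent.W547.KB (CMPair)
open Pool.Agent.W547.LN (SameType)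

noncomputable section

/-! ### The algebra of the operators -/

section ops

variable {P Q : CMPair} {hP : ∃ E, IsPolarization (perC P) E} {hQ : ∃ E, IsPolarization (perC Q) E}
  (hprim : Primitive P) (hprimQ : Primitive Q) (Y : AV)

theorem opA_add (θ θ' : P.E) :
    opA hP hprim (θ + θ') Y = opA hP hprim θ Y + opA hP hprim θ' Y := by
  refine LinearMap.ext fun v => ?_
  rw [LinearMap.add_apply, opA_apply, opA_apply, opA_apply, add_smul, map_add]

theorem opA_smulQ (q : ℚ) (θ : P.E) : opA hP hprim (q • θ) Y = q • opA hP hprim θ Y := by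
  refine LinearMap.ext fun v => ?_
  rw [LinearMap.smul_apply, opA_apply, opA_apply, smul_assoc, map_smul]

/-- The operators as a linear map. -/
def opL (hP : ∃ E, IsPolarization (perC P) E) (hprim : Primitive P) (Y : AV) :
    P.E →ₗ[ℚ] (Y.H →ₗ[ℚ] Y.H) where
  toFun θ := opA hP hprim θ Y
  map_add' := opA_add hprim Y
  map_smul' := opA_smulQ hprim Y

theorem opL_apply (θ : P.E) : opL hP hprim Y θ = opA hP hprim θ Y := rfl

theorem opA_mul (θ θ' : P.E) :
    opA hP hprim (θ * θ') Y = (opA hP hprim θ Y) ∘ₗ (opA hP hprim θ' Y) := by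
  refine LinearMap.ext fun v => ?_
  rw [LinearMap.comp_apply, opA_apply hprim θ' v, opA_ev, ← ev_smul, smul_smul, opA_apply]

theorem opA_orth (hne : ¬ SameType P Q) (θ : P.E) (θ' : Q.E) :
    (opA hP hprim θ Y) ∘ₗ (opA hQ hprimQ θ' Y) = 0 := by
  refine LinearMap.ext fun v => ?_
  rw [LinearMap.comp_apply, LinearMap.zero_apply, opA_apply hprimQ θ' v, ev_apply]
  obtain ⟨i, hi⟩ : ∃ i : HM Q hQ Y, i = θ' • prM (hP := hQ) hprimQ Y v := ⟨_, rfl⟩
  rw [← hi]
  have h1 := opA_nat (hP := hP) hprim θ i.isHom (1 : Q.E)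
  have h2 : (opA hP hprim θ (avP Q hQ) (1 : Q.E) : Q.E) = 0 :=
    opA_other hprim θ (fun g hg => hom_zero hprim hprimQ hne hg) (1 : Q.E)
  have h3 : i.f (opA hP hprim θ (avP Q hQ) (1 : Q.E) : Q.E) = opA hP hprim θ Y (i.f 1) := h1
  rw [← h3]
  exact (congrArg (fun y : Q.E => i.f y) h2).trans (map_zero i.f)

theorem opA_comm {h : Y.H →ₗ[ℚ] Y.H} (hh : IsHom Y Y h) (θ : P.E) (v : Y.H) :
    h (opA hP hprim θ Y v) = opA hP hprim θ Y (h v) := opA_nat hprim θ hh v

/-- The trace of the operators. -/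
theorem trace_opA (θ : P.E) : ((LinearMap.trace ℚ Y.H (opA hP hprim θ Y) : ℚ) : ℂ) =
    ∑ ψ : P.E →+* ℂ, (finrank P.E (HM P hP Y) : ℂ) * ψ θ := by
  have h1 := opA_trace (hP := hP) hprim θ (isHom_id Y)
  have h2 : (LinearMap.id : Y.H →ₗ[ℚ] Y.H) ∘ₗ opA hP hprim θ Y = opA hP hprim θ Y :=
    LinearMap.id_comp _
  have h3 : push (P := P) (hP := hP) (isHom_id Y) = LinearMap.id := LinearMap.ext fun i => rfl
  rw [h2, h3, LinearMap.trace_id] at h1
  rw [h1, trace_emb]
  refine Finset.sum_congr rfl fun ψ _ => ?_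
  rw [map_mul, map_natCast, mul_comm]

theorem trace_hopA {h : Y.H →ₗ[ℚ] Y.H} (hh : IsHom Y Y h) (θ : P.E) :
    ((LinearMap.trace ℚ Y.H (h ∘ₗ opA hP hprim θ Y) : ℚ) : ℂ) =
    ∑ ψ : P.E →+* ℂ, ψ (LinearMap.trace P.E (HM P hP Y) (push hh)) * ψ θ := by
  rw [opA_trace (hP := hP) hprim θ hh, trace_emb]
  refine Finset.sum_congr rfl fun ψ _ => ?_
  rw [map_mul, mul_comm]

end ops

/-! ### The product of the numbers -/

section prod

theorem prod_all {P : CMPair} (t : (P.E →+* ℂ) → ℂ)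
    (ht : ∀ φ, t φ * t (ComplexEmbedding.conjugate φ) = 1) : ∏ φ, t φ = 1 := by
  classical
  rw [← Finset.prod_filter_mul_prod_filter_not Finset.univ (fun φ => φ ∈ P.Φ)]
  have h1 : ∏ φ ∈ Finset.univ.filter (fun φ : P.E →+* ℂ => ¬ φ ∈ P.Φ), t φ =
      ∏ φ ∈ Finset.univ.filter (fun φ : P.E →+* ℂ => φ ∈ P.Φ), t (ComplexEmbedding.conjugate φ) := by
    refine Finset.prod_bij' (fun φ _ => ComplexEmbedding.conjugate φ)
      (fun φ _ => ComplexEmbedding.conjugate φ) ?_ ?_ ?_ ?_ ?_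
    · intro φ hφ
      rw [Finset.mem_filter] at hφ ⊢
      refine ⟨Finset.mem_univ _, ?_⟩
      by_contra h
      exact hφ.2 ((P.isCMType φ).2 h)
    · intro φ hφ
      rw [Finset.mem_filter] at hφ ⊢
      exact ⟨Finset.mem_univ _, (P.isCMType φ).1 hφ.2⟩
    · exact fun φ _ => star_star φ
    · exact fun φ _ => star_star φ
    · intro φ _
      change t φ = t (ComplexEmbedding.conjugate (ComplexEmbedding.conjugate φ))
      rw [show ComplexEmbedding.conjugate (ComplexEmbedding.conjugate φ) = φ from star_star φ]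
  rw [h1, ← Finset.prod_mul_distrib]
  exact Finset.prod_eq_one fun φ _ => ht φ

theorem prod_const {ι : Type} (s : Finset ι) (t : ι → ℂ) (r : ι → ℕ) (ht : ∏ φ ∈ s, t φ = 1)
    (hr : ∀ φ ∈ s, ∀ ψ ∈ s, r φ = r ψ) : ∏ φ ∈ s, t φ ^ r φ = 1 := by
  classical
  rcases s.eq_empty_or_nonempty with h | ⟨φ0, h0⟩
  · rw [h, Finset.prod_empty]
  · rw [Finset.prod_congr rfl fun φ hφ => by rw [hr φ hφ φ0 h0], Finset.prod_pow, ht, one_pow]

end prod

section main

variable {ι : Type} [Fintype ι] [DecidableEq ι] {P : ι → CMPair}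
  (hpol : ∀ i, ∃ E, IsPolarization (perC (P i)) E) (hprim : ∀ i, Primitive (P i))
  (hne : ∀ i k, i ≠ k → ¬ SameType (P i) (P k)) (t : ∀ i, ((P i).E →+* ℂ) → ℂ)
  (ht : ∀ i φ, t i φ * t i (ComplexEmbedding.conjugate φ) = 1)
  (cf : ∀ i, Fin (finrank ℚ (P i).E) → ℂ)
  (hcf : ∀ i ψ, ∑ l, cf i l * ψ (finBasis ℚ (P i).E l) = t i ψ - 1) (Y : AV)

include hne hcf in
/-- The determinant in general. -/
theorem det_gen {n : Type} [Fintype n] [DecidableEq n]
    (R : (Y.H →ₗ[ℚ] Y.H) →ₗ[ℚ] Matrix n n ℂ) (hid : R LinearMap.id = 1)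
    (hmul : ∀ i k x y, R (opA (hpol i) (hprim i) x Y ∘ₗ opA (hpol k) (hprim k) y Y) =
      R (opA (hpol i) (hprim i) x Y) * R (opA (hpol k) (hprim k) y Y))
    (nn : ∀ i, ((P i).E →+* ℂ) → ℂ)
    (htr : ∀ i x, (R (opA (hpol i) (hprim i) x Y)).trace = ∑ ψ, nn i ψ * ψ x) :
    ∃ rk : ∀ i, ((P i).E →+* ℂ) → ℕ, (∀ i φ, ((rk i φ : ℕ) : ℂ) = nn i φ) ∧
      (∑ r, Pool.Agent.K4H21.LC.cc cf r • R (Op hpol hprim (fun i => finBasis ℚ (P i).E) Y r)).det =
        ∏ i, ∏ φ, t i φ ^ rk i φ := by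
  classical
  have he := fun i => exists_dualE (finBasis ℚ (P i).E)
  choose e he using he
  obtain ⟨rk, h1, h2⟩ := det_op (fun i => (P i).E) (fun i => Fin (finrank ℚ (P i).E))
    (fun i => finBasis ℚ (P i).E) e (fun i φ ψ => he i φ ψ)
    (fun i => R.comp (opL (hpol i) (hprim i) Y)) (fun i x y => by
      change R (opA (hpol i) (hprim i) (x * y) Y) = _
      rw [opA_mul, hmul]
      rfl) (fun i k hik x y => by
      change R (opA (hpol i) (hprim i) x Y) * R (opA (hpol k) (hprim k) y Y) = 0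
      rw [← hmul, opA_orth (hprim i) (hprim k) Y (hne i k hik), map_zero]) nn
    (fun i x => htr i x)
  refine ⟨rk, h1, ?_⟩
  rw [← h2 t, Fintype.sum_option, Fintype.sum_sigma]
  have h3 : ∀ i, cf i = Pool.Agent.K4H21.LC.cf (e i) (t i) := by
    intro i
    have h4 := emb_zero (finBasis ℚ (P i).E) (fun l => cf i l - Pool.Agent.K4H21.LC.cf (e i) (t i) l)
      (fun ψ => by
        have h5 := cf_spec (he i) (t i) ψ
        simp only [sub_mul, Finset.sum_sub_distrib]
        rw [hcf, h5, sub_self])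
    funext l
    exact sub_eq_zero.1 (congrFun h4 l)
  congr 2
  · change (1 : ℂ) • R LinearMap.id = 1
    rw [hid, one_smul]
  · refine Finset.sum_congr rfl fun i _ => Finset.sum_congr rfl fun l _ => ?_
    change cf i l • R (opA (hpol i) (hprim i) (finBasis ℚ (P i).E l) Y) = _
    rw [h3]
    rfl

include hne hcf ht in
/-- The determinant on the rational homology is one. -/
theorem det_push {κ' : Type} [Fintype κ'] [DecidableEq κ'] (b' : Basis κ' ℚ Y.H) :
    (∑ r, Pool.Agent.K4H21.LC.cc cf r • (LinearMap.toMatrix b' b'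
      (Op hpol hprim (fun i => finBasis ℚ (P i).E) Y r)).map (algebraMap ℚ ℂ)).det = 1 := by
  classical
  let R : (Y.H →ₗ[ℚ] Y.H) →ₗ[ℚ] Matrix κ' κ' ℂ :=
    ((Algebra.linearMap ℚ ℂ).mapMatrix).comp (LinearMap.toMatrix b' b').toLinearMap
  have hR : ∀ A, R A = (LinearMap.toMatrix b' b' A).map (algebraMap ℚ ℂ) := fun A => rfl
  obtain ⟨rk, h1, h2⟩ := det_gen hpol hprim hne t cf hcf Y R (by
      rw [hR, LinearMap.toMatrix_id]
      exact Matrix.map_one _ (map_zero _) (map_one _)) (fun i k x y => by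
      rw [hR, hR, hR, LinearMap.toMatrix_comp b' b' b', Matrix.map_mul])
    (fun i ψ => (finrank (P i).E (HM (P i) (hpol i) Y) : ℂ)) (fun i x => by
      have h3 := trace_opA (hP := hpol i) (hprim i) Y x
      rw [← h3, LinearMap.trace_eq_matrix_trace ℚ b', hR, Matrix.trace, Matrix.trace]
      rw [Rat.cast_sum]
      rfl)
  have h3 : ∀ r, R (Op hpol hprim (fun i => finBasis ℚ (P i).E) Y r) =
      (LinearMap.toMatrix b' b' (Op hpol hprim (fun i => finBasis ℚ (P i).E) Y r)).map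
        (algebraMap ℚ ℂ) := fun r => hR _
  rw [Finset.sum_congr rfl fun r _ => by rw [h3 r]] at h2
  rw [h2]
  refine Finset.prod_eq_one fun i _ => prod_const _ _ _ (prod_all (t i) (ht i)) ?_
  intro φ _ ψ _
  have h4 := (h1 i φ).trans (h1 i ψ).symm
  exact_mod_cast h4

include hne hcf ht in
/-- The determinant on an eigenspace of an imaginary quadratic field is one. -/
theorem det_weil {n : Type} [Fintype n] [DecidableEq n] {d : ℚ} (hd : 0 < d)
    {h : Y.H →ₗ[ℚ] Y.H} (hh : IsHom Y Y h) (hsq : ∀ w, h (h w) = -(d • w)) {z : ℂ}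
    (hz : z * z = -(d : ℂ))
    (R : (Y.H →ₗ[ℚ] Y.H) →ₗ[ℚ] Matrix n n ℂ) (hid : R LinearMap.id = 1)
    (hmul : ∀ A B : Y.H →ₗ[ℚ] Y.H, (∀ v, h (A v) = A (h v)) → (∀ v, h (B v) = B (h v)) →
      R (A ∘ₗ B) = R A * R B)
    (htr : ∀ A : Y.H →ₗ[ℚ] Y.H, (∀ v, h (A v) = A (h v)) →
      (R A).trace = (((LinearMap.trace ℚ Y.H A : ℚ) : ℂ) +
        ((LinearMap.trace ℚ Y.H (h ∘ₗ A) : ℚ) : ℂ) / z) / 2)
    (hprod : ∀ i (δ : (P i).E), δ * δ = -(d : (P i).E) →
      (∃ g : HM (P i) (hpol i) Y, g ≠ 0 ∧ push hh g = δ • g) →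
      ∀ z' : ℂ, z' * z' = -(d : ℂ) →
        ∏ φ ∈ Finset.univ.filter (fun φ : (P i).E →+* ℂ => φ δ = z'), t i φ = 1) :
    (∑ r, Pool.Agent.K4H21.LC.cc cf r • R (Op hpol hprim (fun i => finBasis ℚ (P i).E) Y r)).det = 1 := by
  classical
  have hz0 : z ≠ 0 := by
    rintro rfl
    rw [mul_zero] at hz
    have h1 : (d : ℂ) = 0 := neg_eq_zero.1 hz.symm
    exact hd.ne' (Rat.cast_eq_zero.1 h1)
  obtain ⟨rk, h1, h2⟩ := det_gen hpol hprim hne t cf hcf Y R hid (fun i k x y =>
      hmul _ _ (fun v => opA_nat (hprim i) x hh v) (fun v => opA_nat (hprim k) y hh v))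
    (fun i ψ => ((finrank (P i).E (HM (P i) (hpol i) Y) : ℂ) +
      ψ (LinearMap.trace (P i).E (HM (P i) (hpol i) Y) (push hh)) / z) / 2) (fun i x => by
      rw [htr _ (fun v => opA_nat (hprim i) x hh v), trace_opA (hP := hpol i) (hprim i) Y x,
        trace_hopA (hP := hpol i) (hprim i) Y hh x, Finset.sum_div, ← Finset.sum_add_distrib,
        Finset.sum_div]
      refine Finset.sum_congr rfl fun ψ _ => ?_
      ring)
  rw [h2]
  refine Finset.prod_eq_one fun i _ => ?_
  let M := HM (P i) (hpol i) Y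
  obtain ⟨τ, hτ⟩ : ∃ τ, τ = LinearMap.trace (P i).E M (push hh) := ⟨_, rfl⟩
  have h1' : ∀ φ, ((rk i φ : ℕ) : ℂ) = ((finrank (P i).E M : ℂ) + φ τ / z) / 2 := by
    intro φ
    rw [hτ]
    exact h1 i φ
  by_cases h0 : τ = 0
  · refine prod_const _ _ _ (prod_all (t i) (ht i)) ?_
    intro φ _ ψ _
    have h4 : ((rk i φ : ℕ) : ℂ) = ((rk i ψ : ℕ) : ℂ) := by
      rw [h1', h1', h0, map_zero, map_zero]
    exact_mod_cast h4
  · -- the square root
    have hη : ∀ x : M, push hh (push hh x) = -((d : (P i).E) • x) := by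
      intro x
      refine HM.ext' fun y => ?_
      change h (h (x.f y)) = (-(((d : (P i).E)) • x)).f y
      have h3 : (-(((d : (P i).E)) • x)).f y = -(((d : (P i).E)) • x).f y := rfl
      rw [h3, HM.smul_f, hsq, ← map_smul, Rat.smul_def]
    let c := finBasis (P i).E M
    obtain ⟨k, hk⟩ := trace_sqrt (LinearMap.toMatrix c c (push hh)) hd (by
      rw [← LinearMap.toMatrix_mul, ← LinearMap.toMatrix_one c, ← map_smul, ← map_neg]
      congr 1
      exact LinearMap.ext fun x => hη x)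
    rw [← LinearMap.trace_eq_matrix_trace (P i).E c, ← hτ] at hk
    have hk0 : (k : (P i).E) ≠ 0 := by
      intro h3
      have h4 : k = 0 := by exact_mod_cast h3
      rw [h4, Int.cast_zero, zero_pow two_ne_zero, mul_zero, Rat.cast_zero, neg_zero] at hk
      exact h0 (pow_eq_zero_iff two_ne_zero |>.1 hk)
    let δ : (P i).E := τ / k
    have hδ : δ * δ = -(d : (P i).E) := by
      change τ / k * (τ / k) = _
      rw [div_mul_div_comm, ← sq, hk, ← sq]
      push_cast
      rw [← neg_mul, mul_div_assoc, div_self (pow_ne_zero 2 hk0), mul_one]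
    have hτδ : τ = k * δ := by
      change τ = k * (τ / k)
      rw [mul_div_cancel₀ _ hk0]
    -- the products
    have hclass : ∀ z' : ℂ, z' * z' = -(d : ℂ) →
        ∏ φ ∈ Finset.univ.filter (fun φ : (P i).E →+* ℂ => φ δ = z'), t i φ = 1 := by
      obtain ⟨x, hx⟩ : ∃ x : M, x ≠ 0 := by
        by_contra hcon
        push Not at hcon
        apply h0
        rw [hτ]
        have h3 : push (P := P i) (hP := hpol i) hh = 0 := LinearMap.ext fun x => by
          rw [hcon x, map_zero, map_zero]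
        rw [h3, map_zero]
      by_cases hy : push hh x + δ • x = 0
      · intro z' hz'
        have h3 := hprod i (-δ) (by rw [neg_mul_neg, hδ]) ⟨x, hx, by
          rw [neg_smul]
          exact eq_neg_of_add_eq_zero_left hy⟩ (-z') (by rw [neg_mul_neg, hz'])
        rw [← h3]
        refine Finset.prod_congr ?_ fun _ _ => rfl
        ext φ
        rw [Finset.mem_filter, Finset.mem_filter, map_neg, neg_inj]
      · refine hprod i δ hδ ⟨push hh x + δ • x, hy, ?_⟩
        rw [map_add, hη, map_smul, smul_add, smul_smul, hδ, neg_smul, add_comm]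
    rw [← Finset.prod_filter_mul_prod_filter_not Finset.univ (fun φ : (P i).E →+* ℂ => φ δ = z)]
    have hnot : Finset.univ.filter (fun φ : (P i).E →+* ℂ => ¬ φ δ = z) =
        Finset.univ.filter (fun φ : (P i).E →+* ℂ => φ δ = -z) := by
      ext φ
      rw [Finset.mem_filter, Finset.mem_filter]
      have h3 : φ δ * φ δ = z * z := by
        rw [← map_mul, hδ, map_neg, map_ratCast, hz]
      constructor
      · rintro ⟨a, b⟩
        exact ⟨a, (mul_self_eq_mul_self_iff.1 h3).resolve_left b⟩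
      · rintro ⟨a, b⟩
        refine ⟨a, fun h4 => hz0 ?_⟩
        rw [h4] at b
        exact self_eq_neg.1 b
    rw [hnot, prod_const _ _ _ (hclass z hz), prod_const _ _ _ (hclass (-z) (by rw [neg_mul_neg, hz])),
      mul_one]
    · intro φ hφ ψ hψ
      have e1 := (Finset.mem_filter.1 hφ).2
      have e2 := (Finset.mem_filter.1 hψ).2
      have h4 : ((rk i φ : ℕ) : ℂ) = ((rk i ψ : ℕ) : ℂ) := by
        rw [h1', h1', hτδ, map_mul, map_mul, e1, e2, map_intCast, map_intCast]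
      exact_mod_cast h4
    · intro φ hφ ψ hψ
      have e1 := (Finset.mem_filter.1 hφ).2
      have e2 := (Finset.mem_filter.1 hψ).2
      have h4 : ((rk i φ : ℕ) : ℂ) = ((rk i ψ : ℕ) : ℂ) := by
        rw [h1', h1', hτδ, map_mul, map_mul, e1, e2, map_intCast, map_intCast]
      exact_mod_cast h4

end main

end

end Pool.Agent.K4H21.LC
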