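import Mathlib
import Pool.Agent.K4H29.HC.Kill
import Pool.Agent.K4H21.LC.Det

/-!
# Adjoints of the operators, and their multiplicative combinations on Hodge classes of degree two
-/

set_option linter.unusedSectionVars false
set_option linter.unusedVariables false

namespace Pool.Agent.K4H21.LC.T4

open Module NumberField Pool.Agent.Y90 Pool.Agent.R915 Pool.Agent.K4H29.HC
open Pool.Agent.H204R3.CM (IsHodge IsCMType)
open Pool.Agent.W547.KB (CMPair)
open Pool.Agent.W547.LN (SameType)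

noncomputable section

section one

variable {P : CMPair} {hP : ∃ E, IsPolarization (perC P) E} (hprim : Primitive P) {Y Z : AV}

/-- The operators are multiplicative. -/
theorem opA_mul (θ θ' : P.E) (v : Y.H) :
    opA hP hprim θ Y (opA hP hprim θ' Y v) = opA hP hprim (θ * θ') Y v := by
  rw [opA_apply hprim θ, opA_apply hprim θ', prM_ev, opA_apply hprim (θ * θ'), mul_smul]

/-- The operator as a linear function of the element. -/
def opL (hP : ∃ E, IsPolarization (perC P) E) (hprim : Primitive P) (Y : AV) (v : Y.H) :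
    P.E →ₗ[ℚ] Y.H where
  toFun θ := opA hP hprim θ Y v
  map_add' θ θ' := by
    rw [opA_apply, opA_apply, opA_apply, add_smul, map_add]
  map_smul' q θ := by
    rw [opA_apply, opA_apply, smul_assoc, map_smul, RingHom.id_apply]

theorem opL_apply (θ : P.E) (v : Y.H) : opL hP hprim Y v θ = opA hP hprim θ Y v := rfl

/-- **Adjoints**: the adjoint of the operator of an element for a polarization is the operator of the
complex conjugate. -/
theorem opA_adj {θ θ' : P.E} (hθ : ∀ φ : P.E →+* ℂ, φ θ' = starRingEnd ℂ (φ θ)) (p : PolD Y)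
    (u v : Y.H) : p.ω (opA hP hprim θ Y u) v = p.ω u (opA hP hprim θ' Y v) := by
  obtain ⟨p0⟩ := exists_polD (avP P hP)
  -- the form on the abelian variety itself
  have h0 : ∀ x y : P.E, p0.ω (θ * x : P.E) y = p0.ω x (θ' * y : P.E) := by
    let ρ : P.E →+* Module.End ℚ (avP P hP).H :=
      { toFun := fun a => mulE P a
        map_one' := LinearMap.ext fun x => one_mul x
        map_mul' := fun a b => LinearMap.ext fun x => mul_assoc a b x
        map_zero' := LinearMap.ext fun x => zero_mul x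
        map_add' := fun a b => LinearMap.ext fun x => add_mul a b x }
    obtain ⟨a', h1, h2⟩ := exists_conj' (Y := avP P hP) (simple_prim (hP := hP) hprim) ρ
      (fun a => isHom_mulE a) (LinearEquiv.refl ℚ P.E) (fun a v => rfl) P.isCMType
      (LinearEquiv.refl ℂ (P.Φ → ℂ)) (fun v φ => rfl) p0 θ
    have h3 : a' = θ' := by
      obtain ⟨φ⟩ : Nonempty (P.E →+* ℂ) := inferInstance
      apply φ.injective
      rw [h2, hθ]
    intro x y
    have h4 := h1 x y
    rw [h3] at h4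
    exact h4.symm
  have h0' : ∀ y : P.E, p0.ω (1 : P.E) (opA hP hprim θ' (avP P hP) y) = p0.ω θ y := by
    intro y
    have e1 := h0 1 y
    rw [mul_one] at e1
    have e2 : p0.ω (1 : P.E) (opA hP hprim θ' (avP P hP) y) = p0.ω (1 : P.E) (θ' * y : P.E) :=
      congrArg (fun z : P.E => p0.ω (1 : P.E) z) (opA_self hprim θ' y)
    rw [e2]
    exact e1.symm
  have key : ∀ (i : HM P hP Y) (v : Y.H),
      p.ω (opA hP hprim θ Y (ev P hP Y i)) v = p.ω (ev P hP Y i) (opA hP hprim θ' Y v) := by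
    intro i v
    obtain ⟨g, hg, hadj⟩ := exists_adj p0 p i.isHom
    have hadj' : ∀ (x : P.E) (y : Y.H), p0.ω x (g y) = p.ω (i.f x) y := hadj
    rw [opA_ev, ev_apply, ← hadj', ← hadj', opA_nat hprim θ' hg]
    exact (h0' (g v)).symm
  obtain ⟨i, w, hw, rfl⟩ := dec (hP := hP) hprim u
  obtain ⟨k, w', hw', rfl⟩ := dec (hP := hP) hprim v
  have h1 : p.ω w (opA hP hprim θ' Y (ev P hP Y k)) = 0 := by
    obtain ⟨g, hg, hadj⟩ := exists_adj p0 p k.isHom
    have hadj' : ∀ (x : P.E) (y : Y.H), p0.ω x (g y) = p.ω (k.f x) y := hadj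
    rw [opA_ev, p.skew', ← hadj']
    have h2 : g w = 0 := hw g hg
    rw [h2]
    have h3 : p0.ω (θ' : P.E) 0 = 0 := map_zero _
    exact neg_eq_zero.2 h3
  have h2 := key i (ev P hP Y k + w')
  rw [map_add (opA hP hprim θ Y) (ev P hP Y i) w, opA_cok hprim θ hw, add_zero, map_add p.ω,
    LinearMap.add_apply, h2]
  have h3 : p.ω w (opA hP hprim θ' Y (ev P hP Y k + w')) = 0 := by
    rw [map_add (opA hP hprim θ' Y) (ev P hP Y k) w', opA_cok hprim θ' hw', add_zero]
    exact h1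
  rw [h3, add_zero]

/-- The same with the complex conjugation of the CM field. -/
theorem opA_adj' (θ : P.E) (p : PolD Y) (u v : Y.H) :
    p.ω (opA hP hprim θ Y u) v = p.ω u (opA hP hprim (IsCMField.complexConj P.E θ) Y v) :=
  opA_adj hprim (fun φ => IsCMField.complexEmbedding_complexConj P.E φ θ) p u v

end one

/-- Operators of different types are orthogonal. -/
theorem opA_orth {P Q : CMPair} {hP : ∃ E, IsPolarization (perC P) E}
    {hQ : ∃ E, IsPolarization (perC Q) E} (hprimP : Primitive P) (hprimQ : Primitive Q)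
    (hne : ¬ SameType P Q) (θ : P.E) (θ' : Q.E) {Y : AV} (v : Y.H) :
    opA hP hprimP θ Y (opA hQ hprimQ θ' Y v) = 0 := by
  rw [opA_apply hprimQ θ']
  obtain ⟨i, hi⟩ : ∃ i : HM Q hQ Y, i = θ' • prM hprimQ Y v := ⟨_, rfl⟩
  rw [← hi]
  have h1 : i.f (opA hP hprimP θ (avP Q hQ) (1 : Q.E)) = opA hP hprimP θ Y (i.f 1) :=
    opA_nat hprimP θ i.isHom (1 : Q.E)
  have h2 : opA hP hprimP θ (avP Q hQ) (1 : Q.E) = (0 : Q.E) :=
    opA_other hprimP θ (fun g hg => hom_zero hprimP hprimQ hne hg) _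
  change opA hP hprimP θ Y (i.f 1) = 0
  rw [← h1, h2]
  exact map_zero _

section many

variable {I : Type} [Fintype I] [DecidableEq I] (P : I → CMPair)
  (hpol : ∀ i, ∃ E, IsPolarization (perC (P i)) E) (hprim : ∀ i, Primitive (P i))
  [∀ i, DecidableEq ((P i).E →+* ℂ)]

/-- The indices of the summands of the multiplicative operator. -/
abbrev JJ : Type := Option (Σ i, Fin (finrank ℚ (P i).E))

/-- The coefficients of the multiplicative operator. -/
def co (t : ∀ i, ((P i).E →+* ℂ) → ℂ) : JJ P → ℂ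
  | none => 1
  | some ⟨i, m⟩ => cf (dualE (finBasis ℚ (P i).E)) (t i) m

/-- The summands of the multiplicative operator. -/
def Op (Y : AV) : JJ P → Y.H →ₗ[ℚ] Y.H
  | none => LinearMap.id
  | some ⟨i, m⟩ => opA (hpol i) (hprim i) (finBasis ℚ (P i).E m) Y

theorem co_none (t : ∀ i, ((P i).E →+* ℂ) → ℂ) : co P t none = 1 := rfl

theorem co_some (t : ∀ i, ((P i).E →+* ℂ) → ℂ) (i : I) (m : Fin (finrank ℚ (P i).E)) :
    co P t (some ⟨i, m⟩) = cf (dualE (finBasis ℚ (P i).E)) (t i) m := rfl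

theorem Op_none (Y : AV) (v : Y.H) : Op P hpol hprim Y none v = v := rfl

theorem Op_some (Y : AV) (i : I) (m : Fin (finrank ℚ (P i).E)) (v : Y.H) :
    Op P hpol hprim Y (some ⟨i, m⟩) v = opA (hpol i) (hprim i) (finBasis ℚ (P i).E m) Y v := rfl

/-- Naturality. -/
theorem Op_nat {Y Z : AV} {h : Y.H →ₗ[ℚ] Z.H} (hh : IsHom Y Z h) (j : JJ P) (v : Y.H) :
    h (Op P hpol hprim Y j v) = Op P hpol hprim Z j (h v) := by
  rcases j with _ | ⟨i, m⟩
  · rfl
  · exact opA_nat (hprim i) _ hh v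

/-- The sum over the coefficients of one type. -/
theorem sum_cf (t : ∀ i, ((P i).E →+* ℂ) → ℂ) (i : I) (L : (P i).E →ₗ[ℚ] ℂ) :
    ∑ m, cf (dualE (finBasis ℚ (P i).E)) (t i) m * L (finBasis ℚ (P i).E m) =
      ∑ ψ, (t i ψ - 1) * embB.repr L ψ := by
  have h1 : ∀ m, cf (dualE (finBasis ℚ (P i).E)) (t i) m * L (finBasis ℚ (P i).E m) =
      ∑ ψ, embB.repr L ψ * (cf (dualE (finBasis ℚ (P i).E)) (t i) m * ψ (finBasis ℚ (P i).E m)) :=
    fun m => by
      rw [embB_sum L, Finset.mul_sum]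
      exact Finset.sum_congr rfl fun ψ _ => by ring
  rw [Finset.sum_congr rfl fun m _ => h1 m, Finset.sum_comm]
  refine Finset.sum_congr rfl fun ψ _ => ?_
  rw [← Finset.mul_sum, cf_spec (dualE_spec _), mul_comm]

/-- The identity of one type. -/
theorem one_type (t : ∀ i, ((P i).E →+* ℂ) → ℂ)
    (ht : ∀ i φ, t i φ * t i (ComplexEmbedding.conjugate φ) = 1) (i : I) (L : (P i).E →ₗ[ℚ] ℂ)
    (σ : (P i).E → (P i).E) (hσ : ∀ (φ : (P i).E →+* ℂ) a, φ (σ a) = starRingEnd ℂ (φ a)) :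
    (∑ m, cf (dualE (finBasis ℚ (P i).E)) (t i) m * L (finBasis ℚ (P i).E m)) +
      (∑ m, cf (dualE (finBasis ℚ (P i).E)) (t i) m * L (σ (finBasis ℚ (P i).E m))) +
      (∑ m, ∑ m', cf (dualE (finBasis ℚ (P i).E)) (t i) m *
        cf (dualE (finBasis ℚ (P i).E)) (t i) m' *
        L (σ (finBasis ℚ (P i).E m) * finBasis ℚ (P i).E m')) = 0 := by
  have hc : ∀ m : Fin (finrank ℚ (P i).E),
      cf (dualE (finBasis ℚ (P i).E)) (t i) m * L (σ (finBasis ℚ (P i).E m)) =
        ∑ ψ, embB.repr L ψ * (cf (dualE (finBasis ℚ (P i).E)) (t i) m *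
          ComplexEmbedding.conjugate ψ (finBasis ℚ (P i).E m)) := fun m => by
    rw [embB_sum L, Finset.mul_sum]
    refine Finset.sum_congr rfl fun ψ _ => ?_
    rw [hσ, ComplexEmbedding.conjugate_coe_eq]
    ring
  have hd : ∀ m m' : Fin (finrank ℚ (P i).E),
      cf (dualE (finBasis ℚ (P i).E)) (t i) m * cf (dualE (finBasis ℚ (P i).E)) (t i) m' *
        L (σ (finBasis ℚ (P i).E m) * finBasis ℚ (P i).E m') =
        ∑ ψ, embB.repr L ψ * ((cf (dualE (finBasis ℚ (P i).E)) (t i) m *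
          ComplexEmbedding.conjugate ψ (finBasis ℚ (P i).E m)) *
          (cf (dualE (finBasis ℚ (P i).E)) (t i) m' * ψ (finBasis ℚ (P i).E m'))) := fun m m' => by
    rw [embB_sum L, Finset.mul_sum]
    refine Finset.sum_congr rfl fun ψ _ => ?_
    rw [map_mul, hσ, ComplexEmbedding.conjugate_coe_eq]
    ring
  rw [sum_cf, Finset.sum_congr rfl fun m _ => hc m, Finset.sum_comm]
  simp_rw [hd]
  have h2 : ∑ m, ∑ m', ∑ ψ, embB.repr L ψ * ((cf (dualE (finBasis ℚ (P i).E)) (t i) m *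
          ComplexEmbedding.conjugate ψ (finBasis ℚ (P i).E m)) *
          (cf (dualE (finBasis ℚ (P i).E)) (t i) m' * ψ (finBasis ℚ (P i).E m'))) =
      ∑ ψ, embB.repr L ψ * ((t i (ComplexEmbedding.conjugate ψ) - 1) * (t i ψ - 1)) := by
    have h3 : ∀ ψ : (P i).E →+* ℂ, ∑ m, ∑ m', embB.repr L ψ *
        ((cf (dualE (finBasis ℚ (P i).E)) (t i) m *
          ComplexEmbedding.conjugate ψ (finBasis ℚ (P i).E m)) *
          (cf (dualE (finBasis ℚ (P i).E)) (t i) m' * ψ (finBasis ℚ (P i).E m'))) =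
        embB.repr L ψ * ((t i (ComplexEmbedding.conjugate ψ) - 1) * (t i ψ - 1)) := fun ψ => by
      rw [← cf_spec (dualE_spec (finBasis ℚ (P i).E)) (t i) (ComplexEmbedding.conjugate ψ),
        ← cf_spec (dualE_spec (finBasis ℚ (P i).E)) (t i) ψ, Finset.sum_mul_sum, Finset.mul_sum]
      refine Finset.sum_congr rfl fun m _ => ?_
      rw [Finset.mul_sum]
    rw [← Finset.sum_congr rfl fun ψ _ => h3 ψ, Finset.sum_comm]
    refine Eq.trans ?_ (Finset.sum_comm)
    rw [Finset.sum_comm]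
    refine Finset.sum_congr rfl fun m _ => ?_
    rw [Finset.sum_comm]
  rw [h2, ← Finset.sum_add_distrib, ← Finset.sum_add_distrib]
  refine Finset.sum_eq_zero fun ψ _ => ?_
  rw [← Finset.mul_sum, cf_spec (dualE_spec _)]
  linear_combination (embB.repr L ψ) * ht i ψ

/-- **The form is invariant under the multiplicative operator.** -/
theorem form_inv (hne : ∀ i k, i ≠ k → ¬ SameType (P i) (P k)) (t : ∀ i, ((P i).E →+* ℂ) → ℂ)
    (ht : ∀ i φ, t i φ * t i (ComplexEmbedding.conjugate φ) = 1) {Y : AV} (p : PolD Y) (u w : Y.H) :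
    ∑ j, ∑ j', co P t j * co P t j' *
      ((p.ω (Op P hpol hprim Y j u) (Op P hpol hprim Y j' w) : ℚ) : ℂ) =
        ((p.ω u w : ℚ) : ℂ) := by
  obtain ⟨σ, hσ⟩ : ∃ σ : ∀ i, (P i).E → (P i).E,
      ∀ i (φ : (P i).E →+* ℂ) a, φ (σ i a) = starRingEnd ℂ (φ a) :=
    ⟨fun i a => IsCMField.complexConj (P i).E a, fun i φ a =>
      IsCMField.complexEmbedding_complexConj (P i).E φ a⟩
  let L : ∀ i, (P i).E →ₗ[ℚ] ℂ := fun i =>
    (Algebra.linearMap ℚ ℂ) ∘ₗ (p.ω u) ∘ₗ (opL (hpol i) (hprim i) Y w)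
  have hL : ∀ i x, L i x = ((p.ω u (opA (hpol i) (hprim i) x Y w) : ℚ) : ℂ) := fun i x => by
    change algebraMap ℚ ℂ _ = _
    rw [eq_ratCast]
    rfl
  have e1 : ∀ i x, ((p.ω (opA (hpol i) (hprim i) x Y u) w : ℚ) : ℂ) = L i (σ i x) := fun i x => by
    rw [hL, opA_adj (hprim i) (fun φ => hσ i φ x)]
  have e2 : ∀ i x y, ((p.ω (opA (hpol i) (hprim i) x Y u) (opA (hpol i) (hprim i) y Y w) : ℚ) : ℂ) =
      L i (σ i x * y) := fun i x y => by
    rw [hL, opA_adj (hprim i) (fun φ => hσ i φ x), opA_mul]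
  have e3 : ∀ i k, i ≠ k → ∀ x y,
      p.ω (opA (hpol i) (hprim i) x Y u) (opA (hpol k) (hprim k) y Y w) = 0 := fun i k hik x y => by
    rw [opA_adj (hprim i) (fun φ => hσ i φ x), opA_orth (hprim i) (hprim k) (hne i k hik), map_zero]
  rw [Fintype.sum_option, Fintype.sum_option, Fintype.sum_sigma, Fintype.sum_sigma]
  simp only [Fintype.sum_option, Fintype.sum_sigma, co_none, co_some, Op_none, Op_some, one_mul,
    mul_one, ← hL, e1]
  have h4 : ∀ (i : I) (m : Fin (finrank ℚ (P i).E)), ∑ k, ∑ m',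
      cf (dualE (finBasis ℚ (P i).E)) (t i) m * cf (dualE (finBasis ℚ (P k).E)) (t k) m' *
        ((p.ω (opA (hpol i) (hprim i) (finBasis ℚ (P i).E m) Y u)
          (opA (hpol k) (hprim k) (finBasis ℚ (P k).E m') Y w) : ℚ) : ℂ) =
      ∑ m', cf (dualE (finBasis ℚ (P i).E)) (t i) m * cf (dualE (finBasis ℚ (P i).E)) (t i) m' *
        L i (σ i (finBasis ℚ (P i).E m) * finBasis ℚ (P i).E m') := fun i m => by
    rw [Finset.sum_eq_single i]
    · exact Finset.sum_congr rfl fun m' _ => by rw [e2]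
    · intro k _ hk
      refine Finset.sum_eq_zero fun m' _ => ?_
      rw [e3 i k (fun h => hk h.symm), Rat.cast_zero, mul_zero]
    · exact fun h => absurd (Finset.mem_univ i) h
  simp_rw [h4, Finset.sum_add_distrib]
  have h5 := Finset.sum_eq_zero (s := (Finset.univ : Finset I))
    fun i _ => one_type P t ht i (L i) (σ i) (hσ i)
  rw [Finset.sum_add_distrib, Finset.sum_add_distrib] at h5
  linear_combination h5

/-- **The multiplicative operator fixes the Hodge classes of degree two.** -/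
theorem fix_two (hne : ∀ i k, i ≠ k → ¬ SameType (P i) (P k)) (t : ∀ i, ((P i).E →+* ℂ) → ℂ)
    (ht : ∀ i φ, t i φ * t i (ComplexEmbedding.conjugate φ) = 1) (Y : AV) {κ : Type} [Fintype κ]
    [DecidableEq κ] (hκ : Nat.card κ = 2) (f : Y.H [⋀^κ]→ₗ[ℚ] ℚ) (hf : IsHodge Y.per f)
    (v : κ → Y.H) :
    ∑ r : κ → JJ P, (∏ k, co P t (r k)) *
      ((f (fun k => Op P hpol hprim Y (r k) (v k)) : ℚ) : ℂ) = ((f v : ℚ) : ℂ) := by
  obtain ⟨p⟩ := exists_polD Y
  obtain ⟨e, g, hg, hfg⟩ := hodge_two p hκ f hf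
  let E' : (κ → JJ P) ≃ JJ P × JJ P :=
    (Equiv.arrowCongr e.symm (Equiv.refl _)).trans (finTwoArrowEquiv _)
  have hE1 : ∀ r, (E' r).1 = r (e 0) := fun r => rfl
  have hE2 : ∀ r, (E' r).2 = r (e 1) := fun r => rfl
  rw [Fintype.sum_equiv E' _ (fun x => co P t x.1 * co P t x.2 *
    ((p.ω (Op P hpol hprim Y x.1 (v (e 0))) (Op P hpol hprim Y x.2 (g (v (e 1)))) : ℚ) : ℂ))
    (fun r => by
      rw [hE1, hE2, hfg, ← e.prod_comp, Fin.prod_univ_two, Op_nat P hpol hprim hg]),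
    Fintype.sum_prod_type, form_inv P hpol hprim hne t ht, ← hfg]

end many

end

end Pool.Agent.K4H21.LC.T4
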