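import Mathlib
import Pool.Agent.K4H21.LC.Obs

/-!
# Multiplicative operators and Weil classes
-/

set_option linter.unusedSectionVars false
set_option linter.unusedVariables false

namespace Pool.Agent.K4H21.LC.T2

open Module Pool.Agent.K4H29.HC

noncomputable section

section weil

variable {V : Type} [AddCommGroup V] [Module ℚ V] {n : ℕ}

/-- The coordinates of the `z`-part of the complexification. -/
def chi (b : Basis (Fin n ⊕ Fin n) ℚ V) (z : ℂ) : V →ₗ[ℚ] (Fin n → ℂ) where
  toFun v l := ((b.repr v (Sum.inl l) : ℚ) : ℂ) + z * ((b.repr v (Sum.inr l) : ℚ) : ℂ)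
  map_add' v w := by
    funext l
    simp only [map_add, Finsupp.add_apply, Pi.add_apply]
    push_cast
    ring
  map_smul' q v := by
    funext l
    simp only [map_smul, Finsupp.smul_apply, Pi.smul_apply, smul_eq_mul, RingHom.id_apply,
      Rat.smul_def]
    push_cast
    ring

theorem chi_apply (b : Basis (Fin n ⊕ Fin n) ℚ V) (z : ℂ) (v : V) (l : Fin n) :
    chi b z v l = ((b.repr v (Sum.inl l) : ℚ) : ℂ) + z * ((b.repr v (Sum.inr l) : ℚ) : ℂ) := rfl

/-- The matrix of the action on the `z`-part. -/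
def matS (b : Basis (Fin n ⊕ Fin n) ℚ V) (z : ℂ) (A : V →ₗ[ℚ] V) : Matrix (Fin n) (Fin n) ℂ :=
  Matrix.of fun l j => ((b.repr (A (b (Sum.inl j))) (Sum.inl l) : ℚ) : ℂ) +
    z * ((b.repr (A (b (Sum.inl j))) (Sum.inr l) : ℚ) : ℂ)

theorem matS_apply (b : Basis (Fin n ⊕ Fin n) ℚ V) (z : ℂ) (A : V →ₗ[ℚ] V) (l j : Fin n) :
    matS b z A l j = chi b z (A (b (Sum.inl j))) l := rfl

theorem chi_inl (b : Basis (Fin n ⊕ Fin n) ℚ V) (z : ℂ) (j : Fin n) :
    chi b z (b (Sum.inl j)) = Pi.single j 1 := by
  funext l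
  rw [chi_apply, b.repr_self, Finsupp.single_apply, Finsupp.single_apply, Pi.single_apply]
  by_cases hl : l = j
  · subst hl
    simp
  · simp [hl, Ne.symm hl]

theorem chi_inr (b : Basis (Fin n ⊕ Fin n) ℚ V) (z : ℂ) (j : Fin n) :
    chi b z (b (Sum.inr j)) = z • Pi.single j 1 := by
  funext l
  rw [chi_apply, b.repr_self, Finsupp.single_apply, Finsupp.single_apply, Pi.smul_apply,
    Pi.single_apply, smul_eq_mul]
  by_cases hl : l = j
  · subst hl
    simp
  · simp [hl, Ne.symm hl]

variable {h : V →ₗ[ℚ] V} {d : ℚ} (hsq : ∀ w, h (h w) = -(d • w))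
  {b : Basis (Fin n ⊕ Fin n) ℚ V} (hb : ∀ i, b (Sum.inr i) = h (b (Sum.inl i)))
  {z : ℂ} (hz : z * z = -((d : ℚ) : ℂ))

include hsq hb hz in
theorem chi_h (v : V) : chi b z (h v) = z • chi b z v := by
  let f1 : V →ₗ[ℚ] (Fin n → ℂ) := (chi b z).comp h
  let f2 : V →ₗ[ℚ] (Fin n → ℂ) := z • chi b z
  have h1 : f1 = f2 := by
    refine b.ext fun i => ?_
    rcases i with j | j
    · change chi b z (h (b (Sum.inl j))) = z • chi b z (b (Sum.inl j))
      rw [← hb, chi_inl, chi_inr]
    · change chi b z (h (b (Sum.inr j))) = z • chi b z (b (Sum.inr j))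
      rw [hb, hsq, map_neg, map_smul, ← hb, chi_inl, chi_inr, smul_smul, hz]
      funext l
      simp [Rat.smul_def]
  exact congrArg (fun f => f v) h1

include hsq hb hz in
theorem chi_map {A : V →ₗ[ℚ] V} (hA : ∀ v, h (A v) = A (h v)) (v : V) :
    chi b z (A v) = (matS b z A).mulVec (chi b z v) := by
  let f1 : V →ₗ[ℚ] (Fin n → ℂ) := (chi b z).comp A
  let f2 : V →ₗ[ℚ] (Fin n → ℂ) := ((matS b z A).mulVecLin.restrictScalars ℚ).comp (chi b z)
  have h1 : f1 = f2 := by
    refine b.ext fun i => ?_
    rcases i with j | j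
    · change chi b z (A (b (Sum.inl j))) = (matS b z A).mulVec (chi b z (b (Sum.inl j)))
      rw [chi_inl, Matrix.mulVec_single_one]
      rfl
    · change chi b z (A (b (Sum.inr j))) = (matS b z A).mulVec (chi b z (b (Sum.inr j)))
      rw [chi_inr, Matrix.mulVec_smul, Matrix.mulVec_single_one, hb, ← hA, chi_h hsq hb hz]
      rfl
  exact congrArg (fun f => f v) h1

/-- The identity. -/
theorem matS_one (b : Basis (Fin n ⊕ Fin n) ℚ V) (z : ℂ) :
    matS b z (LinearMap.id : V →ₗ[ℚ] V) = 1 := by
  ext l j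
  rw [matS_apply, LinearMap.id_apply, chi_inl, Pi.single_apply, Matrix.one_apply]

theorem matS_zero (b : Basis (Fin n ⊕ Fin n) ℚ V) (z : ℂ) : matS b z (0 : V →ₗ[ℚ] V) = 0 := by
  ext l j
  rw [matS_apply, LinearMap.zero_apply, map_zero, Pi.zero_apply, Matrix.zero_apply]

theorem matS_add (b : Basis (Fin n ⊕ Fin n) ℚ V) (z : ℂ) (A B : V →ₗ[ℚ] V) :
    matS b z (A + B) = matS b z A + matS b z B := by
  ext l j
  rw [Matrix.add_apply, matS_apply, matS_apply, matS_apply, LinearMap.add_apply, map_add,
    Pi.add_apply]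

theorem matS_smul (b : Basis (Fin n ⊕ Fin n) ℚ V) (z : ℂ) (q : ℚ) (A : V →ₗ[ℚ] V) :
    matS b z (q • A) = q • matS b z A := by
  ext l j
  rw [Matrix.smul_apply, matS_apply, matS_apply, LinearMap.smul_apply, map_smul, Pi.smul_apply]

/-- The matrix as a linear map. -/
def matSL (b : Basis (Fin n ⊕ Fin n) ℚ V) (z : ℂ) :
    (V →ₗ[ℚ] V) →ₗ[ℚ] Matrix (Fin n) (Fin n) ℂ where
  toFun := matS b z
  map_add' := matS_add b z
  map_smul' := matS_smul b z

include hsq hb hz in
/-- Products. -/
theorem matS_comp {A : V →ₗ[ℚ] V} (hA : ∀ v, h (A v) = A (h v)) (B : V →ₗ[ℚ] V) :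
    matS b z (A ∘ₗ B) = matS b z A * matS b z B := by
  ext l j
  rw [matS_apply, LinearMap.comp_apply, chi_map hsq hb hz hA, Matrix.mul_apply, Matrix.mulVec,
    dotProduct]
  rfl

include hsq hb hz in
/-- The trace. -/
theorem matS_trace (hd : d ≠ 0) {A : V →ₗ[ℚ] V} (hA : ∀ v, h (A v) = A (h v)) :
    (matS b z A).trace = (((LinearMap.trace ℚ V A : ℚ) : ℂ) +
      ((LinearMap.trace ℚ V (h ∘ₗ A) : ℚ) : ℂ) / z) / 2 := by
  have hz0 : z ≠ 0 := by
    rintro rfl
    rw [mul_zero] at hz
    have h1 : ((d : ℚ) : ℂ) = 0 := neg_eq_zero.1 hz.symm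
    exact hd (by exact_mod_cast h1)
  have hd0 : ((d : ℚ) : ℂ) ≠ 0 := by exact_mod_cast hd
  -- the coordinates of `h v`
  have hl : ∀ (v : V) (j : Fin n), b.repr (h v) (Sum.inl j) = -(d * b.repr v (Sum.inr j)) ∧
      b.repr (h v) (Sum.inr j) = b.repr v (Sum.inl j) := by
    intro v j
    let f1 : V →ₗ[ℚ] ℚ := (b.coord (Sum.inl j)).comp h
    let f2 : V →ₗ[ℚ] ℚ := (-d) • b.coord (Sum.inr j)
    let g1 : V →ₗ[ℚ] ℚ := (b.coord (Sum.inr j)).comp h
    let g2 : V →ₗ[ℚ] ℚ := b.coord (Sum.inl j)
    have h1 : f1 = f2 := by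
      refine b.ext fun i => ?_
      rcases i with i | i
      · change b.repr (h (b (Sum.inl i))) (Sum.inl j) = (-d) • b.repr (b (Sum.inl i)) (Sum.inr j)
        rw [← hb, b.repr_self, b.repr_self, Finsupp.single_apply, Finsupp.single_apply]
        simp
      · change b.repr (h (b (Sum.inr i))) (Sum.inl j) = (-d) • b.repr (b (Sum.inr i)) (Sum.inr j)
        rw [hb, hsq, ← hb, map_neg, map_smul, b.repr_self, b.repr_self, Finsupp.neg_apply,
          Finsupp.smul_apply, Finsupp.single_apply, Finsupp.single_apply]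
        by_cases hij : i = j
        · subst hij
          simp
        · simp [hij]
    have h2 : g1 = g2 := by
      refine b.ext fun i => ?_
      rcases i with i | i
      · change b.repr (h (b (Sum.inl i))) (Sum.inr j) = b.repr (b (Sum.inl i)) (Sum.inl j)
        rw [← hb, b.repr_self, b.repr_self, Finsupp.single_apply, Finsupp.single_apply]
        simp
      · change b.repr (h (b (Sum.inr i))) (Sum.inr j) = b.repr (b (Sum.inr i)) (Sum.inl j)
        rw [hb, hsq, ← hb, map_neg, map_smul, b.repr_self, b.repr_self, Finsupp.neg_apply,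
          Finsupp.smul_apply, Finsupp.single_apply, Finsupp.single_apply]
        simp
    constructor
    · have h3 := congrArg (fun f => f v) h1
      change b.repr (h v) (Sum.inl j) = (-d) • b.repr v (Sum.inr j) at h3
      rw [h3, smul_eq_mul]
      ring
    · exact congrArg (fun f => f v) h2
  have ht1 : LinearMap.trace ℚ V A = 2 * ∑ j, b.repr (A (b (Sum.inl j))) (Sum.inl j) := by
    rw [LinearMap.trace_eq_matrix_trace ℚ b, Matrix.trace, Fintype.sum_sum_type]
    have e1 : ∀ j, (LinearMap.toMatrix b b A).diag (Sum.inl j) =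
        b.repr (A (b (Sum.inl j))) (Sum.inl j) := fun j => by
      rw [Matrix.diag_apply, LinearMap.toMatrix_apply]
    have e2 : ∀ j, (LinearMap.toMatrix b b A).diag (Sum.inr j) =
        b.repr (A (b (Sum.inl j))) (Sum.inl j) := fun j => by
      rw [Matrix.diag_apply, LinearMap.toMatrix_apply, hb, ← hA, (hl _ j).2]
    rw [Finset.sum_congr rfl fun j _ => e1 j, Finset.sum_congr rfl fun j _ => e2 j]
    ring
  have ht2 : LinearMap.trace ℚ V (h ∘ₗ A) =
      -(2 * d * ∑ j, b.repr (A (b (Sum.inl j))) (Sum.inr j)) := by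
    rw [LinearMap.trace_eq_matrix_trace ℚ b, Matrix.trace, Fintype.sum_sum_type]
    have e1 : ∀ j, (LinearMap.toMatrix b b (h ∘ₗ A)).diag (Sum.inl j) =
        -(d * b.repr (A (b (Sum.inl j))) (Sum.inr j)) := fun j => by
      rw [Matrix.diag_apply, LinearMap.toMatrix_apply, LinearMap.comp_apply, (hl _ j).1]
    have e2 : ∀ j, (LinearMap.toMatrix b b (h ∘ₗ A)).diag (Sum.inr j) =
        -(d * b.repr (A (b (Sum.inl j))) (Sum.inr j)) := fun j => by
      rw [Matrix.diag_apply, LinearMap.toMatrix_apply, LinearMap.comp_apply, (hl _ j).2, hb, ← hA,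
        (hl _ j).1]
    rw [Finset.sum_congr rfl fun j _ => e1 j, Finset.sum_congr rfl fun j _ => e2 j,
      Finset.sum_neg_distrib, ← Finset.mul_sum]
    ring
  have h3 : (matS b z A).trace = ((∑ j, b.repr (A (b (Sum.inl j))) (Sum.inl j) : ℚ) : ℂ) +
      z * ((∑ j, b.repr (A (b (Sum.inl j))) (Sum.inr j) : ℚ) : ℂ) := by
    rw [Matrix.trace, Rat.cast_sum, Rat.cast_sum, Finset.mul_sum, ← Finset.sum_add_distrib]
    rfl
  rw [h3, ht1, ht2]
  push_cast
  field_simp
  linear_combination (∑ j, ((b.repr (A (b (Sum.inl j))) (Sum.inr j) : ℚ) : ℂ)) * hz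

/-- Expansion of the determinant in the rows. -/
theorem det_rows {J : Type} [Fintype J] (c : J → ℂ) (y : J → Fin n → Fin n → ℂ) :
    ∑ r : Fin n → J, (∏ k, c (r k)) * (Matrix.of fun k => y (r k) k).det =
      (Matrix.of fun k => ∑ x, c x • y x k).det := by
  classical
  have h1 := (Matrix.detRowAlternating (n := Fin n) (R := ℂ)).toMultilinearMap.map_sum
    (fun (k : Fin n) (x : J) => c x • y x k)
  have h2 : (Matrix.of fun k => ∑ x, c x • y x k).det =
      (Matrix.detRowAlternating (n := Fin n) (R := ℂ)).toMultilinearMap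
        (fun k => ∑ x, c x • y x k) := rfl
  rw [h2, h1]
  refine Finset.sum_congr rfl fun r _ => ?_
  have h3 := (Matrix.detRowAlternating (n := Fin n) (R := ℂ)).toMultilinearMap.map_smul_univ
    (fun k => c (r k)) (fun k => y (r k) k)
  rw [h3, smul_eq_mul]
  rfl

variable [FiniteDimensional ℚ V]

include hsq hb hz in
/-- The form as a determinant. -/
theorem form_eq_det (Φ : V [⋀^Fin n]→ₗ[ℚ] ℂ)
    (hΦ : ∀ v k, Φ (Function.update v k (h (v k))) = z * Φ v) (v : Fin n → V) :
    Φ v = Φ (fun k => b (Sum.inl k)) * (Matrix.of fun k => chi b z (v k)).det := by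
  classical
  let D : V [⋀^Fin n]→ₗ[ℚ] ℂ :=
    { toFun := fun v => (Matrix.of fun k => chi b z (v k)).det
      map_update_add' := by
        intro inst v i x y
        obtain rfl : inst = (instDecidableEqFin n) := Subsingleton.elim _ _
        have h1 : ∀ w, (Matrix.of fun k => chi b z (Function.update v i w k)) =
            (Matrix.of fun k => chi b z (v k)).updateRow i (chi b z w) := by
          intro w
          ext k l
          rw [Matrix.of_apply, Matrix.updateRow_apply]
          by_cases hk : k = i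
          · subst hk
            rw [Function.update_self, if_pos rfl]
          · rw [Function.update_of_ne hk, if_neg hk]
            rfl
        rw [h1, h1, h1, map_add, Matrix.det_updateRow_add]
      map_update_smul' := by
        intro inst v i c x
        obtain rfl : inst = (instDecidableEqFin n) := Subsingleton.elim _ _
        have h1 : ∀ w, (Matrix.of fun k => chi b z (Function.update v i w k)) =
            (Matrix.of fun k => chi b z (v k)).updateRow i (chi b z w) := by
          intro w
          ext k l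
          rw [Matrix.of_apply, Matrix.updateRow_apply]
          by_cases hk : k = i
          · subst hk
            rw [Function.update_self, if_pos rfl]
          · rw [Function.update_of_ne hk, if_neg hk]
            rfl
        have h2 : chi b z (c • x) = ((c : ℚ) : ℂ) • chi b z x := by
          rw [map_smul]
          funext l
          simp [Rat.smul_def]
        rw [h1, h1, h2, Matrix.det_updateRow_smul, Rat.smul_def]
      map_eq_zero_of_eq' := by
        intro v i j hv hij
        refine Matrix.det_zero_of_row_eq hij ?_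
        funext l
        rw [Matrix.of_apply, Matrix.of_apply, hv] }
  have hDv : ∀ v, D v = (Matrix.of fun k => chi b z (v k)).det := fun v => rfl
  have hD1 : D (fun k => b (Sum.inl k)) = 1 := by
    rw [hDv]
    have h1 : (Matrix.of fun k => chi b z (b (Sum.inl k))) = 1 := by
      ext k l
      rw [Matrix.of_apply, chi_inl, Pi.single_apply, Matrix.one_apply]
      simp only [eq_comm (a := l) (b := k)]
    rw [h1, Matrix.det_one]
  have hDh : ∀ v k, D (Function.update v k (h (v k))) = z * D v := by
    intro v k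
    rw [hDv, hDv]
    have h1 : (Matrix.of fun l => chi b z (Function.update v k (h (v k)) l)) =
        (Matrix.of fun l => chi b z (v l)).updateRow k (z • chi b z (v k)) := by
      ext l m
      rw [Matrix.of_apply, Matrix.updateRow_apply]
      by_cases hl : l = k
      · subst hl
        rw [Function.update_self, if_pos rfl, chi_h hsq hb hz]
      · rw [Function.update_of_ne hl, if_neg hl]
        rfl
    rw [h1, Matrix.det_updateRow_smul]
    congr 2
    exact Matrix.updateRow_eq_self _ _
  let Ψ : V [⋀^Fin n]→ₗ[ℚ] ℂ := Φ - (Φ fun k => b (Sum.inl k)) • D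
  have hΨv : ∀ v, Ψ v = Φ v - Φ (fun k => b (Sum.inl k)) * D v := fun v => rfl
  have h0 : Ψ = 0 := by
    refine ext_s h z b hb Ψ ?_ ?_
    · intro v k
      rw [hΨv, hΨv, hΦ, hDh]
      ring
    · intro σ hσ
      have hbij : Function.Bijective σ := Finite.injective_iff_bijective.1 hσ
      let τ : Equiv.Perm (Fin n) := Equiv.ofBijective σ hbij
      have h1 := Ψ.map_perm (fun k => b (Sum.inl k)) τ
      have h2 : Ψ ((fun k => b (Sum.inl k)) ∘ τ) = Ψ (fun k => b (Sum.inl (σ k))) := rfl
      rw [h2, hΨv (fun k => b (Sum.inl k)), hD1, mul_one, sub_self, smul_zero] at h1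
      exact h1
  have h1 := congrArg (fun f => f v) h0
  rw [AlternatingMap.zero_apply, hΨv] at h1
  exact sub_eq_zero.1 h1

include hsq hb hz in
/-- The average of the form. -/
theorem form_av {J : Type} [Fintype J] (c : J → ℂ) (A : J → V →ₗ[ℚ] V)
    (hcomm : ∀ x v, h (A x v) = A x (h v)) (hdet : (∑ x, c x • matS b z (A x)).det = 1)
    (Φ : V [⋀^Fin n]→ₗ[ℚ] ℂ) (hΦ : ∀ v k, Φ (Function.update v k (h (v k))) = z * Φ v)
    (v : Fin n → V) :
    ∑ r : Fin n → J, (∏ k, c (r k)) * Φ (fun k => A (r k) (v k)) = Φ v := by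
  have h1 : ∀ w, Φ w = Φ (fun k => b (Sum.inl k)) * (Matrix.of fun k => chi b z (w k)).det :=
    form_eq_det hsq hb hz Φ hΦ
  have h2 : ∀ r : Fin n → J, (∏ k, c (r k)) * Φ (fun k => A (r k) (v k)) =
      Φ (fun k => b (Sum.inl k)) * ((∏ k, c (r k)) *
        (Matrix.of fun k => chi b z (A (r k) (v k))).det) := by
    intro r
    rw [h1 (fun k => A (r k) (v k))]
    ring
  rw [Finset.sum_congr rfl fun r _ => h2 r, ← Finset.mul_sum, h1 v]
  congr 1
  have h3 := det_rows c (fun x k => chi b z (A x (v k)))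
  rw [h3]
  have h4 : (Matrix.of fun k => ∑ x, c x • chi b z (A x (v k))) =
      (Matrix.of fun k => chi b z (v k)) * (∑ x, c x • matS b z (A x)).transpose := by
    ext k l
    rw [Matrix.of_apply, Matrix.mul_apply, Finset.sum_apply]
    have h5 : ∀ x, (c x • chi b z (A x (v k))) l =
        ∑ j, c x * (matS b z (A x) l j * chi b z (v k) j) := by
      intro x
      rw [Pi.smul_apply, chi_map hsq hb hz (hcomm x), smul_eq_mul, Matrix.mulVec, dotProduct,
        Finset.mul_sum]
    rw [Finset.sum_congr rfl fun x _ => h5 x, Finset.sum_comm]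
    refine Finset.sum_congr rfl fun j _ => ?_
    rw [Matrix.of_apply, Matrix.transpose_apply, Matrix.sum_apply, Finset.mul_sum]
    refine Finset.sum_congr rfl fun x _ => ?_
    rw [Matrix.smul_apply, smul_eq_mul]
    ring
  rw [h4, Matrix.det_mul, Matrix.det_transpose, hdet, mul_one]

include hsq hb in
/-- **Weil classes are fixed** if the determinants on the two parts are one. -/
theorem fix_weil (hd : 0 < d) {J : Type} [Fintype J] (c : J → ℂ) (A : J → V →ₗ[ℚ] V)
    (hcomm : ∀ x v, h (A x v) = A x (h v))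
    (hdet : ∀ z : ℂ, z * z = -((d : ℚ) : ℂ) → (∑ x, c x • matS b z (A x)).det = 1)
    (f : V [⋀^Fin n]→ₗ[ℚ] ℚ)
    (hmv : ∀ (v : Fin n → V) (k l : Fin n),
      f (Function.update v k (h (v k))) = f (Function.update v l (h (v l)))) : Fix c A f := by
  classical
  rcases Nat.eq_zero_or_pos n with rfl | hn0
  · intro v
    unfold av
    rw [Fintype.sum_subsingleton _ (fun k : Fin 0 => k.elim0), Finset.univ_eq_empty,
      Finset.prod_empty, one_mul]
    congr 2
    funext k
    exact k.elim0
  let z0 : Fin n := ⟨0, hn0⟩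
  let t : ℝ := Real.sqrt (d : ℝ)
  have ht : t * t = d := Real.mul_self_sqrt (by exact_mod_cast hd.le)
  have ht0 : t ≠ 0 := by
    intro h0
    rw [h0, zero_mul] at ht
    have : (0 : ℚ) = d := by exact_mod_cast ht
    exact hd.ne this
  let s : ℂ := (t : ℂ) * Complex.I
  have hs : s * s = -((d : ℚ) : ℂ) := by
    have h1 : ((t * t : ℝ) : ℂ) = ((d : ℝ) : ℂ) := by rw [ht]
    rw [Complex.ofReal_mul, Complex.ofReal_ratCast] at h1
    change ((t : ℂ) * Complex.I) * ((t : ℂ) * Complex.I) = _
    linear_combination (t : ℂ) * t * Complex.I_mul_I - h1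
  have hs0 : s ≠ 0 := mul_ne_zero (Complex.ofReal_ne_zero.2 ht0) Complex.I_ne_zero
  let cq : ℚ →ₗ[ℚ] ℂ := (Algebra.linearMap ℚ ℂ)
  let g : V [⋀^Fin n]→ₗ[ℚ] ℚ :=
    { toFun := fun v => f (Function.update v z0 (h (v z0)))
      map_update_add' := by
        intro inst v i x y
        obtain rfl : inst = (instDecidableEqFin n) := Subsingleton.elim _ _
        rw [hmv _ z0 i, hmv _ z0 i, hmv _ z0 i]
        simp only [Function.update_self, Function.update_idem, map_add, f.map_update_add]
      map_update_smul' := by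
        intro inst v i q x
        obtain rfl : inst = (instDecidableEqFin n) := Subsingleton.elim _ _
        rw [hmv _ z0 i, hmv _ z0 i]
        simp only [Function.update_self, Function.update_idem, map_smul, f.map_update_smul]
      map_eq_zero_of_eq' := by
        intro v i j hv hij
        have h1 := hmv v z0 i
        have h2 := hmv v z0 j
        have h3 : Function.update v j (h (v j)) =
            (Function.update v i (h (v i))) ∘ Equiv.swap i j := by
          funext k
          rw [Function.comp_apply]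
          by_cases h : k = i
          · subst h
            rw [Equiv.swap_apply_left, Function.update_of_ne hij, Function.update_of_ne hij.symm, hv]
          · by_cases h' : k = j
            · subst h'
              rw [Equiv.swap_apply_right, Function.update_self, Function.update_self, hv]
            · rw [Equiv.swap_apply_of_ne_of_ne h h', Function.update_of_ne h,
                Function.update_of_ne h']
        rw [h3, f.map_swap _ hij, ← h1] at h2
        linarith }
  have hg : ∀ v, g v = f (Function.update v z0 (h (v z0))) := fun _ => rfl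
  have hgk : ∀ v k, g v = f (Function.update v k (h (v k))) := fun v k => by rw [hg, hmv v z0 k]
  let Φ : ℂ → (V [⋀^Fin n]→ₗ[ℚ] ℂ) := fun z =>
    z • cq.compAlternatingMap f + cq.compAlternatingMap g
  have hΦv : ∀ z v, Φ z v = z * (f v : ℂ) + (g v : ℂ) := fun z v => rfl
  have hΦ : ∀ z : ℂ, z * z = -((d : ℚ) : ℂ) → ∀ v k,
      Φ z (Function.update v k (h (v k))) = z * Φ z v := by
    intro z hz v k
    rw [hΦv, hΦv, hgk (Function.update v k (h (v k))) k, ← hgk v k, Function.update_self, hsq,
      Function.update_idem, f.map_update_neg, f.map_update_smul, Function.update_eq_self,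
      smul_eq_mul]
    push_cast
    linear_combination -(f v : ℂ) * hz
  have hs' : (-s) * (-s) = -((d : ℚ) : ℂ) := by rw [neg_mul_neg, hs]
  intro v
  have e1 := form_av hsq hb hs c A hcomm (hdet s hs) (Φ s) (hΦ s hs) v
  have e2 := form_av hsq hb hs' c A hcomm (hdet (-s) hs') (Φ (-s)) (hΦ (-s) hs') v
  have hf : ∀ w : Fin n → V, ((f w : ℚ) : ℂ) = (2 * s)⁻¹ * (Φ s w - Φ (-s) w) := by
    intro w
    rw [hΦv, hΦv]
    field_simp
    ring
  unfold av
  have h5 : ∀ r : Fin n → J, (∏ k, c (r k)) * ((f fun k => A (r k) (v k) : ℚ) : ℂ) =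
      (2 * s)⁻¹ * ((∏ k, c (r k)) * Φ s (fun k => A (r k) (v k)) -
        (∏ k, c (r k)) * Φ (-s) (fun k => A (r k) (v k))) := by
    intro r
    rw [hf]
    ring
  rw [Finset.sum_congr rfl fun r _ => h5 r, ← Finset.mul_sum, Finset.sum_sub_distrib, e1, e2, hf]

end weil

end

end Pool.Agent.K4H21.LC.T2
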