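import Pool.Agent.K4H21.LC.Act
import Pool.Agent.K4H21.LC.Rk
import Pool.Agent.K4H21.LC.Two
import Pool.Agent.K4H21.LC.Weil
import Pool.Agent.K4H21.LC.Mul

/-!
# The classes of the systems are fixed by the multiplicative operators
-/

set_option linter.unusedSectionVars false
set_option linter.unusedVariables false
set_option autoImplicit false

namespace Pool.Agent.K4H21.LC

open Module NumberField Pool.Agent.R915 Pool.Agent.K4H29.HC
open Pool.Agent.Y90 (AV IsHom IsPolarization IsWeilClass)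
open Pool.Agent.H204R3.CM (IsHodge IsCMType)
open Pool.Agent.W547.KB (CMPair)
open Pool.Agent.W547.LN (SameType)
open Pool.Agent.K4H21.LC.T2

noncomputable section

section main

variable {ι : Type} [Fintype ι] [DecidableEq ι] {P : ι → CMPair}
  (hpol : ∀ i, ∃ E, IsPolarization (perC (P i)) E) (hprim : ∀ i, Primitive (P i))
  (hne : ∀ i k, i ≠ k → ¬ SameType (P i) (P k)) (t : ∀ i, ((P i).E →+* ℂ) → ℂ)
  (ht : ∀ i φ, t i φ * t i (ComplexEmbedding.conjugate φ) = 1)
  (cf : ∀ i, Fin (finrank ℚ (P i).E) → ℂ)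
  (hcf : ∀ i ψ, ∑ l, cf i l * ψ (finBasis ℚ (P i).E l) = t i ψ - 1)

/-- Naturality. -/
theorem Op_natural {Y Z : AV} {h : Y.H →ₗ[ℚ] Z.H} (hh : IsHom Y Z h)
    (r : Option (Σ i, Fin (finrank ℚ (P i).E))) (v : Y.H) :
    h (Op hpol hprim (fun i => finBasis ℚ (P i).E) Y r v) =
      Op hpol hprim (fun i => finBasis ℚ (P i).E) Z r (h v) := by
  rcases r with _ | ⟨i, m⟩
  · rfl
  · exact opA_nat (hprim i) _ hh v

include hne ht hcf in
/-- The Hodge classes of degree two are fixed. -/
theorem fix_deg_two (Y : AV) {κ : Type} [Fintype κ] [DecidableEq κ] (hκ : Nat.card κ = 2)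
    (f : Y.H [⋀^κ]→ₗ[ℚ] ℚ) (hf : IsHodge Y.per f) :
    Fix (cc cf) (Op hpol hprim (fun i => finBasis ℚ (P i).E) Y) f := by
  classical
  intro v
  have h := T4.fix_two P hpol hprim hne t ht Y hκ f hf v
  have hcf' : ∀ i, cf i = Pool.Agent.K4H21.LC.cf (dualE (finBasis ℚ (P i).E)) (t i) := by
    intro i
    have h4 := emb_zero (finBasis ℚ (P i).E) (fun l => cf i l -
      Pool.Agent.K4H21.LC.cf (dualE (finBasis ℚ (P i).E)) (t i) l) (fun ψ => by
        have h5 := cf_spec (dualE_spec (finBasis ℚ (P i).E)) (t i) ψ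
        simp only [sub_mul, Finset.sum_sub_distrib]
        rw [hcf, h5, sub_self])
    funext l
    exact sub_eq_zero.1 (congrFun h4 l)
  have e1 : ∀ r, cc cf r = T4.co P t r := by
    intro r
    rcases r with _ | ⟨i, m⟩
    · rfl
    · exact congrFun (hcf' i) m
  have e2 : ∀ r w, Op hpol hprim (fun i => finBasis ℚ (P i).E) Y r w = T4.Op P hpol hprim Y r w := by
    intro r w
    rcases r with _ | ⟨i, m⟩
    · rfl
    · rfl
  unfold av
  refine Eq.trans (Finset.sum_congr rfl fun r _ => ?_) h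
  rw [Finset.prod_congr rfl fun k _ => e1 (r k)]
  congr 3
  funext k
  exact e2 _ _

include hne ht hcf in
/-- The Weil classes are fixed. -/
theorem fix_weil_av (Y : AV) {n : ℕ} (f : Y.H [⋀^Fin n]→ₗ[ℚ] ℚ)
    (hrank : finrank ℚ Y.H = 2 * n) {d : ℚ} (hd : 0 < d) {h : Y.H →ₗ[ℚ] Y.H} (hh : IsHom Y Y h)
    (hsq : ∀ w, h (h w) = -(d • w))
    (hf : ∀ (v : Fin n → Y.H) (k l : Fin n),
      f (Function.update v k (h (v k))) = f (Function.update v l (h (v l))))
    (hprod : ∀ i (δ : (P i).E), δ * δ = -(d : (P i).E) →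
      (∃ g : HM (P i) (hpol i) Y, g ≠ 0 ∧ push hh g = δ • g) →
      ∀ z' : ℂ, z' * z' = -(d : ℂ) →
        ∏ φ ∈ Finset.univ.filter (fun φ : (P i).E →+* ℂ => φ δ = z'), t i φ = 1) :
    Fix (cc cf) (Op hpol hprim (fun i => finBasis ℚ (P i).E) Y) f := by
  classical
  obtain ⟨b, hb⟩ := Pool.Agent.R915.exists_pair_basis h hd hsq hrank
  refine fix_weil hsq hb hd (cc cf) _ (fun x v => Op_natural hpol hprim hh x v) ?_ f hf
  intro z hz
  exact det_weil hpol hprim hne t ht cf hcf Y hd hh hsq hz (matSL b z) (matS_one b z)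
    (fun A B hA _ => matS_comp hsq hb hz hA B) (fun A hA => matS_trace hsq hb hz hd.ne' hA) hprod

end main

section inv

variable {ι : Type} [Fintype ι] [DecidableEq ι] {P : ι → CMPair}
  (hpol : ∀ i, ∃ E, IsPolarization (perC (P i)) E) (hprim : ∀ i, Primitive (P i))
  (hne : ∀ i k, i ≠ k → ¬ SameType (P i) (P k)) (t : ∀ i, ((P i).E →+* ℂ) → ℂ)
  (cf : ∀ i, Fin (finrank ℚ (P i).E) → ℂ)
  (hcf : ∀ i ψ, ∑ l, cf i l * ψ (finBasis ℚ (P i).E l) = t i ψ - 1)

include hne hcf in
/-- **The classes generated by divisors and all Weil classes are fixed.** -/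
theorem fix_algW (hT : Tor ⊤ P t) {Y : AV} {κ : Type} {f : Y.H [⋀^κ]→ₗ[ℚ] ℚ} (hf : AlgW Y κ f) :
    ∀ [Fintype κ] [DecidableEq κ], Fix (cc cf) (Op hpol hprim (fun i => finBasis ℚ (P i).E) Y) f := by
  induction hf with
  | unit f =>
    intro _ _
    exact fix_unit f
  | divisor hκ f hf =>
    intro _ _
    exact fix_deg_two hpol hprim hne t hT.conj cf hcf _ hκ f hf
  | @weil X n f hf =>
    intro i1 i2
    obtain ⟨h1, h2, d, h, h3, h4, h5, h6⟩ := hf
    obtain rfl : i1 = Fin.fintype n := Subsingleton.elim _ _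
    obtain rfl : i2 = instDecidableEqFin n := Subsingleton.elim _ _
    exact fix_weil_av hpol hprim hne t hT.conj cf hcf X f h1 h3 h4 h5 h6
      (fun i δ hδ _ z' _ => hT.det i δ d z' h3 hδ (fun w => le_top))
  | zero X κ =>
    intro _ _
    exact fix_zero
  | add f g _ _ hf hg =>
    intro _ _
    exact fix_add hf hg
  | smul a f _ hf =>
    intro _ _
    exact fix_smul a hf
  | @reindex X κ κ' e f _ hf =>
    intro _ _
    classical
    let _ : Fintype κ := Fintype.ofEquiv κ' e.symm
    exact fix_reindex e hf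
  | @cup X κ κ' a1 a2 a3 a4 f g _ _ h hh hf hg =>
    intro i1 i2
    obtain rfl : i1 = instFintypeSum κ κ' := Subsingleton.elim _ _
    obtain rfl : i2 = instDecidableEqSum := Subsingleton.elim _ _
    exact fix_cup h hh hf hg
  | pull h hh f _ hf =>
    intro _ _
    exact fix_comp h (fun r v => Op_natural hpol hprim hh r v) hf
  | @push X Y P' i hi j hj hij κ κ' b f _ g hg hf =>
    intro _ _
    classical
    have : Finite κ' := Module.Finite.finite_basis b
    let _ : Fintype κ' := Fintype.ofFinite κ'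
    exact fix_push i (fun r v => Op_natural hpol hprim hi r v) j
      (fun r v => Op_natural hpol hprim hj r v) b
      (det_push hpol hprim hne t hT.conj cf hcf Y b) f g hg hf

include hne hcf in
/-- **The classes generated by divisors and the Weil classes on abelian fourfolds and on abelian
sixfolds of split Weil type are fixed.** -/
theorem fix_alg (hT : Tor 3 P t) {Y : AV} {κ : Type} {f : Y.H [⋀^κ]→ₗ[ℚ] ℚ} (hf : Alg Y κ f) :
    ∀ [Fintype κ] [DecidableEq κ], Fix (cc cf) (Op hpol hprim (fun i => finBasis ℚ (P i).E) Y) f := by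
  induction hf with
  | unit f =>
    intro _ _
    exact fix_unit f
  | divisor hκ f hf =>
    intro _ _
    exact fix_deg_two hpol hprim hne t hT.conj cf hcf _ hκ f hf
  | @weil X n hn f hf =>
    intro i1 i2
    obtain ⟨h1, h2, d, h, h3, h4, h5, h6, -⟩ := hf
    obtain rfl : i1 = Fin.fintype n := Subsingleton.elim _ _
    obtain rfl : i2 = instDecidableEqFin n := Subsingleton.elim _ _
    by_cases h0 : f = 0
    · rw [h0]
      exact fix_zero
    refine fix_weil_av hpol hprim hne t hT.conj cf hcf X f h1 h3 h4 h5 h6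
      (fun i δ hδ hg z' _ => hT.det i δ d z' h3 hδ (fun w => ?_))
    obtain ⟨g, hg0, hg⟩ := hg
    refine (mult_weil (hprim i) (by omega) h1 f h2 h0 h3 h4 h5 h6 δ hδ g hg0 hg w).trans ?_
    have h7 : n / 2 ≤ 3 := by omega
    exact_mod_cast h7
  | zero X κ =>
    intro _ _
    exact fix_zero
  | add f g _ _ hf hg =>
    intro _ _
    exact fix_add hf hg
  | smul a f _ hf =>
    intro _ _
    exact fix_smul a hf
  | @reindex X κ κ' e f _ hf =>
    intro _ _
    classical
    let _ : Fintype κ := Fintype.ofEquiv κ' e.symm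
    exact fix_reindex e hf
  | @cup X κ κ' a1 a2 a3 a4 f g _ _ h hh hf hg =>
    intro i1 i2
    obtain rfl : i1 = instFintypeSum κ κ' := Subsingleton.elim _ _
    obtain rfl : i2 = instDecidableEqSum := Subsingleton.elim _ _
    exact fix_cup h hh hf hg
  | pull h hh f _ hf =>
    intro _ _
    exact fix_comp h (fun r v => Op_natural hpol hprim hh r v) hf
  | @push X Y P' i hi j hj hij κ κ' b f _ g hg hf =>
    intro _ _
    classical
    have : Finite κ' := Module.Finite.finite_basis b
    let _ : Fintype κ' := Fintype.ofFinite κ'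
    exact fix_push i (fun r v => Op_natural hpol hprim hi r v) j
      (fun r v => Op_natural hpol hprim hj r v) b
      (det_push hpol hprim hne t hT.conj cf hcf Y b) f g hg hf

end inv

end

end Pool.Agent.K4H21.LC
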