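import Pool.Agent.K4H21.LC.Def2
import Pool.Agent.K4H21.LC.Fin
import Pool.Agent.K4H21.LC.Inv

/-!
# The criterion for each class
-/

set_option linter.unusedSectionVars false
set_option linter.unusedVariables false
set_option autoImplicit false

namespace Pool.Agent.K4H21.LC

open Module NumberField Equiv Pool.Agent.R915 Pool.Agent.K4H29.HC Pool.Agent.K4H21.DB
open Pool.Agent.Y90 (AV IsHom IsPolarization)
open Pool.Agent.H204R3.CM (IsHodge IsCMType form_coeff balanced_of_hodge xEquiv)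
open Pool.Agent.W547.KB (CMPair CMAV Wt St ev evLin mono mono_apply Balanced isHalf_St)
open Pool.Agent.W547.LN (SameType)
open Pool.Agent.K4H34.DB (dec)

noncomputable section

/-! ### Pull-back of wedge products -/

section pull

variable {Y Z : AV} {κ : Type} [Fintype κ] [DecidableEq κ]

theorem isWedge_pull {h : Y.H →ₗ[ℚ] Z.H} (hh : IsHom Y Z h) {m : ((ℂ ≃+* ℂ) → ℚ) →₀ ℤ}
    {ω : (κ → Z.H) → ℂ} (hω : IsWedge Z κ m ω) : IsWedge Y κ m fun v => ω fun k => h (v k) := by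
  obtain ⟨A, φ, u, hu, hm, rfl⟩ := hω
  obtain ⟨Θ, hΘ⟩ := hh
  refine ⟨A, φ, fun k => (u k).comp h, fun k => ?_, hm, rfl⟩
  obtain ⟨Ψ, hΨ⟩ := hu k
  refine ⟨Ψ.comp Θ, fun v => ?_⟩
  rw [LinearMap.comp_apply, hΘ, hΨ]
  rfl

theorem wedges_pull {h : Y.H →ₗ[ℚ] Z.H} (hh : IsHom Y Z h) {S : Set (((ℂ ≃+* ℂ) → ℚ) →₀ ℤ)}
    {F : (κ → Z.H) → ℂ} (hF : F ∈ Wedges Z κ S) : (fun v => F fun k => h (v k)) ∈ Wedges Y κ S := by
  unfold Wedges at *
  induction hF using Submodule.span_induction with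
  | mem ω hω =>
    obtain ⟨m, hm, hw⟩ := hω
    exact Submodule.subset_span ⟨m, hm, isWedge_pull hh hw⟩
  | zero => exact Submodule.zero_mem _
  | add F G _ _ hF hG => exact Submodule.add_mem _ hF hG
  | smul a F _ hF => exact Submodule.smul_mem _ a hF

end pull

/-! ### Coefficients -/

section coef

variable {X0 : CMAV} {κ : Type} [Fintype κ] [DecidableEq κ]

/-- The sum of the sign vectors of a family of weights. -/
def mI (I : κ → Wt X0 ℂ) : ((ℂ ≃+* ℂ) → ℚ) →₀ ℤ :=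
  ∑ k, Finsupp.single (signs (X0.factor (I k).1) (I k).2) 1

/-- The coefficients of `F` are concentrated in `S`. -/
def CoefIn (S : Set (((ℂ ≃+* ℂ) → ℚ) →₀ ℤ)) (F : (κ → X0.H1) → ℂ) : Prop :=
  ∃ c : (κ → Wt X0 ℂ) → ℂ, (∀ I, c I ≠ 0 → mI I ∈ S) ∧
    ∀ v, F v = ∑ I, c I * ∏ k, ev (v k) (I k)

theorem CoefIn.add {S : Set (((ℂ ≃+* ℂ) → ℚ) →₀ ℤ)} {F G : (κ → X0.H1) → ℂ} (hF : CoefIn S F)
    (hG : CoefIn S G) : CoefIn S (F + G) := by
  obtain ⟨c, h1, h2⟩ := hF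
  obtain ⟨c', h1', h2'⟩ := hG
  refine ⟨c + c', fun I hI => ?_, fun v => ?_⟩
  · by_cases h : c I = 0
    · refine h1' I fun h' => hI ?_
      rw [Pi.add_apply, h, h', add_zero]
    · exact h1 I h
  · rw [Pi.add_apply, h2, h2', ← Finset.sum_add_distrib]
    exact Finset.sum_congr rfl fun I _ => (add_mul _ _ _).symm

theorem CoefIn.smul {S : Set (((ℂ ≃+* ℂ) → ℚ) →₀ ℤ)} {F : (κ → X0.H1) → ℂ} (a : ℂ)
    (hF : CoefIn S F) : CoefIn S (a • F) := by
  obtain ⟨c, h1, h2⟩ := hF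
  refine ⟨a • c, fun I hI => h1 I fun h => hI ?_, fun v => ?_⟩
  · rw [Pi.smul_apply, h, smul_zero]
  · rw [Pi.smul_apply, h2, smul_eq_mul, Finset.mul_sum]
    refine Finset.sum_congr rfl fun I _ => ?_
    rw [Pi.smul_apply, smul_eq_mul, mul_assoc]

theorem CoefIn.zero (S : Set (((ℂ ≃+* ℂ) → ℚ) →₀ ℤ)) : CoefIn S (0 : (κ → X0.H1) → ℂ) := by
  refine ⟨0, fun I hI => absurd rfl hI, fun v => ?_⟩
  simp

/-- The expansion of the functionals. -/
theorem coefIn_wedge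
    (hexp : ∀ (A : CMPair) (u : X0.H1 →ₗ[ℚ] A.E) (Ψ : X0.Tan →ₗ[ℂ] (A.Φ → ℂ))
      (_ : ∀ v, Ψ (X0.per v) = perC A (u v)) (φ : A.E →+* ℂ),
      ∃ b : Wt X0 ℂ → ℂ, (∀ v, φ (u v) = ∑ x, b x * ev v x) ∧
        ∀ x, b x ≠ 0 → signs (X0.factor x.1) x.2 = signs A φ)
    {S : Set (((ℂ ≃+* ℂ) → ℚ) →₀ ℤ)} {F : (κ → X0.H1) → ℂ}
    (hF : F ∈ Wedges (toAV X0) κ S) : CoefIn S F := by
  unfold Wedges at hF
  induction hF using Submodule.span_induction with
  | mem ω hω =>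
    obtain ⟨m, hm, A, φ, u, hu, hmA, rfl⟩ := hω
    choose Ψ hΨ using hu
    choose b hb1 hb2 using fun k => hexp (A k) (u k) (Ψ k) (hΨ k) (φ k)
    refine ⟨fun I => ∑ σ : Perm κ, ((Perm.sign σ : ℤ) : ℂ) * ∏ k, b k (I (σ k)), fun I hI => ?_,
      fun v => ?_⟩
    · obtain ⟨σ, -, hσ⟩ := Finset.exists_ne_zero_of_sum_ne_zero hI
      have h1 : ∀ k, b k (I (σ k)) ≠ 0 := fun k h => hσ (by
        rw [Finset.prod_eq_zero (Finset.mem_univ k) h, mul_zero])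
      have h2 : mI I = m := by
        rw [hmA]
        unfold mI
        rw [← Equiv.sum_comp σ]
        exact Finset.sum_congr rfl fun k _ => by rw [hb2 k _ (h1 k)]
      rw [h2]
      exact hm
    · have h1 : ∀ σ : Perm κ, ∏ k, φ k (u k (v (σ k))) =
          ∑ I : κ → Wt X0 ℂ, (∏ k, b k (I (σ k))) * ∏ k, ev (v k) (I k) := by
        intro σ
        have h2 : ∀ k, φ k (u k (v (σ k))) = ∑ x, b k x * ev (v (σ k)) x := fun k => hb1 k _
        rw [Finset.prod_congr rfl fun k _ => h2 k, Finset.prod_univ_sum, Fintype.piFinset_univ]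
        refine (Fintype.sum_equiv (Equiv.arrowCongr σ.symm (Equiv.refl _)) _ _ fun I => ?_).symm
        rw [Finset.prod_mul_distrib]
        congr 1
        exact (Equiv.prod_comp σ (fun k => ev (v k) (I k))).symm
      change ∑ σ : Perm κ, ((Perm.sign σ : ℤ) : ℂ) * ∏ k, φ k (u k (v (σ k))) = _
      rw [Finset.sum_congr rfl fun σ _ => by rw [h1 σ, Finset.mul_sum], Finset.sum_comm]
      refine Finset.sum_congr rfl fun I _ => ?_
      rw [Finset.sum_mul]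
      exact Finset.sum_congr rfl fun σ _ => by ring
  | zero => exact CoefIn.zero S
  | add F G _ _ hF hG => exact hF.add hG
  | smul a F _ hF => exact hF.smul a

/-- Forms whose coefficients are concentrated in `S` are combinations of wedge products. -/
theorem wedge_of_coef {S : Set (((ℂ ≃+* ℂ) → ℚ) →₀ ℤ)} (f : X0.H1 [⋀^κ]→ₗ[ℚ] ℚ)
    (c : (κ → Wt X0 ℂ) → ℂ) (h1 : ∀ I, c I ≠ 0 → mI I ∈ S)
    (hc : ∀ v, ((f v : ℚ) : ℂ) = ∑ I, c I * ∏ k, ev (v k) (I k)) :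
    (fun v : κ → (toAV X0).H => ((f v : ℚ) : ℂ)) ∈ Wedges (toAV X0) κ S := by
  have hsum : ((Fintype.card (Perm κ) : ℕ) : ℂ) • (fun v : κ → X0.H1 => ((f v : ℚ) : ℂ)) =
      ∑ I : κ → Wt X0 ℂ, c I • fun v : κ → X0.H1 => ∑ σ : Perm κ,
        ((Perm.sign σ : ℤ) : ℂ) * ∏ k, ev (v (σ k)) (I k) := by
    funext v
    rw [Finset.sum_apply, Pi.smul_apply, smul_eq_mul]
    have h1 : ∀ σ : Perm κ, ((f v : ℚ) : ℂ) = ((Perm.sign σ : ℤ) : ℂ) *
        ∑ I : κ → Wt X0 ℂ, c I * ∏ k, ev (v (σ k)) (I k) := by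
      intro σ
      have h2 : ((f (fun k => v (σ k)) : ℚ) : ℂ) =
          ∑ I : κ → Wt X0 ℂ, c I * ∏ k, ev (v (σ k)) (I k) := hc (fun k => v (σ k))
      rw [← h2]
      have h3 : f (fun k => v (σ k)) = Perm.sign σ • f v := f.map_perm v σ
      rw [h3, Units.smul_def, zsmul_eq_mul, Rat.cast_mul, Rat.cast_intCast, ← mul_assoc,
        ← Int.cast_mul, ← Units.val_mul, Int.units_mul_self, Units.val_one, Int.cast_one, one_mul]
    have h4 : ((Fintype.card (Perm κ) : ℕ) : ℂ) * ((f v : ℚ) : ℂ) =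
        ∑ σ : Perm κ, ((Perm.sign σ : ℤ) : ℂ) *
          ∑ I : κ → Wt X0 ℂ, c I * ∏ k, ev (v (σ k)) (I k) := by
      rw [← Finset.sum_congr rfl (fun σ _ => h1 σ), Finset.sum_const, Finset.card_univ,
        nsmul_eq_mul]
    rw [h4]
    simp only [Finset.mul_sum]
    rw [Finset.sum_comm]
    refine Finset.sum_congr rfl fun I _ => ?_
    rw [Pi.smul_apply, smul_eq_mul, Finset.mul_sum]
    refine Finset.sum_congr rfl fun σ _ => ?_
    ring
  have h5 : ((Fintype.card (Perm κ) : ℕ) : ℂ) • (fun v : κ → (toAV X0).H => ((f v : ℚ) : ℂ)) ∈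
      Wedges (toAV X0) κ S := by
    have h6 : ((Fintype.card (Perm κ) : ℕ) : ℂ) • (fun v : κ → (toAV X0).H => ((f v : ℚ) : ℂ)) =
      ∑ I : κ → Wt X0 ℂ, c I • fun v : κ → X0.H1 => ∑ σ : Perm κ,
        ((Perm.sign σ : ℤ) : ℂ) * ∏ k, ev (v (σ k)) (I k) := hsum
    rw [h6]
    refine Submodule.sum_mem _ fun I _ => ?_
    by_cases hI : c I = 0
    · rw [hI, zero_smul]
      exact Submodule.zero_mem _
    · refine Submodule.smul_mem _ _ (Submodule.subset_span ⟨mI I, h1 I hI, ?_⟩)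
      refine ⟨fun k => X0.factor (I k).1, fun k => (I k).2, fun k => LinearMap.proj (I k).1,
        fun k => ?_, rfl, rfl⟩
      exact ⟨LinearMap.proj (I k).1, fun v => rfl⟩
  have hne : ((Fintype.card (Perm κ) : ℕ) : ℂ) ≠ 0 := Nat.cast_ne_zero.2 Fintype.card_ne_zero
  have h6 := Submodule.smul_mem _ (((Fintype.card (Perm κ) : ℕ) : ℂ))⁻¹ h5
  rwa [smul_smul, inv_mul_cancel₀ hne, one_smul] at h6

end coef

end

end Pool.Agent.K4H21.LC
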