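import Pool.Agent.K4H21.LC.Chr
import Pool.Agent.R915.S2

/-!
# The Hodge classes are a system
-/

set_option linter.unusedSectionVars false
set_option linter.unusedVariables false
set_option autoImplicit false

namespace Pool.Agent.K4H21.LC

open Matrix Module Pool.Agent.W437.HC Pool.Agent.W437.HD Pool.Agent.TH504.CB Pool.Agent.Y90
open Pool.Agent.W548.Odd hiding cv
open Pool.Agent.R915 Pool.Agent.K4H29.HC
open Pool.Agent.H204R3.CM (IsHodge)

noncomputable section

/-- The system of the Hodge classes. -/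
def hodgeSys : Sys where
  A := fun X κ f => Finite κ → IsHodge X.per f
  unit := by
    intro X κ _ f _
    refine ⟨MultilinearMap.constOfIsEmpty ℝ (fun _ => X.T) ((f 0 : ℚ) : ℝ), fun v => ?_,
      fun z _ u => ?_⟩
    · rw [Subsingleton.elim v 0]
      rfl
    · rfl
  divisor := fun _ f hf _ => hf
  weil := fun _ f hf _ => hf.2.1
  zero := by
    intro X κ _
    refine ⟨0, fun v => ?_, fun z _ u => rfl⟩
    rw [_root_.zero_apply, AlternatingMap.zero_apply, Rat.cast_zero]
  add := by
    intro X κ f g hf hg hfin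
    obtain ⟨ψ, h1, h2⟩ := hf hfin
    obtain ⟨ψ', h3, h4⟩ := hg hfin
    refine ⟨ψ + ψ', fun v => ?_, fun z hz u => ?_⟩
    · rw [_root_.add_apply, h1, h3, AlternatingMap.add_apply, Rat.cast_add]
    · rw [_root_.add_apply, _root_.add_apply, h2 z hz, h4 z hz]
  smul := by
    intro X κ a f hf hfin
    obtain ⟨ψ, h1, h2⟩ := hf hfin
    refine ⟨(a : ℝ) • ψ, fun v => ?_, fun z hz u => ?_⟩
    · rw [_root_.smul_apply, h1, AlternatingMap.smul_apply, smul_eq_mul, smul_eq_mul, Rat.cast_mul]
    · rw [_root_.smul_apply, _root_.smul_apply, h2 z hz]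
  reindex := by
    intro X κ κ' e f hf hfin
    obtain ⟨ψ, h1, h2⟩ := hf (Finite.of_equiv _ e.symm)
    refine ⟨ψ.domDomCongr e, fun v => ?_, fun z hz u => ?_⟩
    · rw [MultilinearMap.domDomCongr_apply, AlternatingMap.domDomCongr_apply]
      exact h1 _
    · rw [MultilinearMap.domDomCongr_apply, MultilinearMap.domDomCongr_apply]
      exact h2 z hz _
  cup := by
    intro X κ κ' _ _ _ _ f g hf hg h hh _
    obtain ⟨ψ, h1, h2⟩ := hf inferInstance
    obtain ⟨ψ', h3, h4⟩ := hg inferInstance
    have h5 : h = MultilinearMap.alternatization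
        (prd f.toMultilinearMap g.toMultilinearMap) := by
      ext v
      rw [hh, MultilinearMap.alternatization_apply]
      refine Finset.sum_congr rfl fun σ _ => ?_
      rw [MultilinearMap.domDomCongr_apply, prd_apply, Units.smul_def, zsmul_eq_mul]
      rfl
    rw [h5]
    refine isHodge_alt (prd ψ ψ') (fun v => ?_) fun z hz u => ?_
    · rw [prd_apply, prd_apply, h1, h3]
      push_cast
      rfl
    · rw [prd_apply, prd_apply, h2 z hz, h4 z hz]
  pull := by
    intro X Y h hh κ f hf hfin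
    obtain ⟨Ψ, hΨ⟩ := hh
    exact isHodge_comp h Ψ hΨ (hf hfin)
  push := by
    intro X Y P i hi j hj hij κ κ' b f hf g hg hfin
    have h1 := Y.finH
    have h2 : Finite κ' := Module.Finite.finite_basis b
    exact isHodge_push i hi j hj b f (hf inferInstance) g hg

/-- The classes generated by Weil classes belong to each system which contains the Weil classes. -/
theorem algW_le {𝒜 : Sys} (h𝒜 : HasWeil 𝒜) {X : AV} {κ : Type} {f : X.H [⋀^κ]→ₗ[ℚ] ℚ}
    (hf : AlgW X κ f) : 𝒜.A X κ f := by
  induction hf with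
  | unit f => exact 𝒜.unit f
  | divisor hκ f hf => exact 𝒜.divisor hκ f hf
  | weil f hf => exact h𝒜 _ _ f hf
  | zero X κ => exact 𝒜.zero X κ
  | add f g _ _ hf hg => exact 𝒜.add f g hf hg
  | smul a f _ hf => exact 𝒜.smul a f hf
  | reindex e f _ hf => exact 𝒜.reindex e f hf
  | cup f g _ _ h hh hf hg => exact 𝒜.cup f g hf hg h hh
  | pull h hh f _ hf => exact 𝒜.pull h hh f hf
  | push i hi j hj hij b f _ g hg hf => exact 𝒜.push i hi j hj hij b f hf g hg

theorem AlgW.isHodge' {X : AV} {κ : Type} {f : X.H [⋀^κ]→ₗ[ℚ] ℚ} (hf : AlgW X κ f) (hκ : Finite κ) :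
    IsHodge X.per f := algW_le (𝒜 := hodgeSys) (fun _ _ f hf _ => hf.2.1) hf hκ

end

end Pool.Agent.K4H21.LC
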