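import Pool.Agent.K4H21.LC.Cls
import Pool.Agent.K4H21.LC.HodgeW

/-!
# The criterion for each class, second part
-/

set_option linter.unusedSectionVars false
set_option linter.unusedVariables false
set_option autoImplicit false

namespace Pool.Agent.K4H21.LC

open Module NumberField Equiv Pool.Agent.R915 Pool.Agent.K4H29.HC Pool.Agent.K4H21.DB
open Pool.Agent.Y90 (AV IsHom IsPolarization)
open Pool.Agent.H204R3.CM (IsHodge IsCMType form_coeff balanced_of_hodge xEquiv)
open Pool.Agent.W547.KB (CMPair CMAV Wt St ev evLin mono mono_apply Balanced isHalf_St trForm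
  isHodge_trForm)
open Pool.Agent.W547.LD (hs)
open Pool.Agent.W547.LN (SameType)
open Pool.Agent.K4H34.DB (dec)

noncomputable section

variable {L : Type} [Field L] [NumberField L] [IsCMField L] [IsGalois ℚ L]
  {X0 : CMAV} (j : L →+* ℂ)
  (hj : ∀ i, ∀ ψ : (X0.factor i).E →+* ℂ, ∃ φ : (X0.factor i).E →+* L, j.comp φ = ψ)
  {κ : Type} [Fintype κ] [DecidableEq κ]

/-- The weights with values in the field of complex numbers. -/
def up' (j : L →+* ℂ) (I : κ → Wt X0 L) : κ → Wt X0 ℂ := fun k => ⟨(I k).1, j.comp (I k).2⟩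

include hj in
/-- The coefficients of a rational form. -/
theorem exists_coef (f : X0.H1 [⋀^κ]→ₗ[ℚ] ℚ) :
    ∃ (c : (κ → Wt X0 L) → L) (c' : (κ → Wt X0 ℂ) → ℂ),
      (∀ v : κ → X0.H1, ((f v : ℚ) : L) = ∑ I, c I * ∏ k, ev (v k) (I k)) ∧
      (∀ v : κ → X0.H1, ((f v : ℚ) : ℂ) = ∑ I, c' I * ∏ k, ev (v k) (I k)) ∧
      (∀ I : κ → Wt X0 L, c' (up' j I) = j (c I)) ∧ ∀ I', ∃ I : κ → Wt X0 L, up' j I = I' := by
  classical
  obtain ⟨c, hc⟩ := form_coeff (E := fun i : X0.I => (X0.factor i).E) (fun i : X0.I => i) j hj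
    f.toMultilinearMap
  let e : (κ → Wt X0 L) ≃ (κ → Wt X0 ℂ) :=
    Equiv.arrowCongr (Equiv.refl κ) (xEquiv (E := fun i : X0.I => (X0.factor i).E)
      (fun i : X0.I => i) j hj)
  have he : ∀ I, e I = up' j I := fun I => rfl
  refine ⟨c, fun I' => j (c (e.symm I')), hc, fun v => ?_, fun I => ?_, fun I' =>
    ⟨e.symm I', (he _).symm.trans (e.apply_symm_apply I')⟩⟩
  · have h2 := congrArg j (hc v)
    rw [map_ratCast] at h2
    have h3 : ((f v : ℚ) : ℂ) = ((f.toMultilinearMap v : ℚ) : ℂ) := rfl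
    rw [h3, h2, map_sum]
    refine Fintype.sum_equiv e _ _ fun I => ?_
    have h4 : e.symm (e I) = I := e.symm_apply_apply I
    change j (c I * _) = j (c (e.symm (e I))) * _
    rw [h4, map_mul, map_prod]
    rfl
  · have h4 : e.symm (e I) = I := e.symm_apply_apply I
    change j (c (e.symm (e I))) = j (c I)
    rw [h4]

/-- A rational form belongs to the ring if the monomials with nonzero coefficients belong to its
span. -/
theorem mem_of_coef {A : (κ : Type) → (X0.H1 [⋀^κ]→ₗ[ℚ] ℚ) → Prop} (hA : IsRing X0 A)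
    (f : X0.H1 [⋀^κ]→ₗ[ℚ] ℚ) (c : (κ → Wt X0 L) → L)
    (hc : ∀ v : κ → X0.H1, ((f v : ℚ) : L) = ∑ I, c I * ∏ k, ev (v k) (I k))
    (hmono : ∀ I : κ → Wt X0 L, c I ≠ 0 → mono I ∈ LS L A κ) : A κ f := by
  classical
  apply of_LS (L := L) hA
  have hsum : ((Fintype.card (Perm κ) : ℕ) : L) • (fun v : κ → X0.H1 => ((f v : ℚ) : L)) =
      ∑ I : κ → Wt X0 L, c I • mono I := by
    funext v
    rw [Finset.sum_apply, Pi.smul_apply, smul_eq_mul]
    have h1 : ∀ σ : Perm κ, ((f v : ℚ) : L) = ((Perm.sign σ : ℤ) : L) *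
        ∑ I : κ → Wt X0 L, c I * ∏ k, ev (v (σ k)) (I k) := by
      intro σ
      have h2 : ((f (fun k => v (σ k)) : ℚ) : L) =
          ∑ I : κ → Wt X0 L, c I * ∏ k, ev (v (σ k)) (I k) := hc (fun k => v (σ k))
      rw [← h2]
      have h3 : f (fun k => v (σ k)) = Perm.sign σ • f v := f.map_perm v σ
      rw [h3, Units.smul_def, zsmul_eq_mul, Rat.cast_mul, Rat.cast_intCast, ← mul_assoc,
        ← Int.cast_mul, ← Units.val_mul, Int.units_mul_self, Units.val_one, Int.cast_one, one_mul]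
    have h4 : ((Fintype.card (Perm κ) : ℕ) : L) * ((f v : ℚ) : L) =
        ∑ σ : Perm κ, ((Perm.sign σ : ℤ) : L) *
          ∑ I : κ → Wt X0 L, c I * ∏ k, ev (v (σ k)) (I k) := by
      rw [← Finset.sum_congr rfl (fun σ _ => h1 σ), Finset.sum_const, Finset.card_univ,
        nsmul_eq_mul]
    rw [h4]
    simp only [Finset.mul_sum]
    rw [Finset.sum_comm]
    refine Finset.sum_congr rfl fun I _ => ?_
    rw [Pi.smul_apply, smul_eq_mul, mono_apply, Finset.mul_sum]
    refine Finset.sum_congr rfl fun σ _ => ?_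
    ring
  have h5 : ((Fintype.card (Perm κ) : ℕ) : L) • (fun v : κ → X0.H1 => ((f v : ℚ) : L)) ∈
      LS L A κ := by
    rw [hsum]
    refine Submodule.sum_mem _ fun I _ => ?_
    by_cases hI : c I = 0
    · rw [hI, zero_smul]
      exact Submodule.zero_mem _
    · exact Submodule.smul_mem _ _ (hmono I hI)
  have hne : ((Fintype.card (Perm κ) : ℕ) : L) ≠ 0 := Nat.cast_ne_zero.2 Fintype.card_ne_zero
  have h6 := Submodule.smul_mem _ (((Fintype.card (Perm κ) : ℕ) : L))⁻¹ h5
  rwa [smul_smul, inv_mul_cancel₀ hne, one_smul] at h6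

theorem mI_up (I : κ → Wt X0 L) :
    mI (up' j I) = ∑ k, Finsupp.single (Th j (St j (I k))) 1 := by
  unfold mI
  refine Finset.sum_congr rfl fun k _ => ?_
  exact congrArg (fun s => Finsupp.single s (1 : ℤ)) (signs_eq j (X0.factor (I k).1) (I k).2)

theorem sum_single {g : κ → ((ℂ ≃+* ℂ) → ℚ)} :
    ((∑ k, Finsupp.single (g k) (1 : ℤ)).sum fun s n => (n : ℚ) • s) = ∑ k, g k := by
  rw [← Finsupp.sum_finsetSum_index (fun s => by simp)
    (fun s n n' => by rw [Int.cast_add, add_smul])]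
  refine Finset.sum_congr rfl fun k _ => ?_
  rw [Finsupp.sum_single_index (by simp), Int.cast_one, one_smul]

theorem sum_Th (I : κ → Wt X0 L) :
    ∑ k, Th j (St j (I k)) = 0 ↔ Balanced (fun k => St j (I k)) := by
  classical
  have h1 : ∀ τ, (∑ k, Th j (St j (I k))) τ =
      ((∑ k, (if rr j τ ∈ St j (I k) then (1 : ℤ) else -1) : ℤ) : ℚ) := by
    intro τ
    rw [Finset.sum_apply, Int.cast_sum]
    refine Finset.sum_congr rfl fun k _ => ?_
    unfold Th sg
    split_ifs <;> rfl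
  constructor
  · intro h σ
    obtain ⟨τ, rfl⟩ := rr_surj j σ
    have h2 := h1 τ
    rw [h, Pi.zero_apply] at h2
    have h3 : (∑ k, (if rr j τ ∈ St j (I k) then (1 : ℤ) else -1) : ℤ) = 0 := by
      exact_mod_cast h2.symm
    convert h3
  · intro h
    funext τ
    rw [h1, Pi.zero_apply]
    have h3 : (∑ k, (if rr j τ ∈ St j (I k) then (1 : ℤ) else -1) : ℤ) = 0 := by
      have h4 := h (rr j τ)
      convert h4
    rw [h3, Int.cast_zero]

theorem pb_mI (I : κ → Wt X0 L) : pb j (mI (up' j I)) = odd (fun k => St j (I k)) := by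
  classical
  rw [mI_up]
  funext S
  unfold pb odd
  rw [Finsupp.finsetSum_apply, Finsupp.finsetSum_apply, ← Finset.sum_sub_distrib]
  refine Finset.sum_congr rfl fun k _ => ?_
  rw [Finsupp.single_apply, Finsupp.single_apply]
  simp only [(Th_inj j).eq_iff]

section rel

variable {Y : AV} (h1 : ∀ i, IsCMFactor (X0.factor i) Y)
  (h2 : ∀ A : CMPair, IsCMFactor A Y → ∃ i, SameType A (X0.factor i))

include h1 in
theorem isRelation_iff (I : κ → Wt X0 L) :
    IsRelation Y (mI (up' j I)) ↔ Balanced (fun k => St j (I k)) := by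
  classical
  rw [← sum_Th, mI_up, ← sum_single]
  constructor
  · exact fun h => h.2
  · refine fun h => ⟨fun s hs => ?_, h⟩
    by_contra hcon
    apply hs
    rw [Finsupp.finsetSum_apply]
    refine Finset.sum_eq_zero fun k _ => ?_
    rw [Finsupp.single_apply, if_neg]
    rintro rfl
    exact hcon ⟨X0.factor (I k).1, h1 _, _, (signs_eq j (X0.factor (I k).1) (I k).2).symm⟩

include hj h1 h2 in
/-- Monomials in the subgroup belong to the system. -/
theorem mono_mem (𝒜 : Sys) {n : ℕ∞} (hn : HasWeil 𝒜 ∨ n = 3) (I : κ → Wt X0 L)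
    (hrel : IsRelation Y (mI (up' j I))) (hgen : mI (up' j I) ∈ Gen Y n) :
    mono I ∈ LS L ((csys 𝒜).A X0) κ := by
  have h3 := (isRelation_iff j h1 I).1 hrel
  have h4 := QQ_of_gen j h1 h2 hj 𝒜 hn hgen
  rw [pb_mI] at h4
  have h5 : odd (fun k => St j (I k)) ∈ Lam (PX j X0) :=
    odd_mem (compl_PX j X0) (fun k => ⟨I k, rfl⟩) h3
  exact (h4.ok h5.2.2).alg (csys 𝒜) (fun k => isHalf_St j (I k)) rfl X0 I fun k => rfl

end rel

end

end Pool.Agent.K4H21.LC
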