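import Mathlib
import Pool.Agent.K4H21.DB.Defs
import Pool.Agent.K4H29.HC.Stm

/-!
# The relations between sign vectors, and the relations which come from determinants: definitions

Complex abelian varieties `AV` (given by `H = H_1(X, ℚ)`, the tangent space `T` and the period map
`per`), homomorphisms `IsHom` and Hodge classes `IsHodge` are as in `Pool.Agent.Y90.Defs`; CM types
`CMPair` as in `Pool.Agent.W547.KB.Defs`; `IsCMFactor A X` says that the CM type `A` is primitive and
that the simple abelian variety of type `A` is (isogenous to) an abelian subvariety of `X`; `pow X n`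
is the power `X ^ n`; `signs A φ` is the sign vector of the embedding `φ` of the field of the CM type
`A`, a function on the group of the automorphisms of the field of complex numbers, and `SV X` is the
set of the sign vectors which belong to the simple factors of `X` with complex multiplication.
-/

set_option autoImplicit false

namespace Pool.Agent.K4H21.LC

open Module NumberField Pool.Agent.Y90 Pool.Agent.R915 Pool.Agent.W547.KB Pool.Agent.K4H29.HC
open Pool.Agent.K4H21.DB

/-- The element `m` of the free abelian group on the functions on `Aut ℂ` is a relation between the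
sign vectors of `X`: only the sign vectors of `X` occur, and `∑ m(s) s = 0`. -/
def IsRelation (X : AV) (m : ((ℂ ≃+* ℂ) → ℚ) →₀ ℤ) : Prop :=
  (∀ s, m s ≠ 0 → s ∈ SV X) ∧ (m.sum fun s n => (n : ℚ) • s) = 0

open Classical in
/-- The sum `∑ [signs A φ]`, in the free abelian group on the functions on `Aut ℂ`, over the
embeddings `φ` of the CM field with `φ δ = z`. -/
noncomputable def orbit (A : CMPair) (δ : A.E) (z : ℂ) : ((ℂ ≃+* ℂ) → ℚ) →₀ ℤ :=
  ∑ φ : A.E →+* ℂ, if φ δ = z then Finsupp.single (signs A φ) 1 else 0

/-- The subgroup of the free abelian group on the functions on `Aut ℂ` which is generated by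

* the sums `[s] + [-s]` for all sign vectors `s` of `X`;
* the sums `∑ [signs A φ]` over the embeddings `φ` of the CM field `E` with `φ δ = z`, for all simple
  factors of `X` with complex multiplication, `A = (E, Φ)` its CM type, all square roots `δ ∈ E` of
  negative rational numbers `-d` and all complex numbers `z`, such that the multiplicities of the
  imaginary quadratic field `ℚ(δ)` on the tangent space of this factor are at most `n` (`φ δ = w` for at
  most `n` elements `φ` of `Φ`). -/
noncomputable def Gen (X : AV) (n : ℕ∞) : AddSubgroup (((ℂ ≃+* ℂ) → ℚ) →₀ ℤ) :=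
  AddSubgroup.closure ({m | ∃ s ∈ SV X, m = Finsupp.single s 1 + Finsupp.single (-s) 1} ∪
    {m | ∃ A : CMPair, IsCMFactor A X ∧ ∃ (δ : A.E) (d : ℚ) (z : ℂ), 0 < d ∧
      δ * δ = -(d : A.E) ∧ (∀ w, {φ ∈ A.Φ | φ δ = w}.encard ≤ n) ∧ m = orbit A δ z})

end Pool.Agent.K4H21.LC
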