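import Mathlib
import Pool.Agent.K4H21.LC.Defs

/-!
# Wedge products of eigenfunctionals: definitions
-/

set_option autoImplicit false

namespace Pool.Agent.K4H21.LC

open Module NumberField Pool.Agent.Y90 Pool.Agent.R915 Pool.Agent.W547.KB Pool.Agent.K4H29.HC
open Pool.Agent.K4H21.DB

/-- The function `ω` on `H_1(Y, ℚ) ^ κ` is a wedge product of eigenfunctionals with the sum `m` of the
sign vectors: there are CM types `A k = (E k, Φ k)`, homomorphisms `u k` from `Y` to the abelian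
variety of type `A k` (with rational homology `E k`, tangent space `ℂ ^ Φ k` and the embeddings in
`Φ k` as period map) and embeddings `φ k` of `E k`, such that `ω` is the wedge product of the functionals
`φ k ∘ u k : H_1(Y, ℚ) → ℂ`, and `m = ∑ [signs (A k) (φ k)]`. -/
def IsWedge (Y : AV) (κ : Type) [Fintype κ] [DecidableEq κ] (m : ((ℂ ≃+* ℂ) → ℚ) →₀ ℤ)
    (ω : (κ → Y.H) → ℂ) : Prop :=
  ∃ (A : κ → CMPair) (φ : ∀ k, (A k).E →+* ℂ) (u : ∀ k, Y.H →ₗ[ℚ] (A k).E),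
    (∀ k, ∃ Ψ : Y.T →ₗ[ℂ] ((A k).Φ → ℂ), ∀ v, Ψ (Y.per v) = fun θ => θ.1 (u k v)) ∧
    m = ∑ k, Finsupp.single (signs (A k) (φ k)) 1 ∧
    ω = fun v => ∑ σ : Equiv.Perm κ,
      ((Equiv.Perm.sign σ : ℤ) : ℂ) * ∏ k, φ k (u k (v (σ k)))

/-- The complex functions on `H_1(Y, ℚ) ^ κ` which are linear combinations of wedge products of
eigenfunctionals with the sum of the sign vectors in the set `S`. -/
def Wedges (Y : AV) (κ : Type) [Fintype κ] [DecidableEq κ] (S : Set (((ℂ ≃+* ℂ) → ℚ) →₀ ℤ)) :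
    Submodule ℂ ((κ → Y.H) → ℂ) :=
  Submodule.span ℂ {ω | ∃ m ∈ S, IsWedge Y κ m ω}

end Pool.Agent.K4H21.LC
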