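import Pool.Agent.K4H21.LC.Chr
import Pool.Agent.K4H21.LC.Defs
import Pool.Agent.K4H21.DB.Mix
import Pool.Agent.K4H94.DB.Def
import Pool.Agent.K4H29.HC.Field
import Pool.Agent.K4H29.HC.Theta

/-!
# Relations which come from determinants belong to the system
-/

set_option linter.unusedSectionVars false
set_option linter.unusedVariables false
set_option autoImplicit false

namespace Pool.Agent.K4H21.LC

open Module NumberField Pool.Agent.R915 Pool.Agent.K4H29.HC Pool.Agent.K4H21.DB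
open Pool.Agent.Y90 (AV IsHom)
open Pool.Agent.W547.KB (CMPair CMAV Wt St cc IsHalf isHalf_St cc_comm emb_cc)
open Pool.Agent.W547.LD (tr mem_tr tr_one tr_tr tr_compl tr_inv_tr tr_tr_inv tr_injective tr_cc
  ne_compl Orb IsImag hs isHalf_hs)
open Pool.Agent.W547.LN (SameType)
open Pool.Agent.H977R3.CM (exists_gal exists_aut)
open Pool.Agent.K4H94.DB (sv_eq)

noncomputable section

variable {L : Type} [Field L] [NumberField L] [IsCMField L] [IsGalois ℚ L]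

/-! ### Sign vectors and half systems -/

/-- The restriction of automorphisms. -/
def rr (j : L →+* ℂ) (τ : ℂ ≃+* ℂ) : L ≃ₐ[ℚ] L := (exists_gal j τ).choose

theorem rr_spec (j : L →+* ℂ) (τ : ℂ ≃+* ℂ) (x : L) : τ (j x) = j (rr j τ x) :=
  (exists_gal j τ).choose_spec x

theorem rr_surj (j : L →+* ℂ) : Function.Surjective (rr j) := by
  intro g
  obtain ⟨τ, hτ⟩ := exists_aut j (g : L ≃+* L)
  refine ⟨τ, AlgEquiv.ext fun x => j.injective ?_⟩
  rw [← rr_spec, hτ]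
  rfl

/-- The sign vector of a half system. -/
def Th (j : L →+* ℂ) (S : Set (L ≃ₐ[ℚ] L)) : (ℂ ≃+* ℂ) → ℚ := fun τ => ((sg S (rr j τ) : ℤ) : ℚ)

theorem Th_compl (j : L →+* ℂ) (S : Set (L ≃ₐ[ℚ] L)) : Th j Sᶜ = -Th j S := by
  funext τ
  change ((sg Sᶜ (rr j τ) : ℤ) : ℚ) = -((sg S (rr j τ) : ℤ) : ℚ)
  rw [sg_compl, Int.cast_neg]

theorem Th_inj (j : L →+* ℂ) : Function.Injective (Th j) := by
  intro S T h
  ext σ
  obtain ⟨τ, rfl⟩ := rr_surj j σ
  have h1 := congrFun h τ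
  change ((sg S (rr j τ) : ℤ) : ℚ) = ((sg T (rr j τ) : ℤ) : ℚ) at h1
  have h2 : sg S (rr j τ) = sg T (rr j τ) := by exact_mod_cast h1
  unfold sg at h2
  by_cases a : rr j τ ∈ S <;> by_cases b : rr j τ ∈ T <;> simp [a, b] at h2 ⊢

theorem signs_eq (j : L →+* ℂ) (A : CMPair) (φ : A.E →+* L) :
    signs A (j.comp φ) = Th j (hs A j φ) := by
  classical
  funext τ
  have h1 : (τ : ℂ →+* ℂ).comp (j.comp φ) = j.comp (rr j τ • φ) :=
    RingHom.ext fun a => rr_spec j τ (φ a)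
  have h2 : (τ : ℂ →+* ℂ).comp (j.comp φ) ∈ A.Φ ↔ rr j τ ∈ hs A j φ := by
    rw [h1]
    rfl
  unfold signs Th sg
  simp only [h2]
  split_ifs <;> simp

theorem Th_zero_iff (j : L →+* ℂ) (a : Set (L ≃ₐ[ℚ] L) → ℤ) :
    ∑ S, ((a S : ℤ) : ℚ) • Th j S = 0 ↔ ∀ σ, ∑ S, a S * sg S σ = 0 := by
  constructor
  · intro h σ
    obtain ⟨τ, rfl⟩ := rr_surj j σ
    have h1 := congrFun h τ
    rw [Finset.sum_apply] at h1
    have h2 : ((∑ S, a S * sg S (rr j τ) : ℤ) : ℚ) = 0 := by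
      rw [Int.cast_sum]
      refine Eq.trans (Finset.sum_congr rfl fun S _ => ?_) h1
      rw [Int.cast_mul]
      rfl
    exact_mod_cast h2
  · intro h
    funext τ
    rw [Finset.sum_apply]
    have h1 := congrArg (fun x : ℤ => (x : ℚ)) (h (rr j τ))
    simp only [Int.cast_sum, Int.cast_mul, Int.cast_zero] at h1
    exact h1

/-! ### Pull-back of elements of the free abelian group -/

/-- The odd function of the element of the free abelian group. -/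
def pb (j : L →+* ℂ) (m : ((ℂ ≃+* ℂ) → ℚ) →₀ ℤ) (S : Set (L ≃ₐ[ℚ] L)) : ℤ :=
  m (Th j S) - m (Th j Sᶜ)

theorem pb_add (j : L →+* ℂ) (m m' : ((ℂ ≃+* ℂ) → ℚ) →₀ ℤ) : pb j (m + m') = pb j m + pb j m' := by
  funext S
  change (m + m') _ - (m + m') _ = (m _ - m _) + (m' _ - m' _)
  rw [Finsupp.add_apply, Finsupp.add_apply]
  ring

theorem pb_neg (j : L →+* ℂ) (m : ((ℂ ≃+* ℂ) → ℚ) →₀ ℤ) : pb j (-m) = -pb j m := by
  funext S
  change (-m) _ - (-m) _ = -(m _ - m _)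
  rw [Finsupp.neg_apply, Finsupp.neg_apply]
  ring

theorem pb_zero (j : L →+* ℂ) : pb j 0 = 0 := by
  funext S
  change (0 : ((ℂ ≃+* ℂ) → ℚ) →₀ ℤ) _ - (0 : ((ℂ ≃+* ℂ) → ℚ) →₀ ℤ) _ = 0
  rw [Finsupp.zero_apply, Finsupp.zero_apply, sub_zero]

theorem pb_pair (j : L →+* ℂ) (s : (ℂ ≃+* ℂ) → ℚ) :
    pb j (Finsupp.single s 1 + Finsupp.single (-s) 1) = 0 := by
  classical
  funext S
  unfold pb
  rw [Pi.zero_apply, Finsupp.add_apply, Finsupp.add_apply, Th_compl]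
  simp only [Finsupp.single_apply]
  have h1 : s = -Th j S ↔ -s = Th j S := by
    constructor
    · rintro h
      rw [h, neg_neg]
    · intro h
      rw [← h, neg_neg]
  have h2 : -s = -Th j S ↔ s = Th j S := neg_inj
  simp only [h1, h2]
  ring

section orbit

variable (A : CMPair) (j : L →+* ℂ) (hj : ∀ ψ : A.E →+* ℂ, ∃ φ : A.E →+* L, j.comp φ = ψ)
  (hinj : Function.Injective (hs A j)) (δ : A.E) (z : ℂ)

open Classical in
/-- The half systems of the embeddings with the given value at `δ`. -/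
def OO (A : CMPair) (j : L →+* ℂ) (δ : A.E) (z : ℂ) : Finset (Set (L ≃ₐ[ℚ] L)) :=
  (Finset.univ.filter fun φ : A.E →+* L => j (φ δ) = z).image (hs A j)

theorem mem_OO {S : Set (L ≃ₐ[ℚ] L)} :
    S ∈ OO A j δ z ↔ ∃ φ : A.E →+* L, j (φ δ) = z ∧ hs A j φ = S := by
  unfold OO
  rw [Finset.mem_image]
  constructor
  · rintro ⟨φ, h1, h2⟩
    exact ⟨φ, (Finset.mem_filter.1 h1).2, h2⟩
  · rintro ⟨φ, h1, h2⟩
    exact ⟨φ, Finset.mem_filter.2 ⟨Finset.mem_univ _, h1⟩, h2⟩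

/-- Embeddings in `L` and in the field of complex numbers. -/
def eLC : (A.E →+* L) ≃ (A.E →+* ℂ) :=
  Equiv.ofBijective (fun φ => j.comp φ) ⟨fun φ φ' h => RingHom.ext fun x =>
    j.injective (congrArg (fun f : A.E →+* ℂ => f x) h), hj⟩

theorem eLC_apply (φ : A.E →+* L) : eLC A j hj φ = j.comp φ := rfl

include hj hinj in
theorem orbit_apply (S : Set (L ≃ₐ[ℚ] L)) :
    (orbit A δ z) (Th j S) = if S ∈ OO A j δ z then 1 else 0 := by
  classical
  have h1 : (orbit A δ z) (Th j S) =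
      ∑ φ : A.E →+* L, if (j (φ δ) = z ∧ hs A j φ = S) then (1 : ℤ) else 0 := by
    unfold orbit
    rw [Finsupp.finsetSum_apply, ← (eLC A j hj).sum_comp]
    refine Finset.sum_congr rfl fun φ _ => ?_
    rw [eLC_apply, signs_eq]
    change (if j (φ δ) = z then Finsupp.single (Th j (hs A j φ)) (1 : ℤ) else 0) (Th j S) = _
    by_cases a : j (φ δ) = z
    · rw [if_pos a, Finsupp.single_apply]
      have h2 : Th j (hs A j φ) = Th j S ↔ hs A j φ = S := (Th_inj j).eq_iff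
      simp only [h2, a, true_and]
    · rw [if_neg a, if_neg (fun h => a h.1)]
      rfl
  rw [h1]
  by_cases hS : S ∈ OO A j δ z
  · rw [if_pos hS]
    obtain ⟨φ, a, b⟩ := (mem_OO A j δ z).1 hS
    rw [Finset.sum_eq_single φ]
    · rw [if_pos ⟨a, b⟩]
    · intro ψ _ hψ
      rw [if_neg]
      rintro ⟨-, h⟩
      exact hψ (hinj (h.trans b.symm))
    · intro h
      exact absurd (Finset.mem_univ _) h
  · rw [if_neg hS]
    refine Finset.sum_eq_zero fun φ _ => ?_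
    rw [if_neg]
    intro h
    exact hS ((mem_OO A j δ z).2 ⟨φ, h⟩)

include hj hinj in
theorem pb_orbit : pb j (orbit A δ z) = uF (OO A j δ z) := by
  classical
  funext S
  change (orbit A δ z) (Th j S) - (orbit A δ z) (Th j Sᶜ) = _
  rw [orbit_apply A j hj hinj, orbit_apply A j hj hinj]
  unfold uF
  congr

theorem isHalf_OO : ∀ S ∈ OO A j δ z, IsHalf S := by
  intro S hS
  obtain ⟨φ, -, rfl⟩ := (mem_OO A j δ z).1 hS
  exact isHalf_hs A j φ

theorem tr_hs' (τ : L ≃ₐ[ℚ] L) (φ : A.E →+* L) : tr τ (hs A j φ) = hs A j (τ • φ) := rfl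

/-- The stabilizer of an element. -/
def stb' (x : L) : Subgroup (L ≃ₐ[ℚ] L) where
  carrier := {τ | τ x = x}
  one_mem' := rfl
  mul_mem' := fun {a b} ha hb => by
    change a (b x) = x
    rw [show b x = x from hb]
    exact ha
  inv_mem' := fun {a} ha => by
    change a⁻¹ x = x
    have h : a x = x := ha
    nth_rewrite 1 [← h]
    exact AlgEquiv.symm_apply_apply a x

theorem sqrt_or {x : L} {d : ℚ} (h : x * x = -(d : L)) (τ : L ≃ₐ[ℚ] L) : τ x = x ∨ τ x = -x := by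
  have h1 : τ x * τ x = x * x := by
    rw [← map_mul, h, map_neg, map_ratCast]
  exact mul_self_eq_mul_self_iff.1 h1

theorem isImag_stb' {x : L} {d : ℚ} (hd : 0 < d) (h : x * x = -(d : L)) : IsImag (stb' x) := by
  have hx0 : x ≠ 0 := by
    rintro rfl
    rw [mul_zero] at h
    have h2 : (d : L) = 0 := neg_eq_zero.1 h.symm
    exact hd.ne' (Rat.cast_eq_zero.1 h2)
  have hc : cc L x = -x := by
    obtain ⟨φ⟩ : Nonempty (L →+* ℂ) := inferInstance
    apply φ.injective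
    rw [emb_cc]
    have h1 : φ x * φ x = -((d : ℚ) : ℂ) := by
      rw [← map_mul, h, map_neg, map_ratCast]
    have h2 : (starRingEnd ℂ) (φ x) * (starRingEnd ℂ) (φ x) = -((d : ℚ) : ℂ) := by
      rw [← map_mul, h1, map_neg, map_ratCast]
    rcases mul_self_eq_mul_self_iff.1 (h2.trans h1.symm) with h3 | h3
    · exfalso
      have h4 : ((φ x).re : ℂ) = φ x := Complex.conj_eq_iff_re.1 h3
      rw [← h4, ← Complex.ofReal_mul] at h1
      have h5 : (φ x).re * (φ x).re = -(d : ℝ) := by exact_mod_cast h1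
      have h6 : (0 : ℝ) < (d : ℝ) := by exact_mod_cast hd
      nlinarith [mul_self_nonneg (φ x).re]
    · rw [h3, map_neg]
  refine ⟨fun h1 => ?_, fun τ hτ => ?_⟩
  · have h2 : cc L x = x := h1
    rw [hc] at h2
    exact hx0 (self_eq_neg.1 h2.symm)
  · rcases sqrt_or h τ with h1 | h1
    · exact absurd h1 hτ
    · change cc L (τ x) = x
      rw [h1, map_neg, hc, neg_neg]

theorem stable_OO {φ0 : A.E →+* L} (h0 : j (φ0 δ) = z) :
    ∀ τ ∈ stb' (φ0 δ), ∀ S ∈ OO A j δ z, tr τ S ∈ OO A j δ z := by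
  intro τ hτ S hS
  obtain ⟨φ, h1, rfl⟩ := (mem_OO A j δ z).1 hS
  refine (mem_OO A j δ z).2 ⟨τ • φ, ?_, (tr_hs' A j τ φ).symm⟩
  have h2 : φ δ = φ0 δ := j.injective (h1.trans h0.symm)
  have h3 : (τ • φ) δ = τ (φ δ) := rfl
  rw [h3, h2, show τ (φ0 δ) = φ0 δ from hτ, h0]

include hinj in
theorem card_OO {d : ℚ} (hd : 0 < d) (hδ : δ * δ = -(d : A.E))
    (hb : ∀ w, {φ ∈ A.Φ | φ δ = w}.encard ≤ 3) :
    ((OO A j δ z).card : ℤ) + |FF (OO A j δ z) 1| ≤ 7 := by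
  classical
  let p : Finset (A.E →+* L) := Finset.univ.filter fun φ => j (φ δ) = z ∧ j.comp φ ∈ A.Φ
  let q : Finset (A.E →+* L) := Finset.univ.filter fun φ => j (φ δ) = z ∧ ¬ j.comp φ ∈ A.Φ
  have hpq : (OO A j δ z).card = p.card + q.card := by
    unfold OO
    rw [Finset.card_image_of_injective _ hinj,
      ← Finset.card_filter_add_card_filter_not (fun φ : A.E →+* L => j.comp φ ∈ A.Φ),
      Finset.filter_filter, Finset.filter_filter]
  have hF : FF (OO A j δ z) 1 = (p.card : ℤ) - q.card := by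
    unfold FF OO
    rw [Finset.sum_image (fun x _ y _ h => hinj h)]
    have h1 : ∀ φ : A.E →+* L, sg (hs A j φ) 1 = if j.comp φ ∈ A.Φ then 1 else -1 := by
      intro φ
      unfold sg
      have h2 : (1 : L ≃ₐ[ℚ] L) ∈ hs A j φ ↔ j.comp φ ∈ A.Φ := by
        change j.comp ((1 : L ≃ₐ[ℚ] L) • φ) ∈ A.Φ ↔ _
        rw [one_smul]
      simp only [h2]
    rw [Finset.sum_congr rfl fun φ _ => h1 φ, Finset.sum_ite, Finset.sum_const, Finset.sum_const,
      Finset.filter_filter, Finset.filter_filter]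
    simp only [nsmul_eq_mul, mul_one, mul_neg]
    ring
  have hle : ∀ (w : ℂ) (s : Finset (A.E →+* L)) (g : (A.E →+* L) → (A.E →+* ℂ)),
      (∀ φ ∈ s, g φ ∈ A.Φ ∧ g φ δ = w) → Function.Injective g → s.card ≤ 3 := by
    intro w s g h1 h2
    have h3 : ((s.image g : Finset (A.E →+* ℂ)) : Set (A.E →+* ℂ)) ⊆ {φ ∈ A.Φ | φ δ = w} := by
      intro ψ hψ
      rw [Finset.mem_coe, Finset.mem_image] at hψ
      obtain ⟨φ, h4, rfl⟩ := hψ
      exact h1 φ h4
    have h4 := (Set.encard_le_encard h3).trans (hb w)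
    rw [Set.encard_coe_eq_coe_finsetCard, Finset.card_image_of_injective _ h2] at h4
    exact_mod_cast h4
  have hjinj : Function.Injective fun φ : A.E →+* L => j.comp φ := fun φ φ' h =>
    RingHom.ext fun x => j.injective (congrArg (fun f : A.E →+* ℂ => f x) h)
  have hp : p.card ≤ 3 := hle z p (fun φ => j.comp φ) (fun φ hφ => by
    have h1 := (Finset.mem_filter.1 hφ).2
    exact ⟨h1.2, h1.1⟩) hjinj
  have hq : q.card ≤ 3 := hle (starRingEnd ℂ z) q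
    (fun φ => ComplexEmbedding.conjugate (j.comp φ)) (fun φ hφ => by
      have h1 := (Finset.mem_filter.1 hφ).2
      refine ⟨?_, ?_⟩
      · by_contra h2
        exact h1.2 ((A.isCMType (j.comp φ)).2 h2)
      · change starRingEnd ℂ (j (φ δ)) = _
        rw [h1.1]) (fun φ φ' h => hjinj (star_injective h))
  rw [hpq, hF]
  rcases abs_cases ((p.card : ℤ) - q.card) with h | h <;> rw [h.1] <;> push_cast <;> omega

end orbit

/-! ### The main induction -/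

theorem emb_of_same' {A B : CMPair} (j : L →+* ℂ)
    (hj : ∀ ψ : B.E →+* ℂ, ∃ φ : B.E →+* L, j.comp φ = ψ) (h : SameType A B) (ψ : A.E →+* ℂ) :
    ∃ φ : A.E →+* L, j.comp φ = ψ := by
  obtain ⟨e, he⟩ := h
  obtain ⟨φ, hφ⟩ := hj (ψ.comp (e.symm : B.E →+* A.E))
  refine ⟨φ.comp (e : A.E →+* B.E), ?_⟩
  have h1 : j.comp (φ.comp (e : A.E →+* B.E)) = (j.comp φ).comp (e : A.E →+* B.E) := rfl
  rw [h1, hφ]
  ext x
  exact congrArg ψ (e.symm_apply_apply x)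

theorem Ok.neg {𝒜 : Sys} {j : L →+* ℂ} {v : Set (L ≃ₐ[ℚ] L) → ℤ} (hv : v ∈ Lam HP)
    (h : Ok (csys 𝒜) j v) : Ok (csys 𝒜) j (-v) := by
  have h1 := h.gal (csys 𝒜) (cc L)
  have h2 : (fun S => v (tr (cc L) S)) = -v :=
    funext fun S => tr_cc_neg (P := HP) (fun S hS => hS) (tr_HP j) j hv S
  rwa [h2] at h1

/-- The property which is proved by induction. -/
def QQ (𝒜 : Sys) (j : L →+* ℂ) (a : Set (L ≃ₐ[ℚ] L) → ℤ) : Prop :=
  ∃ c : {N : Subgroup (L ≃ₐ[ℚ] L) // IsImag N} → ℤ,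
    a - ∑ N, c N • uT (sN N.1) ∈ Lam HP ∧ Ok (csys 𝒜) j (a - ∑ N, c N • uT (sN N.1))

theorem QQ.zero (𝒜 : Sys) (j : L →+* ℂ) : QQ 𝒜 j 0 := by
  refine ⟨0, ?_⟩
  have h1 : (0 : Set (L ≃ₐ[ℚ] L) → ℤ) - ∑ N : {N : Subgroup (L ≃ₐ[ℚ] L) // IsImag N},
      (0 : {N : Subgroup (L ≃ₐ[ℚ] L) // IsImag N} → ℤ) N • uT (sN N.1) = 0 := by
    simp
  rw [h1]
  exact ⟨Submodule.zero_mem _, ok_zero (csys 𝒜) j⟩

theorem QQ.add {𝒜 : Sys} {j : L →+* ℂ} {a b : Set (L ≃ₐ[ℚ] L) → ℤ} (ha : QQ 𝒜 j a)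
    (hb : QQ 𝒜 j b) : QQ 𝒜 j (a + b) := by
  obtain ⟨c, h1, h2⟩ := ha
  obtain ⟨c', h1', h2'⟩ := hb
  refine ⟨c + c', ?_⟩
  have h3 : a + b - ∑ N, (c + c') N • uT (sN N.1) =
      (a - ∑ N, c N • uT (sN N.1)) + (b - ∑ N, c' N • uT (sN N.1)) := by
    have h4 : ∑ N, (c + c') N • uT (sN N.1) =
        ∑ N, c N • uT (sN N.1) + ∑ N, c' N • uT (sN N.1) := by
      rw [← Finset.sum_add_distrib]
      exact Finset.sum_congr rfl fun N _ => add_smul _ _ _
    rw [h4]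
    abel
  rw [h3]
  exact ⟨Submodule.add_mem _ h1 h1', h2.add (csys 𝒜) h2'⟩

theorem QQ.neg {𝒜 : Sys} {j : L →+* ℂ} {a : Set (L ≃ₐ[ℚ] L) → ℤ} (ha : QQ 𝒜 j a) :
    QQ 𝒜 j (-a) := by
  obtain ⟨c, h1, h2⟩ := ha
  refine ⟨-c, ?_⟩
  have h3 : -a - ∑ N, (-c) N • uT (sN N.1) = -(a - ∑ N, c N • uT (sN N.1)) := by
    have h4 : ∑ N, (-c) N • uT (sN N.1) = -∑ N, c N • uT (sN N.1) := by
      rw [← Finset.sum_neg_distrib]
      exact Finset.sum_congr rfl fun N _ => neg_smul _ _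
    rw [h4]
    abel
  rw [h3]
  exact ⟨Submodule.neg_mem _ h1, Ok.neg h1 h2⟩

theorem QQ.orbit {𝒜 : Sys} {j : L →+* ℂ} {A : CMPair}
    (hinj : Function.Injective (hs A j)) {δ : A.E} {d : ℚ} (hd : 0 < d)
    (hδ : δ * δ = -(d : A.E)) (z : ℂ)
    (hb : HasWeil 𝒜 ∨ ∀ w, {φ ∈ A.Φ | φ δ = w}.encard ≤ 3) : QQ 𝒜 j (uF (OO A j δ z)) := by
  classical
  rcases (OO A j δ z).eq_empty_or_nonempty with h0 | ⟨S, hS⟩
  · have h1 : uF (OO A j δ z) = 0 := by
      rw [h0]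
      funext S
      unfold uF
      simp
    rw [h1]
    exact QQ.zero 𝒜 j
  · obtain ⟨φ0, h1, -⟩ := (mem_OO A j δ z).1 hS
    have hx : φ0 δ * φ0 δ = -(d : L) := by
      rw [← map_mul, hδ, map_neg, map_ratCast]
    have hN := isImag_stb' hd hx
    refine ⟨Pi.single ⟨stb' (φ0 δ), hN⟩ (FF (OO A j δ z) 1), ?_⟩
    have h2 : uF (OO A j δ z) - ∑ N : {N : Subgroup (L ≃ₐ[ℚ] L) // IsImag N},
        (Pi.single ⟨stb' (φ0 δ), hN⟩ (FF (OO A j δ z) 1) :
          {N : Subgroup (L ≃ₐ[ℚ] L) // IsImag N} → ℤ) N • uT (sN N.1) =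
        wF (OO A j δ z) (stb' (φ0 δ)) := by
      rw [Finset.sum_eq_single ⟨stb' (φ0 δ), hN⟩]
      · rw [Pi.single_eq_same]
        rfl
      · intro M _ hM
        rw [Pi.single_eq_of_ne hM, zero_smul]
      · intro h
        exact absurd (Finset.mem_univ _) h
    rw [h2]
    refine ⟨wF_mem (isHalf_OO A j δ z) hN (stable_OO A j δ z h1),
      ok_wF (isHalf_OO A j δ z) hN (stable_OO A j δ z h1) 𝒜 j ?_⟩
    rcases hb with hb | hb
    · exact Or.inl hb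
    · exact Or.inr (card_OO A j hinj δ z hd hδ hb)

/-- Relations which satisfy the property belong to the system. -/
theorem QQ.ok {𝒜 : Sys} {j : L →+* ℂ} {a : Set (L ≃ₐ[ℚ] L) → ℤ} (h : QQ 𝒜 j a)
    (hs : ∀ σ, ∑ S, a S * sg S σ = 0) : Ok (csys 𝒜) j a := by
  classical
  obtain ⟨c, h1, h2⟩ := h
  have h3 : ∀ σ, ∑ N, c N * sg (sN N.1) σ = 0 := by
    intro σ
    have h4 := h1.2.2 σ
    have h5 : ∀ S : Set (L ≃ₐ[ℚ] L), (a - ∑ N, c N • uT (sN N.1)) S * sg S σ =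
        a S * sg S σ - ∑ N, c N * (uT (sN N.1) S * sg S σ) := by
      intro S
      rw [Pi.sub_apply, Finset.sum_apply, sub_mul, Finset.sum_mul]
      congr 1
      refine Finset.sum_congr rfl fun N _ => ?_
      rw [Pi.smul_apply, smul_eq_mul, mul_assoc]
    rw [Finset.sum_congr rfl fun S _ => h5 S, Finset.sum_sub_distrib, hs σ, Finset.sum_comm,
      zero_sub, neg_eq_zero] at h4
    have h6 : ∀ N : {N : Subgroup (L ≃ₐ[ℚ] L) // IsImag N},
        ∑ S, c N * (uT (sN N.1) S * sg S σ) = 2 * (c N * sg (sN N.1) σ) := by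
      intro N
      rw [← Finset.mul_sum, sum_uT]
      ring
    rw [Finset.sum_congr rfl fun N _ => h6 N, ← Finset.mul_sum] at h4
    omega
  have h4 := chi_indep j h3
  rw [h4] at h2
  have h5 : a - ∑ N : {N : Subgroup (L ≃ₐ[ℚ] L) // IsImag N},
      (0 : {N : Subgroup (L ≃ₐ[ℚ] L) // IsImag N} → ℤ) N • uT (sN N.1) = a := by
    simp
  rwa [h5] at h2

/-- The element of the free abelian group with the given odd function. -/
def up (j : L →+* ℂ) (a : Set (L ≃ₐ[ℚ] L) → ℤ) : ((ℂ ≃+* ℂ) → ℚ) →₀ ℤ :=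
  ∑ S, Finsupp.single (Th j S) ((a S).toNat : ℤ)

theorem up_apply (j : L →+* ℂ) (a : Set (L ≃ₐ[ℚ] L) → ℤ) (S : Set (L ≃ₐ[ℚ] L)) :
    up j a (Th j S) = ((a S).toNat : ℤ) := by
  classical
  unfold up
  rw [Finsupp.finsetSum_apply, Finset.sum_eq_single S]
  · rw [Finsupp.single_eq_same]
  · intro T _ hT
    rw [Finsupp.single_eq_of_ne]
    exact fun h => hT (Th_inj j h).symm
  · intro h
    exact absurd (Finset.mem_univ _) h

theorem pb_up (j : L →+* ℂ) {a : Set (L ≃ₐ[ℚ] L) → ℤ} (ha : ∀ S, a Sᶜ = -a S) :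
    pb j (up j a) = a := by
  funext S
  change up j a (Th j S) - up j a (Th j Sᶜ) = a S
  rw [up_apply, up_apply, ha]
  exact Int.toNat_sub_toNat_neg _

theorem half_zero {a : Set (L ≃ₐ[ℚ] L) → ℤ} (ha : ∀ S, a Sᶜ = -a S)
    (hr : ∀ σ, ∑ S, a S * sg S σ = 0) (σ : L ≃ₐ[ℚ] L) : ∑ S, ((a S).toNat : ℤ) * sg S σ = 0 := by
  classical
  have h1 : ∑ S, ((a S).toNat : ℤ) * sg S σ = ∑ S, ((-a S).toNat : ℤ) * (-sg S σ) := by
    rw [← Equiv.sum_comp (Equiv.mk compl compl (compl_compl ·) (compl_compl ·) :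
      Set (L ≃ₐ[ℚ] L) ≃ Set (L ≃ₐ[ℚ] L))]
    refine Finset.sum_congr rfl fun S _ => ?_
    change ((a Sᶜ).toNat : ℤ) * sg Sᶜ σ = _
    rw [ha, sg_compl]
  have h2 : ∑ S, ((a S).toNat : ℤ) * sg S σ + ∑ S, ((a S).toNat : ℤ) * sg S σ = 0 := by
    nth_rewrite 2 [h1]
    rw [← Finset.sum_add_distrib, ← hr σ]
    refine Finset.sum_congr rfl fun S _ => ?_
    have h3 : ((a S).toNat : ℤ) - ((-a S).toNat : ℤ) = a S := Int.toNat_sub_toNat_neg _
    calc ((a S).toNat : ℤ) * sg S σ + ((-a S).toNat : ℤ) * -sg S σ =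
        (((a S).toNat : ℤ) - ((-a S).toNat : ℤ)) * sg S σ := by ring
      _ = a S * sg S σ := by rw [h3]
  omega

section main

variable {X : AV} {X0 : CMAV} (j : L →+* ℂ)
  (h1 : ∀ i, IsCMFactor (X0.factor i) X)
  (h2 : ∀ A : CMPair, IsCMFactor A X → ∃ i, SameType A (X0.factor i))
  (hj : ∀ i, ∀ ψ : (X0.factor i).E →+* ℂ, ∃ φ : (X0.factor i).E →+* L, j.comp φ = ψ)

include h1 h2 hj in
theorem SV_eq_image : SV X = Th j '' PX j X0 := by
  rw [sv_eq h1 h2]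
  ext s
  constructor
  · rintro ⟨i, φ, rfl⟩
    obtain ⟨φ', rfl⟩ := hj i φ
    exact ⟨_, ⟨⟨i, φ'⟩, rfl⟩, (signs_eq j (X0.factor i) φ').symm⟩
  · rintro ⟨_, ⟨x, rfl⟩, rfl⟩
    exact ⟨x.1, j.comp x.2, (signs_eq j (X0.factor x.1) x.2).symm⟩

include h1 h2 hj in
theorem isRelation_up {a : Set (L ≃ₐ[ℚ] L) → ℤ} (ha : a ∈ Lam (PX j X0)) :
    IsRelation X (up j a) := by
  classical
  constructor
  · intro s hs
    rw [SV_eq_image j h1 h2 hj]
    by_contra hcon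
    apply hs
    unfold up
    rw [Finsupp.finsetSum_apply]
    refine Finset.sum_eq_zero fun S _ => ?_
    by_cases hS : S ∈ PX j X0
    · rw [Finsupp.single_eq_of_ne]
      rintro rfl
      exact hcon ⟨S, hS, rfl⟩
    · rw [ha.1 S hS]
      simp
  · have h3 : ((up j a).sum fun s n => (n : ℚ) • s) = ∑ S, (((a S).toNat : ℤ) : ℚ) • Th j S := by
      unfold up
      rw [← Finsupp.sum_finsetSum_index]
      · refine Finset.sum_congr rfl fun S _ => ?_
        rw [Finsupp.sum_single_index]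
        simp
      · intro s
        simp
      · intro s n m
        rw [Int.cast_add, add_smul]
    rw [h3, Th_zero_iff]
    exact half_zero ha.2.1 ha.2.2

include h1 h2 hj in
theorem QQ_of_gen (𝒜 : Sys) {n : ℕ∞} (hn : HasWeil 𝒜 ∨ n = 3)
    {m : ((ℂ ≃+* ℂ) → ℚ) →₀ ℤ} (hm : m ∈ Gen X n) : QQ 𝒜 j (pb j m) := by
  unfold Gen at hm
  induction hm using AddSubgroup.closure_induction with
  | mem m hm =>
    rcases hm with ⟨s, -, rfl⟩ | ⟨A, hA, δ, d, z, hd, hδ, hb, rfl⟩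
    · rw [pb_pair]
      exact QQ.zero 𝒜 j
    · obtain ⟨i, hi⟩ := h2 A hA
      have hinj := inj_of_primitive A j hA.1
      rw [pb_orbit A j (emb_of_same' j (hj i) hi) hinj]
      refine QQ.orbit hinj hd hδ z ?_
      rcases hn with hn | rfl
      · exact Or.inl hn
      · exact Or.inr hb
  | zero =>
    rw [pb_zero]
    exact QQ.zero 𝒜 j
  | add a b _ _ ha hb =>
    rw [pb_add]
    exact ha.add hb
  | neg a _ ha =>
    rw [pb_neg]
    exact ha.neg

include h1 h2 hj in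
/-- **The positive direction.** -/
theorem ok_of_gen (𝒜 : Sys) {n : ℕ∞} (hn : HasWeil 𝒜 ∨ n = 3)
    (h : ∀ m, IsRelation X m → m ∈ Gen X n) : ∀ a ∈ Lam (PX j X0), Ok (csys 𝒜) j a := by
  intro a ha
  have h3 := QQ_of_gen j h1 h2 hj 𝒜 hn (h _ (isRelation_up j h1 h2 hj ha))
  rw [pb_up j ha.2.1] at h3
  exact h3.ok ha.2.2

end main

end

end Pool.Agent.K4H21.LC
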